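import Pool.Agent.K3h39.CCS.Deriv

/-!
Two static trees denoting the strip: reading it from left to right and from right to left.
-/

namespace Pool.Agent.K3h39.CCS

/-- Parameters of the construction. -/
structure Cfg (N : Type) where
  s : ℕ
  n : ℕ
  hs : 3 ≤ s
  hn : 5 ≤ n
  e : N ≃ Fin (s + 3)

variable {N : Type} (c : Cfg N)

/-- Index of a name. -/
def Cfg.pt (a : N) : ℕ := (c.e a : ℕ)

theorem Cfg.nmi_lt (v : ℕ) :
    (if v = 0 then c.s + 1 else if v = 1 then c.s + 2 else v % (c.s + 1)) < c.s + 3 := by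
  have : v % (c.s + 1) < c.s + 1 := Nat.mod_lt _ (Nat.succ_pos _)
  split_ifs <;> omega

/-- Name used for the vertex `v`. -/
def Cfg.nm (v : ℕ) : N :=
  c.e.symm ⟨if v = 0 then c.s + 1 else if v = 1 then c.s + 2 else v % (c.s + 1), c.nmi_lt v⟩

theorem eq_of_mod {k v v' : ℕ} (hvv : v ≤ v') (hlt : v' - v < k) (h : v % k = v' % k) : v = v' := by
  have h1 : (v' - v) % k = 0 := Nat.sub_mod_eq_zero_of_mod_eq h.symm
  rw [Nat.mod_eq_of_lt hlt] at h1
  omega

theorem Cfg.nm_inj {w v v' : ℕ} (hv : v ≤ 1 ∨ (w ≤ v ∧ v ≤ w + c.s))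
    (hv' : v' ≤ 1 ∨ (w ≤ v' ∧ v' ≤ w + c.s)) (h : c.nm v = c.nm v') : v = v' := by
  unfold Cfg.nm at h
  have h1 := congrArg Fin.val (c.e.symm.injective h)
  simp only at h1
  have h2 := Nat.mod_lt v (Nat.succ_pos c.s)
  have h3 := Nat.mod_lt v' (Nat.succ_pos c.s)
  simp only [Nat.succ_eq_add_one] at h2 h3
  by_cases hv0 : v = 0
  · by_cases hv0' : v' = 0
    · omega
    · by_cases hv1' : v' = 1
      · simp only [hv0, hv1', if_true, if_false, one_ne_zero] at h1; omega
      · simp only [hv0, hv0', hv1', if_true, if_false] at h1; omega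
  · by_cases hv1 : v = 1
    · by_cases hv0' : v' = 0
      · simp only [hv1, hv0', if_true, if_false, one_ne_zero] at h1; omega
      · by_cases hv1' : v' = 1
        · omega
        · simp only [hv1, hv0', hv1', if_true, if_false, one_ne_zero] at h1; omega
    · by_cases hv0' : v' = 0
      · simp only [hv0, hv1, hv0', if_true, if_false] at h1; omega
      · by_cases hv1' : v' = 1
        · simp only [hv0, hv1, hv1', if_true, if_false, one_ne_zero] at h1; omega
        · simp only [hv0, hv1, hv0', hv1', if_false] at h1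
          rcases Nat.le_total v v' with h4 | h4
          · exact eq_of_mod h4 (by omega) h1
          · exact (eq_of_mod h4 (by omega) h1.symm).symm

/-- Position of the port `p` of a leaf, possibly reflected. -/
def Cfg.tau (fl : Bool) (p : ℕ) : ℕ := if fl then c.s - p else p

theorem Cfg.tau_le (fl : Bool) {p : ℕ} (hp : p ≤ c.s) : c.tau fl p ≤ c.s := by
  unfold Cfg.tau; split_ifs <;> omega

/-- The `j`-th leaf of the chain. -/
def Cfg.leafT (fl : Bool) (lab : ℕ → ℕ) (j : ℕ) : Tree N ℕ :=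
  .rel (.res (.leaf (lab j)) {a | c.s < c.pt a}) (fun a => (c.nm (j + c.tau fl (c.pt a)), true))

theorem label_name (g : N → N) (l : Label N) : Relab.label (fun a => (g a, true)) l = (g l.1, l.2) := by
  obtain ⟨a, b⟩ := l
  cases b <;> simp [Relab.label, co]

theorem Cfg.leafT_expo (fl : Bool) (lab : ℕ → ℕ) (j i : ℕ) (α β : Label N) :
    (c.leafT fl lab j).Expo i α β ↔
      i = lab j ∧ c.pt α.1 ≤ c.s ∧ β = (c.nm (j + c.tau fl (c.pt α.1)), α.2) := by
  constructor
  · rintro ⟨β', ⟨⟨h1, h2⟩, h3⟩, h4⟩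
    subst h2
    refine ⟨h1, ?_, ?_⟩
    · simpa using h3
    · rw [h4, label_name]
  · rintro ⟨h1, h2, h3⟩
    exact ⟨α, ⟨⟨h1, rfl⟩, by simpa using h2⟩, by rw [h3, label_name]⟩

/-- The names restricted when the leaf `k` is added. -/
def Cfg.lam (k : ℕ) : Set N := {a | 2 ≤ k ∧ a = c.nm k}

/-- The chain of the leaves `0, ..., j`. -/
def Cfg.chain (fl : Bool) (lab : ℕ → ℕ) : ℕ → Tree N ℕ
  | 0 => c.leafT fl lab 0
  | j + 1 => .res (.par (Cfg.chain fl lab j) (c.leafT fl lab (j + 1))) (c.lam (j + 1))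

theorem Cfg.chain_labels (fl : Bool) (lab : ℕ → ℕ) (j : ℕ) :
    (c.chain fl lab j).labels = (Multiset.range (j + 1)).map lab := by
  induction j with
  | zero => simp [Cfg.chain, Cfg.leafT, Tree.labels]
  | succ j ih =>
    rw [Multiset.range_succ, Multiset.map_cons, ← ih]
    simp only [Cfg.chain, Cfg.leafT, Tree.labels]
    rw [add_comm, Multiset.singleton_add]

theorem Cfg.chain_expo (fl : Bool) (lab : ℕ → ℕ) (j i : ℕ) (α β : Label N) :
    (c.chain fl lab j).Expo i α β ↔
      ∃ k ≤ j, i = lab k ∧ c.pt α.1 ≤ c.s ∧ β = (c.nm (k + c.tau fl (c.pt α.1)), α.2) ∧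
        (k + c.tau fl (c.pt α.1) ≤ 1 ∨ j < k + c.tau fl (c.pt α.1)) := by
  induction j with
  | zero =>
    rw [Cfg.chain, Cfg.leafT_expo]
    constructor
    · rintro ⟨h1, h2, h3⟩
      exact ⟨0, le_rfl, h1, h2, h3, by omega⟩
    · rintro ⟨k, hk, h1, h2, h3, _⟩
      obtain rfl : k = 0 := by omega
      exact ⟨h1, h2, h3⟩
  | succ j ih =>
    simp only [Cfg.chain, Tree.Expo]
    rw [ih, Cfg.leafT_expo]
    constructor
    · rintro ⟨⟨k, hk, h1, h2, h3, h4⟩ | ⟨h1, h2, h3⟩, h5⟩
      · refine ⟨k, by omega, h1, h2, h3, ?_⟩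
        by_contra hcon
        apply h5
        have h6 : k + c.tau fl (c.pt α.1) = j + 1 := by omega
        refine ⟨by omega, ?_⟩
        rw [h3, h6]
      · refine ⟨j + 1, le_rfl, h1, h2, h3, ?_⟩
        by_contra hcon
        apply h5
        have h6 : j + 1 + c.tau fl (c.pt α.1) = j + 1 := by omega
        refine ⟨by omega, ?_⟩
        rw [h3, h6]
    · rintro ⟨k, hk, h1, h2, h3, h4⟩
      have hle := c.tau_le fl h2
      refine ⟨?_, ?_⟩
      · rcases Nat.lt_or_ge k (j + 1) with h | h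
        · left; exact ⟨k, by omega, h1, h2, h3, by omega⟩
        · right
          obtain rfl : k = j + 1 := by omega
          exact ⟨h1, h2, h3⟩
      · rintro ⟨h5, h6⟩
        rw [h3] at h6
        have := c.nm_inj (w := j + 1) (by omega) (by omega) h6
        omega

theorem Cfg.chain_conn (fl : Bool) (lab : ℕ → ℕ) (j : ℕ) (i : ℕ) (α : Label N) (i' : ℕ) (α' : Label N) :
    (c.chain fl lab j).Conn i α i' α' ↔
      ∃ k k', k ≤ j ∧ k' ≤ j ∧ k ≠ k' ∧ i = lab k ∧ i' = lab k' ∧ c.pt α.1 ≤ c.s ∧ c.pt α'.1 ≤ c.s ∧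
        k + c.tau fl (c.pt α.1) = k' + c.tau fl (c.pt α'.1) ∧ α'.2 = !α.2 := by
  induction j with
  | zero =>
    constructor
    · intro h; exact h.elim
    · rintro ⟨k, k', h1, h2, h3, _⟩
      omega
  | succ j ih =>
    have key : ∀ (i i' : ℕ) (α α' : Label N), (∃ β, (c.chain fl lab j).Expo i α β ∧
        (c.leafT fl lab (j + 1)).Expo i' α' (co β)) ↔
        ∃ k ≤ j, i = lab k ∧ i' = lab (j + 1) ∧ c.pt α.1 ≤ c.s ∧ c.pt α'.1 ≤ c.s ∧
          k + c.tau fl (c.pt α.1) = j + 1 + c.tau fl (c.pt α'.1) ∧ α'.2 = !α.2 := by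
      intro i i' α α'
      constructor
      · rintro ⟨β, h1, h2⟩
        rw [Cfg.chain_expo] at h1
        rw [Cfg.leafT_expo] at h2
        obtain ⟨k, hk, h3, h4, rfl, h5⟩ := h1
        obtain ⟨h6, h7, h8⟩ := h2
        have h9 := congrArg Prod.fst h8
        have h10 := congrArg Prod.snd h8
        simp only [co] at h9 h10
        have hle := c.tau_le fl h4
        have hle' := c.tau_le fl h7
        refine ⟨k, hk, h3, h6, h4, h7, c.nm_inj (w := j + 1) (by omega) (by omega) h9, h10.symm⟩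
      · rintro ⟨k, hk, h1, h2, h3, h4, h5, h6⟩
        refine ⟨(c.nm (k + c.tau fl (c.pt α.1)), α.2), ?_, ?_⟩
        · rw [Cfg.chain_expo]
          exact ⟨k, hk, h1, h3, rfl, by omega⟩
        · rw [Cfg.leafT_expo]
          refine ⟨h2, h4, ?_⟩
          rw [h5, h6]
          rfl
    have key' : ∀ (i i' : ℕ) (α α' : Label N), (∃ β, (c.leafT fl lab (j + 1)).Expo i α β ∧
        (c.chain fl lab j).Expo i' α' (co β)) ↔ (∃ β, (c.chain fl lab j).Expo i' α' β ∧
        (c.leafT fl lab (j + 1)).Expo i α (co β)) := by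
      intro i i' α α'
      constructor
      · rintro ⟨β, h1, h2⟩; exact ⟨co β, h2, by rwa [co_co]⟩
      · rintro ⟨β, h1, h2⟩; exact ⟨co β, h2, by rwa [co_co]⟩
    have hflip : ∀ a b : Bool, a = !b ↔ b = !a := by intro a b; cases a <;> cases b <;> simp
    simp only [Cfg.chain, Tree.Conn]
    rw [ih, key, key', key]
    have hleaf : ¬ (c.leafT fl lab (j + 1)).Conn i α i' α' := fun h => h
    constructor
    · rintro (⟨k, k', h1, h2, h3, h4⟩ | h | ⟨k, h1, h2, h3, h4, h5, h6, h7⟩ |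
        ⟨k, h1, h2, h3, h4, h5, h6, h7⟩)
      · exact ⟨k, k', by omega, by omega, h3, h4⟩
      · exact absurd h hleaf
      · exact ⟨k, j + 1, by omega, le_rfl, by omega, h2, h3, h4, h5, h6, h7⟩
      · exact ⟨j + 1, k, le_rfl, by omega, by omega, h3, h2, h5, h4, h6.symm, (hflip _ _).1 h7⟩
    · rintro ⟨k, k', h1, h2, h3, h4, h5, h6, h7, h8, h9⟩
      rcases Nat.lt_or_ge k (j + 1) with h | h
      · rcases Nat.lt_or_ge k' (j + 1) with h' | h'
        · exact Or.inl ⟨k, k', by omega, by omega, h3, h4, h5, h6, h7, h8, h9⟩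
        · obtain rfl : k' = j + 1 := by omega
          exact Or.inr (Or.inr (Or.inl ⟨k, by omega, h4, h5, h6, h7, h8, h9⟩))
      · obtain rfl : k = j + 1 := by omega
        exact Or.inr (Or.inr (Or.inr ⟨k', by omega, h5, h4, h7, h6, h8.symm, (hflip _ _).1 h9⟩))

/-- Visible vertices. -/
def Cfg.extc (x0 x1 x2 x3 : N) (v : ℕ) : Option N :=
  if v = 0 then some x0 else if v = 1 then some x1 else if v = c.n + c.s - 2 then some x2
  else if v = c.n + c.s - 1 then some x3 else none

open Classical in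
/-- The whole tree. -/
noncomputable def Cfg.full (fl : Bool) (lab : ℕ → ℕ) (x0 x1 x2 x3 : N) : Tree N ℕ :=
  .rel (.res (c.chain fl lab (c.n - 1)) {a | ∃ v, c.n ≤ v ∧ v + 3 ≤ c.n + c.s ∧ a = c.nm v})
    (fun a => (if a = c.nm 0 then x0 else if a = c.nm 1 then x1 else if a = c.nm (c.n + c.s - 2) then x2
      else x3, true))

theorem Cfg.full_expo (fl : Bool) (lab : ℕ → ℕ) (x0 x1 x2 x3 : N) (i : ℕ) (α β : Label N) :
    (c.full fl lab x0 x1 x2 x3).Expo i α β ↔
      ∃ k < c.n, i = lab k ∧ c.pt α.1 ≤ c.s ∧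
        c.extc x0 x1 x2 x3 (k + c.tau fl (c.pt α.1)) = some β.1 ∧ β.2 = α.2 := by
  classical
  have hs := c.hs
  have hn := c.hn
  have hname : ∀ v, (v ≤ 1 ∨ (c.n ≤ v ∧ v < c.n + c.s)) → (¬ ∃ u, c.n ≤ u ∧ u + 3 ≤ c.n + c.s ∧ c.nm v = c.nm u) →
      c.extc x0 x1 x2 x3 v = some (if c.nm v = c.nm 0 then x0 else if c.nm v = c.nm 1 then x1 else
        if c.nm v = c.nm (c.n + c.s - 2) then x2 else x3) := by
    intro v hv hnot
    have hv2 : v = 0 ∨ v = 1 ∨ v = c.n + c.s - 2 ∨ v = c.n + c.s - 1 := by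
      by_contra hcon
      apply hnot
      exact ⟨v, by omega, by omega, rfl⟩
    have inj : ∀ v', (v' ≤ 1 ∨ (c.n ≤ v' ∧ v' < c.n + c.s)) → c.nm v = c.nm v' → v = v' := fun v' hv' h =>
      c.nm_inj (w := c.n) (by omega) (by omega) h
    have i0 : c.nm v = c.nm 0 ↔ v = 0 := ⟨inj 0 (by omega), fun h => by rw [h]⟩
    have i1 : c.nm v = c.nm 1 ↔ v = 1 := ⟨inj 1 (by omega), fun h => by rw [h]⟩
    have i2 : c.nm v = c.nm (c.n + c.s - 2) ↔ v = c.n + c.s - 2 :=
      ⟨inj _ (by omega), fun h => by rw [h]⟩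
    unfold Cfg.extc
    simp only [i0, i1, i2]
    by_cases h0 : v = 0
    · simp [h0]
    · by_cases h1 : v = 1
      · simp [h1]
      · by_cases h2 : v = c.n + c.s - 2
        · rw [if_neg h0, if_neg h1, if_pos h2, if_neg h0, if_neg h1, if_pos h2]
        · have h3 : v = c.n + c.s - 1 := by omega
          rw [if_neg h0, if_neg h1, if_neg h2, if_pos h3, if_neg h0, if_neg h1, if_neg h2]
  constructor
  · rintro ⟨β', ⟨h1, h2⟩, h3⟩
    rw [Cfg.chain_expo] at h1
    obtain ⟨k, hk, h4, h5, h6, h7⟩ := h1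
    have hle := c.tau_le fl h5
    rw [label_name] at h3
    subst h6
    refine ⟨k, by omega, h4, h5, ?_, by rw [h3]⟩
    rw [h3]
    exact hname _ (by omega) h2
  · rintro ⟨k, hk, h4, h5, h6, h7⟩
    have hle := c.tau_le fl h5
    have hv : k + c.tau fl (c.pt α.1) = 0 ∨ k + c.tau fl (c.pt α.1) = 1 ∨
        k + c.tau fl (c.pt α.1) = c.n + c.s - 2 ∨ k + c.tau fl (c.pt α.1) = c.n + c.s - 1 := by
      by_contra hcon
      push Not at hcon
      unfold Cfg.extc at h6
      rw [if_neg hcon.1, if_neg hcon.2.1, if_neg hcon.2.2.1, if_neg hcon.2.2.2] at h6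
      cases h6
    have hnot : ¬ ∃ u, c.n ≤ u ∧ u + 3 ≤ c.n + c.s ∧ c.nm (k + c.tau fl (c.pt α.1)) = c.nm u := by
      rintro ⟨u, hu1, hu2, hu3⟩
      have := c.nm_inj (w := c.n) (by omega) (by omega) hu3
      omega
    refine ⟨(c.nm (k + c.tau fl (c.pt α.1)), α.2), ⟨?_, hnot⟩, ?_⟩
    · rw [Cfg.chain_expo]
      exact ⟨k, by omega, h4, h5, rfl, by omega⟩
    · rw [label_name]
      have := hname _ (by omega) hnot
      rw [h6] at this
      exact Prod.ext (Option.some.inj this) h7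

theorem Cfg.full_conn (fl : Bool) (lab : ℕ → ℕ) (x0 x1 x2 x3 : N) (i : ℕ) (α : Label N) (i' : ℕ)
    (α' : Label N) : (c.full fl lab x0 x1 x2 x3).Conn i α i' α' ↔
      ∃ k k', k < c.n ∧ k' < c.n ∧ k ≠ k' ∧ i = lab k ∧ i' = lab k' ∧ c.pt α.1 ≤ c.s ∧ c.pt α'.1 ≤ c.s ∧
        k + c.tau fl (c.pt α.1) = k' + c.tau fl (c.pt α'.1) ∧ α'.2 = !α.2 := by
  have hn := c.hn
  show (c.chain fl lab (c.n - 1)).Conn i α i' α' ↔ _
  rw [Cfg.chain_conn]
  constructor
  · rintro ⟨k, k', h1, h2, h3⟩; exact ⟨k, k', by omega, by omega, h3⟩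
  · rintro ⟨k, k', h1, h2, h3⟩; exact ⟨k, k', by omega, by omega, h3⟩

theorem Cfg.full_labels (fl : Bool) (lab : ℕ → ℕ) (x0 x1 x2 x3 : N) :
    (c.full fl lab x0 x1 x2 x3).labels = (Multiset.range c.n).map lab := by
  have hn := c.hn
  show (c.chain fl lab (c.n - 1)).labels = _
  rw [Cfg.chain_labels, show c.n - 1 + 1 = c.n by omega]

/-- Four different names. -/
def Cfg.nam (i : ℕ) (hi : i < 4) : N := c.e.symm ⟨i, by have := c.hs; omega⟩

theorem Cfg.nam_inj {i j : ℕ} (hi : i < 4) (hj : j < 4) (h : c.nam i hi = c.nam j hj) : i = j := by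
  have := congrArg Fin.val (c.e.symm.injective h)
  exact this

/-- The strip. -/
def Cfg.strip : Strip N where
  s := c.s
  n := c.n
  pt := c.pt
  ext := c.extc (c.nam 0 (by omega)) (c.nam 1 (by omega)) (c.nam 2 (by omega)) (c.nam 3 (by omega))
  hs := c.hs
  hn := c.hn
  pt_inj := fun a b h => c.e.injective (Fin.ext h)
  pt_surj := fun p hp => ⟨c.e.symm ⟨p, by omega⟩, by simp [Cfg.pt]⟩
  card := by
    intro Z
    have h1 := Finset.card_map (s := Z) c.e.toEmbedding
    have h2 := Finset.card_le_univ (Z.map c.e.toEmbedding)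
    rw [Fintype.card_fin] at h2
    omega
  ext_inj := by
    have hs := c.hs
    have hn := c.hn
    intro v v' a h h'
    unfold Cfg.extc at h h'
    split_ifs at h h'
    all_goals first
      | omega
      | (exfalso
         have h1 := (Option.some.inj h).trans (Option.some.inj h').symm
         have h2 := c.nam_inj _ _ h1
         omega)
      | cases h
      | cases h'
  ext0 := by simp [Cfg.extc]
  ext1 := by simp [Cfg.extc]
  ext2 := by
    unfold Cfg.extc
    split_ifs <;> first | rfl | omega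
  ext3 := by
    unfold Cfg.extc
    split_ifs <;> first | rfl | omega

/-- The tree from left to right. -/
noncomputable def Cfg.T0 : Tree N ℕ :=
  c.full false id (c.nam 0 (by omega)) (c.nam 1 (by omega)) (c.nam 2 (by omega)) (c.nam 3 (by omega))

/-- The tree from right to left. -/
noncomputable def Cfg.T1 : Tree N ℕ :=
  c.full true (fun k => c.n - 1 - k) (c.nam 3 (by omega)) (c.nam 2 (by omega)) (c.nam 1 (by omega))
    (c.nam 0 (by omega))

theorem Cfg.T0_is : c.strip.Is c.T0 := by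
  refine ⟨?_, ?_, ?_⟩
  · rw [Cfg.T0, Cfg.full_labels]
    simp [Cfg.strip]
  · intro i α β
    rw [Cfg.T0, Cfg.full_expo]
    constructor
    · rintro ⟨k, h1, rfl, h2, h3, h4⟩
      exact ⟨h1, h2, h3, h4⟩
    · rintro ⟨h1, h2, h3, h4⟩
      exact ⟨i, h1, rfl, h2, h3, h4⟩
  · intro i α i' α'
    rw [Cfg.T0, Cfg.full_conn]
    constructor
    · rintro ⟨k, k', h1, h2, h3, rfl, rfl, h4, h5, h6, h7⟩
      exact ⟨h1, h2, h3, h4, h5, h6, h7⟩
    · rintro ⟨h1, h2, h3, h4, h5, h6, h7⟩
      exact ⟨i, i', h1, h2, h3, rfl, rfl, h4, h5, h6, h7⟩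

theorem Cfg.T1_is : c.strip.Is c.T1 := by
  have hs := c.hs
  have hn := c.hn
  refine ⟨?_, ?_, ?_⟩
  · rw [Cfg.T1, Cfg.full_labels]
    show _ = Multiset.range c.n
    refine (Multiset.Nodup.ext ?_ (Multiset.nodup_range _)).2 ?_
    · refine Multiset.Nodup.map_on ?_ (Multiset.nodup_range _)
      intro x hx y hy hxy
      rw [Multiset.mem_range] at hx hy
      omega
    · intro a
      rw [Multiset.mem_map, Multiset.mem_range]
      constructor
      · rintro ⟨k, hk, rfl⟩
        omega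
      · intro ha
        exact ⟨c.n - 1 - a, Multiset.mem_range.2 (by omega), by omega⟩
  · intro i α β
    rw [Cfg.T1, Cfg.full_expo]
    have hrefl : ∀ v, v ≤ c.n + c.s - 1 → c.extc (c.nam 3 (by omega)) (c.nam 2 (by omega))
        (c.nam 1 (by omega)) (c.nam 0 (by omega)) (c.n + c.s - 1 - v) = c.strip.ext v := by
      intro v hv
      simp only [Cfg.strip, Cfg.extc]
      by_cases h0 : v = 0
      · rw [if_neg (by omega), if_neg (by omega), if_neg (by omega), if_pos (by omega), if_pos h0]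
      · by_cases h1 : v = 1
        · rw [if_neg (by omega), if_neg (by omega), if_pos (by omega), if_neg h0, if_pos h1]
        · by_cases h2 : v = c.n + c.s - 2
          · rw [if_neg (by omega), if_pos (by omega), if_neg h0, if_neg h1, if_pos h2]
          · by_cases h3 : v = c.n + c.s - 1
            · rw [if_pos (by omega), if_neg h0, if_neg h1, if_neg h2, if_pos h3]
            · rw [if_neg (by omega), if_neg (by omega), if_neg (by omega), if_neg (by omega), if_neg h0,
                if_neg h1, if_neg h2, if_neg h3]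
    constructor
    · rintro ⟨k, h1, rfl, h2, h3, h4⟩
      refine ⟨show _ < c.n by omega, h2, ?_, h4⟩
      rw [← hrefl _ (show _ ≤ _ by have h2' : c.strip.pt α.1 ≤ c.s := h2
                                   have h2'' : c.strip.pt α.1 = c.pt α.1 := rfl
                                   omega), ← h3]
      congr 1
      have h2'' : c.strip.pt α.1 = c.pt α.1 := rfl
      simp only [Cfg.tau, if_true]
      omega
    · rintro ⟨h1, h2, h3, h4⟩
      have h1' : i < c.n := h1
      have h2' : c.pt α.1 ≤ c.s := h2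
      have h2'' : c.strip.pt α.1 = c.pt α.1 := rfl
      refine ⟨c.n - 1 - i, by omega, by omega, h2', ?_, h4⟩
      rw [← h3, ← hrefl _ (by omega)]
      congr 1
      simp only [Cfg.tau, if_true]
      omega
  · intro i α i' α'
    rw [Cfg.T1, Cfg.full_conn]
    constructor
    · rintro ⟨k, k', h1, h2, h3, rfl, rfl, h4, h5, h6, h7⟩
      simp only [Cfg.tau, if_true] at h6
      refine ⟨show _ < c.n by omega, show _ < c.n by omega, by omega, h4, h5, ?_, h7⟩
      show c.n - 1 - k + c.pt α.1 = c.n - 1 - k' + c.pt α'.1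
      omega
    · rintro ⟨h1, h2, h3, h4, h5, h6, h7⟩
      have h1' : i < c.n := h1
      have h2' : i' < c.n := h2
      have h4' : c.pt α.1 ≤ c.s := h4
      have h5' : c.pt α'.1 ≤ c.s := h5
      have h6' : i + c.pt α.1 = i' + c.pt α'.1 := h6
      refine ⟨c.n - 1 - i, c.n - 1 - i', by omega, by omega, by omega, by omega, by omega, h4', h5', ?_, h7⟩
      simp only [Cfg.tau, if_true]
      omega

theorem Cfg.chain_nodes (fl : Bool) (lab : ℕ → ℕ) {i j : ℕ} (h : i ≤ j) :
    (c.chain fl lab i).labels ∈ (c.chain fl lab j).nodes := by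
  induction j, h using Nat.le_induction with
  | base => exact Tree.labels_mem_nodes _
  | succ j _ ih => exact Or.inr (Or.inl ih)

theorem Cfg.T0_pp : c.strip.PP c.T0 := by
  refine ⟨c.T0_is, ?_⟩
  intro i h1 h2
  have h2' : i + 2 ≤ c.n := h2
  have := c.chain_nodes false id (i := i) (j := c.n - 1) (by omega)
  rw [Cfg.chain_labels, Multiset.map_id] at this
  exact this

theorem Cfg.chain_nodes' (fl : Bool) (lab : ℕ → ℕ) (j : ℕ) :
    ∀ m ∈ (c.chain fl lab j).nodes, Multiset.card m = 1 ∨ lab 0 ∈ m := by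
  induction j with
  | zero =>
    intro m hm
    left
    rw [show m = {lab 0} from hm]
    simp
  | succ j ih =>
    rintro m (hm | hm | hm)
    · right
      rw [show m = _ from hm, Cfg.chain_labels, Multiset.mem_add]
      left
      exact Multiset.mem_map.2 ⟨0, Multiset.mem_range.2 (by omega), rfl⟩
    · exact ih m hm
    · left
      rw [show m = {lab (j + 1)} from hm]
      simp

theorem Cfg.T1_not : ¬ c.strip.TypeA c.T1 := by
  intro h
  have hn := c.hn
  have h1 := h 2 le_rfl (show 2 + 2 ≤ c.n by omega)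
  rcases c.chain_nodes' true (fun k => c.n - 1 - k) (c.n - 1) _ h1 with h2 | h2
  · simp at h2
  · rw [Multiset.mem_range] at h2
    omega

theorem Cfg.sound : Sound c.T0.toTerm c.T1.toTerm := by
  have h0 := c.T0_is
  have h1 := c.T1_is
  refine sound_of_same (by rw [h0.labels]; exact Multiset.nodup_range _) (by rw [h0.labels, h1.labels]) ?_ ?_
  · intro i α β; rw [h0.expo, h1.expo]
  · intro i α i' α'; rw [h0.conn, h1.conn]

/-- The cardinality is at least six: parameters for every number of leaves. -/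
theorem exists_cfg [Finite N] (h6 : 6 ≤ Nat.card N) (n : ℕ) (hn : 5 ≤ n) : ∃ c : Cfg N, c.n = n := by
  have h : Nat.card N = (Nat.card N - 3) + 3 := by omega
  have e : N ≃ Fin ((Nat.card N - 3) + 3) := by
    have := Finite.equivFin N
    rw [h] at this
    exact this
  exact ⟨⟨Nat.card N - 3, n, by omega, hn, e⟩, rfl⟩

/-- The sound equations with at most `m` occurrences of variables on each side are not complete. -/
theorem not_complete_bounded [Finite N] (h6 : 6 ≤ Nat.card N) (m : ℕ) :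
    ∃ t u : Term N ℕ, Sound t u ∧
      ¬ Der {e : Term N ℕ × Term N ℕ | Sound e.1 e.2 ∧ e.1.occ ≤ m ∧ e.2.occ ≤ m} t u := by
  obtain ⟨c, hc⟩ := exists_cfg (N := N) h6 (m + 5) (by omega)
  refine ⟨c.T0.toTerm, c.T1.toTerm, c.sound, ?_⟩
  refine Strip.not_der (G := c.strip) ?_ c.T0_pp c.T1_is c.T1_not
  rintro e ⟨h1, h2, h3⟩
  refine ⟨h1, ?_, ?_⟩
  · show e.1.occ + 3 ≤ c.n
    omega
  · show e.2.occ + 3 ≤ c.n
    omega

theorem Der.mono {E E' : Set (Term N ℕ × Term N ℕ)} (h : E ⊆ E') {t u : Term N ℕ} (hd : Der E t u) :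
    Der E' t u := by
  induction hd with
  | ax h' σ => exact .ax (h h') σ
  | refl t => exact .refl t
  | symm _ ih => exact .symm ih
  | trans _ _ ih1 ih2 => exact .trans ih1 ih2
  | pre μ _ ih => exact .pre μ ih
  | choice _ _ ih1 ih2 => exact .choice ih1 ih2
  | par _ _ ih1 ih2 => exact .par ih1 ih2
  | lmerge _ _ ih1 ih2 => exact .lmerge ih1 ih2
  | cmerge _ _ ih1 ih2 => exact .cmerge ih1 ih2
  | restrict L _ ih => exact .restrict L ih
  | relabel f _ ih => exact .relabel f ih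

theorem infinite_of_complete [Finite N] (h6 : 6 ≤ Nat.card N) {E : Set (Term N ℕ × Term N ℕ)}
    (hE : SoundSet E) (hE' : CompleteSet E) : E.Infinite := by
  intro hfin
  obtain ⟨m, hm⟩ := (hfin.image (fun e => max e.1.occ e.2.occ)).bddAbove
  obtain ⟨t, u, h1, h2⟩ := not_complete_bounded (N := N) h6 m
  refine h2 ((hE' t u h1).mono ?_)
  intro e he
  have h3 := hm (Set.mem_image_of_mem (fun e : Term N ℕ × Term N ℕ => max e.1.occ e.2.occ) he)
  exact ⟨hE e he, by omega, by omega⟩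

end Pool.Agent.K3h39.CCS
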