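import Pool.Agent.K3h39.CCS.Match

/-!
Static trees of a long strip with a bounded number of names: the combinatorial part.
-/

namespace Pool.Agent.K3h39.CCS

variable {N J : Type}

/-- Contexts of static trees. -/
inductive TC (N J : Type) : Type
  | hole : TC N J
  | parL : TC N J → Tree N J → TC N J
  | parR : Tree N J → TC N J → TC N J
  | res : TC N J → Set N → TC N J
  | rel : TC N J → Relab N → TC N J

/-- Fill the hole. -/
def TC.fill : TC N J → Tree N J → Tree N J
  | .hole, S => S
  | .parL C t, S => .par (C.fill S) t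
  | .parR t C, S => .par t (C.fill S)
  | .res C L, S => .res (C.fill S) L
  | .rel C f, S => .rel (C.fill S) f

/-- Composition of contexts. -/
def TC.comp : TC N J → TC N J → TC N J
  | .hole, D => D
  | .parL C t, D => .parL (C.comp D) t
  | .parR t C, D => .parR t (C.comp D)
  | .res C L, D => .res (C.comp D) L
  | .rel C f, D => .rel (C.comp D) f

theorem TC.comp_fill (C D : TC N J) (S : Tree N J) : (C.comp D).fill S = C.fill (D.fill S) := by
  induction C with
  | hole => rfl
  | parL C t ih => simp [TC.comp, TC.fill, ih]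
  | parR t C ih => simp [TC.comp, TC.fill, ih]
  | res C L ih => simp [TC.comp, TC.fill, ih]
  | rel C f ih => simp [TC.comp, TC.fill, ih]

/-- Labels of a context. -/
def TC.labels : TC N J → Multiset J
  | .hole => 0
  | .parL C t => C.labels + t.labels
  | .parR t C => t.labels + C.labels
  | .res C _ => C.labels
  | .rel C _ => C.labels

theorem TC.labels_fill (C : TC N J) (S : Tree N J) : (C.fill S).labels = C.labels + S.labels := by
  induction C with
  | hole => simp [TC.fill, TC.labels]
  | parL C t ih => simp only [TC.fill, TC.labels, Tree.labels, ih]; abel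
  | parR t C ih => simp only [TC.fill, TC.labels, Tree.labels, ih]; abel
  | res C L ih => simpa [TC.fill, TC.labels, Tree.labels] using ih
  | rel C f ih => simpa [TC.fill, TC.labels, Tree.labels] using ih

theorem Tree.Expo.flip {S : Tree N J} {i : J} {α β : Label N} (h : S.Expo i α β) :
    S.Expo i (co α) (co β) := by
  induction S generalizing β with
  | leaf j => exact ⟨h.1, by rw [h.2]⟩
  | par s t ihs iht => exact h.imp ihs iht
  | res s L ih => exact ⟨ih h.1, h.2⟩
  | rel s f ih =>
    obtain ⟨β', h1, rfl⟩ := h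
    exact ⟨co β', ih h1, (f.label_co β').symm⟩

theorem TC.expo_transport (C : TC N J) {S : Tree N J} (hn : (C.fill S).labels.Nodup) {i : J}
    (hi : i ∈ S.labels) {α β0 : Label N} (h : (C.fill S).Expo i α β0) :
    ∃ β, S.Expo i α β ∧ ∀ i' α', S.Expo i' α' β → (C.fill S).Expo i' α' β0 := by
  induction C generalizing β0 with
  | hole => exact ⟨β0, h, fun _ _ h => h⟩
  | parL C t ih =>
    simp only [TC.fill, Tree.labels, Multiset.nodup_add] at hn
    rcases h with h | h
    · obtain ⟨β, h1, h2⟩ := ih hn.1 h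
      exact ⟨β, h1, fun i' α' h' => Or.inl (h2 i' α' h')⟩
    · exfalso
      refine Multiset.disjoint_left.1 hn.2.2 ?_ h.mem
      rw [TC.labels_fill]
      exact Multiset.mem_add.2 (Or.inr hi)
  | parR t C ih =>
    simp only [TC.fill, Tree.labels, Multiset.nodup_add] at hn
    rcases h with h | h
    · exfalso
      refine Multiset.disjoint_left.1 hn.2.2 h.mem ?_
      rw [TC.labels_fill]
      exact Multiset.mem_add.2 (Or.inr hi)
    · obtain ⟨β, h1, h2⟩ := ih hn.2.1 h
      exact ⟨β, h1, fun i' α' h' => Or.inr (h2 i' α' h')⟩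
  | res C L ih =>
    obtain ⟨β, h1, h2⟩ := ih hn h.1
    exact ⟨β, h1, fun i' α' h' => ⟨h2 i' α' h', h.2⟩⟩
  | rel C f ih =>
    obtain ⟨β', h1, rfl⟩ := h
    obtain ⟨β, h2, h3⟩ := ih hn h1
    exact ⟨β, h2, fun i' α' h' => ⟨β', h3 i' α' h', rfl⟩⟩

theorem TC.conn_transport (C : TC N J) {S : Tree N J} (hn : (C.fill S).labels.Nodup) {i k : J}
    (hi : i ∈ S.labels) (hk : k ∉ S.labels) {α α' : Label N} (h : (C.fill S).Conn i α k α') :
    ∃ β, S.Expo i α β ∧ ∀ i' α'', S.Expo i' α'' β → (C.fill S).Conn i' α'' k α' := by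
  induction C with
  | hole => exact absurd h.mem.2 hk
  | parL C t ih =>
    simp only [TC.fill, Tree.labels, Multiset.nodup_add] at hn
    have hit : i ∉ t.labels := by
      intro hit
      refine Multiset.disjoint_left.1 hn.2.2 ?_ hit
      rw [TC.labels_fill]
      exact Multiset.mem_add.2 (Or.inr hi)
    rcases h with h | h | ⟨β, h, h'⟩ | ⟨β, h, h'⟩
    · obtain ⟨β, h1, h2⟩ := ih hn.1 h
      exact ⟨β, h1, fun i' α' h' => Or.inl (h2 i' α' h')⟩
    · exact absurd h.mem.1 hit
    · obtain ⟨β', h1, h2⟩ := C.expo_transport hn.1 hi h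
      exact ⟨β', h1, fun i' α' h'' => Or.inr (Or.inr (Or.inl ⟨β, h2 i' α' h'', h'⟩))⟩
    · exact absurd h.mem hit
  | parR t C ih =>
    simp only [TC.fill, Tree.labels, Multiset.nodup_add] at hn
    have hit : i ∉ t.labels := by
      intro hit
      refine Multiset.disjoint_left.1 hn.2.2 hit ?_
      rw [TC.labels_fill]
      exact Multiset.mem_add.2 (Or.inr hi)
    rcases h with h | h | ⟨β, h, h'⟩ | ⟨β, h, h'⟩
    · exact absurd h.mem.1 hit
    · obtain ⟨β, h1, h2⟩ := ih hn.2.1 h
      exact ⟨β, h1, fun i' α' h' => Or.inr (Or.inl (h2 i' α' h'))⟩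
    · exact absurd h.mem hit
    · obtain ⟨β', h1, h2⟩ := C.expo_transport hn.2.1 hi h
      exact ⟨β', h1, fun i' α' h'' => Or.inr (Or.inr (Or.inr ⟨β, h2 i' α' h'', h'⟩))⟩
  | res C L ih => exact ih hn h
  | rel C f ih => exact ih hn h

theorem TC.conn_fill (C : TC N J) {S : Tree N J} {i i' : J} {α α' : Label N} (h : S.Conn i α i' α') :
    (C.fill S).Conn i α i' α' := by
  induction C with
  | hole => exact h
  | parL C t ih => exact Or.inl ih
  | parR t C ih => exact Or.inr (Or.inl ih)
  | res C L ih => exact ih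
  | rel C f ih => exact ih

/-- The label multisets of the subtrees. -/
def Tree.nodes : Tree N J → Set (Multiset J)
  | .leaf j => {{j}}
  | .par s t => {s.labels + t.labels} ∪ (s.nodes ∪ t.nodes)
  | .res s _ => s.nodes
  | .rel s _ => s.nodes

theorem Tree.labels_mem_nodes (S : Tree N J) : S.labels ∈ S.nodes := by
  induction S with
  | leaf j => exact rfl
  | par s t _ _ => exact Or.inl rfl
  | res s L ih => exact ih
  | rel s f ih => exact ih

theorem exists_ctx {T : Tree N J} {m : Multiset J} (h : m ∈ T.nodes) :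
    ∃ (C : TC N J) (S : Tree N J), T = C.fill S ∧ S.labels = m := by
  induction T with
  | leaf j => exact ⟨.hole, .leaf j, rfl, h.symm⟩
  | par s t ihs iht =>
    rcases h with h | h | h
    · exact ⟨.hole, .par s t, rfl, h.symm⟩
    · obtain ⟨C, S, rfl, h2⟩ := ihs h; exact ⟨.parL C t, S, rfl, h2⟩
    · obtain ⟨C, S, rfl, h2⟩ := iht h; exact ⟨.parR s C, S, rfl, h2⟩
  | res s L ih => obtain ⟨C, S, rfl, h2⟩ := ih h; exact ⟨.res C L, S, rfl, h2⟩
  | rel s f ih => obtain ⟨C, S, rfl, h2⟩ := ih h; exact ⟨.rel C f, S, rfl, h2⟩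

theorem TC.nodes_fill (C : TC N J) {S : Tree N J} {m : Multiset J} (h : m ∈ S.nodes) :
    m ∈ (C.fill S).nodes := by
  induction C with
  | hole => exact h
  | parL C t ih => exact Or.inr (Or.inl ih)
  | parR t C ih => exact Or.inr (Or.inr ih)
  | res C L ih => exact ih
  | rel C f ih => exact ih

theorem TC.nodes_fill_cases (C : TC N J) {S : Tree N J} {m : Multiset J} (h : m ∈ (C.fill S).nodes) :
    m ∈ S.nodes ∨ ∀ S' : Tree N J, S'.labels = S.labels → m ∈ (C.fill S').nodes := by
  induction C with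
  | hole => exact Or.inl h
  | parL C t ih =>
    rcases h with h | h | h
    · right
      intro S' hS'
      left
      rw [show m = _ from h, TC.labels_fill, TC.labels_fill, hS']
      exact rfl
    · rcases ih h with h | h
      · exact Or.inl h
      · exact Or.inr (fun S' hS' => Or.inr (Or.inl (h S' hS')))
    · exact Or.inr (fun S' hS' => Or.inr (Or.inr h))
  | parR t C ih =>
    rcases h with h | h | h
    · right
      intro S' hS'
      left
      rw [show m = _ from h, TC.labels_fill, TC.labels_fill, hS']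
      exact rfl
    · exact Or.inr (fun S' hS' => Or.inr (Or.inl h))
    · rcases ih h with h | h
      · exact Or.inl h
      · exact Or.inr (fun S' hS' => Or.inr (Or.inr (h S' hS')))
  | res C L ih => exact ih h
  | rel C f ih => exact ih h

/-- The parent of a subtree. -/
theorem TC.parent (C : TC N J) (S : Tree N J) : (C.fill S).labels = S.labels ∨
    ∃ (C' : TC N J) (a b : Tree N J), C.fill S = C'.fill (.par a b) ∧
      (a.labels = S.labels ∨ b.labels = S.labels) := by
  induction C with
  | hole => exact Or.inl rfl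
  | parL C t ih =>
    right
    rcases ih with h | ⟨C', a, b, h1, h2⟩
    · exact ⟨.hole, C.fill S, t, rfl, Or.inl h⟩
    · exact ⟨.parL C' t, a, b, by rw [TC.fill, TC.fill, h1], h2⟩
  | parR t C ih =>
    right
    rcases ih with h | ⟨C', a, b, h1, h2⟩
    · exact ⟨.hole, t, C.fill S, rfl, Or.inr h⟩
    · exact ⟨.parR t C', a, b, by rw [TC.fill, TC.fill, h1], h2⟩
  | res C L ih =>
    rcases ih with h | ⟨C', a, b, h1, h2⟩
    · exact Or.inl h
    · exact Or.inr ⟨.res C' L, a, b, by rw [TC.fill, TC.fill, h1], h2⟩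
  | rel C f ih =>
    rcases ih with h | ⟨C', a, b, h1, h2⟩
    · exact Or.inl h
    · exact Or.inr ⟨.rel C' f, a, b, by rw [TC.fill, TC.fill, h1], h2⟩

theorem Tree.children (S : Tree N J) (h : 2 ≤ Multiset.card S.labels) :
    ∃ (C : TC N J) (a b : Tree N J), S = C.fill (.par a b) ∧ a.labels + b.labels = S.labels := by
  induction S with
  | leaf j => simp [Tree.labels] at h
  | par s t _ _ => exact ⟨.hole, s, t, rfl, rfl⟩
  | res s L ih =>
    obtain ⟨C, a, b, h1, h2⟩ := ih h
    exact ⟨.res C L, a, b, by rw [TC.fill, ← h1], h2⟩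
  | rel s f ih =>
    obtain ⟨C, a, b, h1, h2⟩ := ih h
    exact ⟨.rel C f, a, b, by rw [TC.fill, ← h1], h2⟩

/-- The data of a strip: `n` leaves, the leaf `i` is incident to the vertices `i, ..., i + s`; the first two and
the last two vertices are visible from outside. -/
structure Strip (N : Type) where
  s : ℕ
  n : ℕ
  pt : N → ℕ
  ext : ℕ → Option N
  hs : 3 ≤ s
  hn : 5 ≤ n
  pt_inj : Function.Injective pt
  pt_surj : ∀ p ≤ s, ∃ a, pt a = p
  card : ∀ Z : Finset N, Z.card ≤ s + 3
  ext_inj : ∀ v v' a, ext v = some a → ext v' = some a → v = v'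
  ext0 : (ext 0).isSome
  ext1 : (ext 1).isSome
  ext2 : (ext (n + s - 2)).isSome
  ext3 : (ext (n + s - 1)).isSome

/-- Connections of the strip. -/
def Strip.CG (G : Strip N) (i : ℕ) (α : Label N) (i' : ℕ) (α' : Label N) : Prop :=
  i < G.n ∧ i' < G.n ∧ i ≠ i' ∧ G.pt α.1 ≤ G.s ∧ G.pt α'.1 ≤ G.s ∧ i + G.pt α.1 = i' + G.pt α'.1 ∧
    α'.2 = !α.2

/-- Visible ports of the strip. -/
def Strip.EG (G : Strip N) (i : ℕ) (α β : Label N) : Prop :=
  i < G.n ∧ G.pt α.1 ≤ G.s ∧ G.ext (i + G.pt α.1) = some β.1 ∧ β.2 = α.2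

/-- A tree with the data of the strip. -/
structure Strip.Is (G : Strip N) (T : Tree N ℕ) : Prop where
  labels : T.labels = Multiset.range G.n
  expo : ∀ i α β, T.Expo i α β ↔ G.EG i α β
  conn : ∀ i α i' α', T.Conn i α i' α' ↔ G.CG i α i' α'

/-- Boundary vertices of a set of leaves. -/
def Strip.Bd (G : Strip N) (U : Multiset ℕ) (v : ℕ) : Prop :=
  ∃ i ∈ U, i ≤ v ∧ v ≤ i + G.s ∧ ((∃ k < G.n, k ∉ U ∧ k ≤ v ∧ v ≤ k + G.s) ∨ (G.ext v).isSome)

/-- The capacity condition at a parallel node. -/
def Strip.Cut (G : Strip N) (U U' : Multiset ℕ) : Prop :=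
  ∀ Z : Finset ℕ, (∀ v ∈ Z, G.Bd U v ∨ G.Bd U' v) → Z.card ≤ G.s + 3

theorem Strip.Is.name {G : Strip N} {T : Tree N ℕ} (hT : G.Is T) {C : TC N ℕ} {S : Tree N ℕ}
    (hC : T = C.fill S) {v : ℕ} (hv : G.Bd S.labels v) :
    ∃ i α β, S.Expo i α β ∧ i + G.pt α.1 = v ∧ α.2 = true ∧
      ∀ i' α', S.Expo i' α' β → i' + G.pt α'.1 = v ∧ α'.2 = true := by
  obtain ⟨i, hi, h1, h2, h3⟩ := hv
  have hn : (C.fill S).labels.Nodup := by
    rw [← hC, hT.labels]; exact Multiset.nodup_range _
  have hin : i < G.n := by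
    have : i ∈ T.labels := by
      rw [hC, TC.labels_fill]; exact Multiset.mem_add.2 (Or.inr hi)
    rw [hT.labels] at this
    exact Multiset.mem_range.1 this
  obtain ⟨a, ha⟩ := G.pt_surj (v - i) (by omega)
  rcases h3 with ⟨k, hk, hkU, h4, h5⟩ | h3
  · obtain ⟨b, hb⟩ := G.pt_surj (v - k) (by omega)
    have hne : i ≠ k := by rintro rfl; exact hkU hi
    have hc : (C.fill S).Conn i (a, true) k (b, false) := by
      rw [← hC, hT.conn]
      exact ⟨hin, hk, hne, by simp only; omega, by simp only; omega, by simp only; omega, rfl⟩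
    obtain ⟨β, h6, h7⟩ := C.conn_transport hn hi hkU hc
    refine ⟨i, (a, true), β, h6, by simp only; omega, rfl, ?_⟩
    intro i' α' h8
    have h9 := h7 i' α' h8
    rw [← hC, hT.conn] at h9
    obtain ⟨_, _, _, _, _, h10, h11⟩ := h9
    simp only at h10 h11
    refine ⟨by omega, ?_⟩
    cases h12 : α'.2 with
    | true => rfl
    | false => rw [h12] at h11; cases h11
  · obtain ⟨c, hc⟩ := Option.isSome_iff_exists.1 h3
    have hv' : i + G.pt a = v := by omega
    have he : (C.fill S).Expo i (a, true) (c, true) := by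
      rw [← hC, hT.expo]
      exact ⟨hin, by simp only; omega, by simp only; rw [hv', hc], rfl⟩
    obtain ⟨β, h6, h7⟩ := C.expo_transport hn hi he
    refine ⟨i, (a, true), β, h6, hv', rfl, ?_⟩
    intro i' α' h8
    have h9 := h7 i' α' h8
    rw [← hC, hT.expo] at h9
    obtain ⟨_, _, h10, h11⟩ := h9
    exact ⟨G.ext_inj _ _ c h10 hc, h11.symm⟩

theorem label_cases {β β' : Label N} (h : β.1 = β'.1) : β' = β ∨ β' = co β := by
  obtain ⟨a, b⟩ := β
  obtain ⟨a', b'⟩ := β'
  simp only at h
  subst h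
  cases b <;> cases b' <;> simp [co]

theorem Strip.Is.cut {G : Strip N} {T : Tree N ℕ} (hT : G.Is T) {C : TC N ℕ} {s t : Tree N ℕ}
    (hC : T = C.fill (.par s t)) : G.Cut s.labels t.labels := by
  classical
  intro Z hZ
  have hCs : T = (C.comp (.parL .hole t)).fill s := by rw [TC.comp_fill, hC]; rfl
  have hCt : T = (C.comp (.parR s .hole)).fill t := by rw [TC.comp_fill, hC]; rfl
  have key : ∀ v ∈ Z, ∃ a : N,
      (∃ i α β, s.Expo i α β ∧ i + G.pt α.1 = v ∧ α.2 = true ∧ β.1 = a ∧
        ∀ i' α', s.Expo i' α' β → i' + G.pt α'.1 = v ∧ α'.2 = true) ∨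
      (∃ i α β, t.Expo i α β ∧ i + G.pt α.1 = v ∧ α.2 = true ∧ β.1 = a ∧
        ∀ i' α', t.Expo i' α' β → i' + G.pt α'.1 = v ∧ α'.2 = true) := by
    intro v hv
    rcases hZ v hv with h | h
    · obtain ⟨i, α, β, h1, h2, h3, h4⟩ := hT.name hCs h
      exact ⟨β.1, Or.inl ⟨i, α, β, h1, h2, h3, rfl, h4⟩⟩
    · obtain ⟨i, α, β, h1, h2, h3, h4⟩ := hT.name hCt h
      exact ⟨β.1, Or.inr ⟨i, α, β, h1, h2, h3, rfl, h4⟩⟩
  have same : ∀ (S : Tree N ℕ) (v v' : ℕ) (a : N),
      (∃ i α β, S.Expo i α β ∧ i + G.pt α.1 = v ∧ α.2 = true ∧ β.1 = a ∧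
        ∀ i' α', S.Expo i' α' β → i' + G.pt α'.1 = v ∧ α'.2 = true) →
      (∃ i α β, S.Expo i α β ∧ i + G.pt α.1 = v' ∧ α.2 = true ∧ β.1 = a ∧
        ∀ i' α', S.Expo i' α' β → i' + G.pt α'.1 = v' ∧ α'.2 = true) → v = v' := by
    rintro S v v' a ⟨i, α, β, h1, h2, h3, h4, h5⟩ ⟨i', α', β', h1', h2', h3', h4', h5'⟩
    rcases label_cases (h4.trans h4'.symm) with h | h
    · subst h
      exact (h5' i α h1).1 ▸ h2.symm
    · exfalso
      have h6 := h1'.flip
      rw [h, co_co] at h6
      have h7 := (h5 _ _ h6).2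
      simp only [co, h3'] at h7
      cases h7
  have cross : ∀ (v v' : ℕ) (a : N),
      (∃ i α β, s.Expo i α β ∧ i + G.pt α.1 = v ∧ α.2 = true ∧ β.1 = a ∧
        ∀ i' α', s.Expo i' α' β → i' + G.pt α'.1 = v ∧ α'.2 = true) →
      (∃ i α β, t.Expo i α β ∧ i + G.pt α.1 = v' ∧ α.2 = true ∧ β.1 = a ∧
        ∀ i' α', t.Expo i' α' β → i' + G.pt α'.1 = v' ∧ α'.2 = true) → v = v' := by
    rintro v v' a ⟨i, α, β, h1, h2, h3, h4, h5⟩ ⟨i', α', β', h1', h2', h3', h4', h5'⟩
    rcases label_cases (h4.trans h4'.symm) with h | h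
    · subst h
      have h6 : (Tree.par s t).Conn i α i' (co α') :=
        Or.inr (Or.inr (Or.inl ⟨β', h1, h1'.flip⟩))
      have h7 := C.conn_fill h6
      rw [← hC, hT.conn] at h7
      have h8 := h7.2.2.2.2.2.1
      rw [co_fst] at h8
      omega
    · exfalso
      subst h
      have h6 : (Tree.par s t).Conn i α i' α' := Or.inr (Or.inr (Or.inl ⟨β, h1, h1'⟩))
      have h7 := C.conn_fill h6
      rw [← hC, hT.conn] at h7
      have h8 := h7.2.2.2.2.2.2
      rw [h3, h3'] at h8
      cases h8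
  have hne : Nonempty N := ⟨(G.pt_surj 0 (Nat.zero_le _)).choose⟩
  choose! f hf using key
  have hinj : Set.InjOn f (Z : Set ℕ) := by
    intro v hv v' hv' hvv'
    have h1 := hf v hv
    have h2 := hf v' hv'
    rw [← hvv'] at h2
    rcases h1 with h1 | h1
    · rcases h2 with h2 | h2
      · exact same s v v' _ h1 h2
      · exact cross v v' _ h1 h2
    · rcases h2 with h2 | h2
      · exact (cross v' v _ h2 h1).symm
      · exact same t v v' _ h1 h2
  rw [← Finset.card_image_of_injOn hinj]
  exact G.card _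

theorem card_Z {i s x y : ℕ} (hi : 1 ≤ i) (hxy : x ≠ y) (hx : 2 ≤ x) (hy : 2 ≤ y)
    (hx' : x ≤ i ∨ i + s < x) (hy' : y ≤ i ∨ i + s < y) :
    (({0, 1} : Finset ℕ) ∪ (Finset.Icc (i + 1) (i + s) ∪ {x, y})).card = s + 4 := by
  rw [Finset.card_union_of_disjoint, Finset.card_union_of_disjoint, Nat.card_Icc, Finset.card_pair hxy,
    Finset.card_pair (by omega)]
  · omega
  · rw [Finset.disjoint_left]
    intro z hz hz'
    rw [Finset.mem_Icc] at hz
    simp only [Finset.mem_insert, Finset.mem_singleton] at hz'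
    omega
  · rw [Finset.disjoint_left]
    intro z hz hz'
    simp only [Finset.mem_insert, Finset.mem_singleton, Finset.mem_union, Finset.mem_Icc] at hz hz'
    omega

theorem Strip.up {G : Strip N} {i : ℕ} (hi : 2 ≤ i) (hin : i + 3 ≤ G.n) {U' : Multiset ℕ}
    (hcut : G.Cut (Multiset.range (i + 1)) U') (hU : Multiset.range (i + 1) + U' ≤ Multiset.range G.n)
    (hU0 : U' ≠ 0) : U' = {i + 1} := by
  classical
  have hs := G.hs
  have hnd : (Multiset.range (i + 1) + U').Nodup := Multiset.nodup_of_le hU (Multiset.nodup_range _)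
  rw [Multiset.nodup_add] at hnd
  obtain ⟨_, hnd', hdis⟩ := hnd
  have hmem : ∀ k ∈ U', i + 1 ≤ k ∧ k < G.n := by
    intro k hk
    constructor
    · by_contra hlt
      exact Multiset.disjoint_left.1 hdis (Multiset.mem_range.2 (by omega)) hk
    · exact Multiset.mem_range.1 (Multiset.mem_of_le hU (Multiset.mem_add.2 (Or.inr hk)))
  obtain ⟨j, hj, hjmax⟩ : ∃ j ∈ U', ∀ k ∈ U', k ≤ j := by
    have hne : U'.toFinset.Nonempty := by
      obtain ⟨x, hx⟩ := Multiset.exists_mem_of_ne_zero hU0
      exact ⟨x, Multiset.mem_toFinset.2 hx⟩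
    refine ⟨U'.toFinset.max' hne, Multiset.mem_toFinset.1 (Finset.max'_mem _ _), ?_⟩
    intro k hk
    exact Finset.le_max' _ _ (Multiset.mem_toFinset.2 hk)
  have hj2 : j = i + 1 := by
    by_contra hne
    have hj3 := hmem j hj
    have hZ := hcut (({0, 1} : Finset ℕ) ∪ (Finset.Icc (i + 1) (i + G.s) ∪ {j + G.s - 1, j + G.s})) ?_
    · rw [card_Z (by omega) (by omega) (by omega) (by omega) (by omega) (by omega)] at hZ
      omega
    · intro v hv
      simp only [Finset.mem_insert, Finset.mem_singleton, Finset.mem_union, Finset.mem_Icc] at hv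
      rcases hv with (rfl | rfl) | ⟨h1, h2⟩ | h3
      · left; exact ⟨0, Multiset.mem_range.2 (by omega), by omega, by omega, Or.inr G.ext0⟩
      · left; exact ⟨0, Multiset.mem_range.2 (by omega), by omega, by omega, Or.inr G.ext1⟩
      · left
        exact ⟨i, Multiset.mem_range.2 (by omega), by omega, by omega,
          Or.inl ⟨i + 1, by omega, by simp, by omega, by omega⟩⟩
      · right
        refine ⟨j, hj, by omega, by omega, ?_⟩
        rcases Nat.lt_or_ge (j + 1) G.n with h | h
        · left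
          refine ⟨j + 1, h, fun hk => ?_, by omega, by omega⟩
          have := hjmax _ hk
          omega
        · right
          rcases h3 with rfl | rfl
          · rw [show j + G.s - 1 = G.n + G.s - 2 by omega]; exact G.ext2
          · rw [show j + G.s = G.n + G.s - 1 by omega]; exact G.ext3
  have hall : ∀ k ∈ U', k = i + 1 := fun k hk => by
    have := hjmax k hk
    have := hmem k hk
    omega
  have hcard : Multiset.card U' = 1 := by
    have h1 : U' = Multiset.replicate (Multiset.card U') (i + 1) := Multiset.eq_replicate_card.2 hall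
    rw [h1] at hnd'
    have h2 := Multiset.nodup_iff_count_le_one.1 hnd' (i + 1)
    rw [Multiset.count_replicate_self] at h2
    have h3 : Multiset.card U' ≠ 0 := by rwa [Ne, Multiset.card_eq_zero]
    omega
  obtain ⟨a, rfl⟩ := Multiset.card_eq_one.1 hcard
  rw [hall a (Multiset.mem_singleton_self a)]

theorem Strip.down {G : Strip N} {i : ℕ} (hi : 3 ≤ i) (hin : i + 2 ≤ G.n) {U U' : Multiset ℕ}
    (hcut : G.Cut U U') (hU : U + U' = Multiset.range (i + 1)) (hU0 : U ≠ 0)
    (hU0' : U' ≠ 0) : U = Multiset.range i ∨ U' = Multiset.range i := by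
  classical
  have hs := G.hs
  have hnd : (U + U').Nodup := by rw [hU]; exact Multiset.nodup_range _
  rw [Multiset.nodup_add] at hnd
  obtain ⟨hnd1, hnd2, hdis⟩ := hnd
  have hmem : ∀ k, k ≤ i ↔ (k ∈ U ∨ k ∈ U') := by
    intro k
    rw [← Multiset.mem_add, hU, Multiset.mem_range]
    omega
  have hnot : ∀ k, ¬ (k ∈ U ∧ k ∈ U') := fun k ⟨h, h'⟩ => Multiset.disjoint_left.1 hdis h h'
  have hout : ∀ k, i < k → k ∉ U ∧ k ∉ U' := by
    intro k hk
    constructor <;> intro h
    · have := (hmem k).2 (Or.inl h); omega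
    · have := (hmem k).2 (Or.inr h); omega
  have hstep : ∀ k, k + 2 ≤ i → ¬ ((k ∈ U ∧ k + 1 ∈ U') ∨ (k ∈ U' ∧ k + 1 ∈ U)) := by
    intro k hk hch
    obtain ⟨x, y, hxy, hx, hy, hxi, hyi, hx1, hx2, hy1, hy2⟩ : ∃ x y, x ≠ y ∧ 2 ≤ x ∧ 2 ≤ y ∧ x ≤ i ∧ y ≤ i ∧
        k + 1 ≤ x ∧ x ≤ k + 3 ∧ k + 1 ≤ y ∧ y ≤ k + 3 := by
      rcases Nat.eq_zero_or_pos k with h | h
      · exact ⟨2, 3, by omega, by omega, by omega, by omega, by omega, by omega, by omega, by omega, by omega⟩
      · exact ⟨k + 1, k + 2, by omega, by omega, by omega, by omega, by omega, by omega, by omega, by omega,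
          by omega⟩
    have hZ := hcut (({0, 1} : Finset ℕ) ∪ (Finset.Icc (i + 1) (i + G.s) ∪ {x, y})) ?_
    · rw [card_Z (by omega) hxy hx hy (Or.inl hxi) (Or.inl hyi)] at hZ
      omega
    · intro v hv
      simp only [Finset.mem_insert, Finset.mem_singleton, Finset.mem_union, Finset.mem_Icc] at hv
      rcases hv with (rfl | rfl) | ⟨h1, h2⟩ | h3
      · rcases (hmem 0).1 (by omega) with h | h
        · exact Or.inl ⟨0, h, by omega, by omega, Or.inr G.ext0⟩
        · exact Or.inr ⟨0, h, by omega, by omega, Or.inr G.ext0⟩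
      · rcases (hmem 0).1 (by omega) with h | h
        · exact Or.inl ⟨0, h, by omega, by omega, Or.inr G.ext1⟩
        · exact Or.inr ⟨0, h, by omega, by omega, Or.inr G.ext1⟩
      · rcases (hmem i).1 le_rfl with h | h
        · exact Or.inl ⟨i, h, by omega, by omega,
            Or.inl ⟨i + 1, by omega, (hout _ (by omega)).1, by omega, by omega⟩⟩
        · exact Or.inr ⟨i, h, by omega, by omega,
            Or.inl ⟨i + 1, by omega, (hout _ (by omega)).2, by omega, by omega⟩⟩
      · have hv1 : k + 1 ≤ v ∧ v ≤ k + 3 := by rcases h3 with rfl | rfl <;> omega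
        rcases hch with ⟨h4, h5⟩ | ⟨h4, h5⟩
        · exact Or.inl ⟨k, h4, by omega, by omega,
            Or.inl ⟨k + 1, by omega, fun h => hnot _ ⟨h, h5⟩, by omega, by omega⟩⟩
        · exact Or.inr ⟨k, h4, by omega, by omega,
            Or.inl ⟨k + 1, by omega, fun h => hnot _ ⟨h5, h⟩, by omega, by omega⟩⟩
  have fin : ∀ V V' : Multiset ℕ, V + V' = Multiset.range (i + 1) → V' ≠ 0 →
      (∀ k, k + 2 ≤ i → k ∈ V → k + 1 ∈ V) → 0 ∈ V → V = Multiset.range i := by
    intro V V' hV hV' hs' h0
    have hVnd : (V + V').Nodup := by rw [hV]; exact Multiset.nodup_range _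
    rw [Multiset.nodup_add] at hVnd
    have hall : ∀ k, k < i → k ∈ V := by
      intro k
      induction k with
      | zero => intro _; exact h0
      | succ k ih => intro h; exact hs' k (by omega) (ih (by omega))
    have hV'mem : ∀ k ∈ V', k = i := by
      intro k hk
      have h1 : k < i + 1 := by
        have : k ∈ Multiset.range (i + 1) := by rw [← hV]; exact Multiset.mem_add.2 (Or.inr hk)
        exact Multiset.mem_range.1 this
      by_contra hne
      exact Multiset.disjoint_left.1 hVnd.2.2 (hall k (by omega)) hk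
    have hiV' : i ∈ V' := by
      obtain ⟨x, hx⟩ := Multiset.exists_mem_of_ne_zero hV'
      rwa [hV'mem x hx] at hx
    refine (Multiset.Nodup.ext hVnd.1 (Multiset.nodup_range _)).2 ?_
    intro k
    rw [Multiset.mem_range]
    constructor
    · intro hk
      have h1 : k < i + 1 := by
        have : k ∈ Multiset.range (i + 1) := by rw [← hV]; exact Multiset.mem_add.2 (Or.inl hk)
        exact Multiset.mem_range.1 this
      by_contra hne
      have : k = i := by omega
      subst this
      exact Multiset.disjoint_left.1 hVnd.2.2 hk hiV'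
    · exact hall k
  rcases (hmem 0).1 (by omega) with h | h
  · left
    refine fin U U' hU hU0' ?_ h
    intro k hk hkU
    rcases (hmem (k + 1)).1 (by omega) with h' | h'
    · exact h'
    · exact absurd (Or.inl ⟨hkU, h'⟩) (hstep k hk)
  · right
    refine fin U' U (by rw [add_comm]; exact hU) hU0 ?_ h
    intro k hk hkU
    rcases (hmem (k + 1)).1 (by omega) with h' | h'
    · exact absurd (Or.inr ⟨hkU, h'⟩) (hstep k hk)
    · exact h'

theorem Strip.Cut.symm {G : Strip N} {U U' : Multiset ℕ} (h : G.Cut U U') : G.Cut U' U :=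
  fun Z hZ => h Z (fun v hv => (hZ v hv).symm)

/-- All initial segments occur as subtrees. -/
def Strip.TypeA (G : Strip N) (T : Tree N ℕ) : Prop :=
  ∀ i, 2 ≤ i → i + 2 ≤ G.n → Multiset.range (i + 1) ∈ T.nodes

theorem Strip.Is.typeA {G : Strip N} {T : Tree N ℕ} (hT : G.Is T) {i0 : ℕ} (h2 : 2 ≤ i0)
    (hn : i0 + 2 ≤ G.n) (h : Multiset.range (i0 + 1) ∈ T.nodes) : G.TypeA T := by
  have hup : ∀ i, i0 ≤ i → i + 2 ≤ G.n → Multiset.range (i + 1) ∈ T.nodes := by
    intro i hi
    induction i, hi using Nat.le_induction with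
    | base => intro _; exact h
    | succ i hi ih =>
      intro hin
      obtain ⟨C, S, hC, hS⟩ := exists_ctx (ih (by omega))
      rcases C.parent S with h1 | ⟨C', a, b, h1, h2'⟩
      · exfalso
        rw [← hC, hT.labels, hS] at h1
        have := congrArg Multiset.card h1
        rw [Multiset.card_range, Multiset.card_range] at this
        omega
      · rw [← hC] at h1
        have hcut := hT.cut h1
        have hle : a.labels + b.labels ≤ Multiset.range G.n := by
          rw [← hT.labels, h1, TC.labels_fill]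
          exact Multiset.le_add_left _ _
        have hnode : a.labels + b.labels ∈ T.nodes := by
          rw [h1]
          exact C'.nodes_fill (Or.inl rfl)
        rcases h2' with h3 | h3
        · rw [h3, hS] at hcut hle hnode
          have := Strip.up (by omega) (by omega) hcut hle b.labels_ne_zero
          rw [this] at hnode
          rw [Multiset.range_succ, ← Multiset.singleton_add, add_comm]
          exact hnode
        · rw [h3, hS] at hcut hle hnode
          have := Strip.up (by omega) (by omega) hcut.symm (by rwa [add_comm]) a.labels_ne_zero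
          rw [this] at hnode
          rw [Multiset.range_succ, ← Multiset.singleton_add]
          exact hnode
  have hdown : ∀ k i, i + k = i0 → 2 ≤ i → Multiset.range (i + 1) ∈ T.nodes := by
    intro k
    induction k with
    | zero => intro i hi _; obtain rfl : i = i0 := by omega
              exact h
    | succ k ih =>
      intro i hi hi2
      obtain ⟨C, S, hC, hS⟩ := exists_ctx (ih (i + 1) (by omega) (by omega))
      obtain ⟨C', a, b, h1, h2'⟩ := S.children (by rw [hS, Multiset.card_range]; omega)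
      have hC2 : T = (C.comp C').fill (.par a b) := by rw [TC.comp_fill, ← h1, hC]
      have hcut := hT.cut hC2
      rcases Strip.down (i := i + 1) (by omega) (by omega) hcut (by rw [h2', hS]) a.labels_ne_zero
        b.labels_ne_zero with h3 | h3
      · rw [hC2, ← h3]
        exact (C.comp C').nodes_fill (Or.inr (Or.inl a.labels_mem_nodes))
      · rw [hC2, ← h3]
        exact (C.comp C').nodes_fill (Or.inr (Or.inr b.labels_mem_nodes))
  intro i hi hin
  rcases Nat.lt_or_ge i i0 with h' | h'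
  · exact hdown (i0 - i) i (by omega) hi
  · exact hup i h' hin

/-! ### Gluing -/

/-- Substitute trees for the leaves of a tree of trees. -/
def join : Tree N (Tree N J) → Tree N J
  | .leaf V => V
  | .par s t => .par (join s) (join t)
  | .res s L => .res (join s) L
  | .rel s f => .rel (join s) f

theorem join_labels (L : Tree N (Tree N J)) : (join L).labels = (L.labels.map Tree.labels).sum := by
  induction L with
  | leaf V => simp [join, Tree.labels]
  | par s t ihs iht => simp [join, Tree.labels, ihs, iht]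
  | res s L ih => simpa [join, Tree.labels] using ih
  | rel s f ih => simpa [join, Tree.labels] using ih

theorem join_expo (L : Tree N (Tree N J)) (i : J) (α β : Label N) :
    (join L).Expo i α β ↔ ∃ V β', V.Expo i α β' ∧ L.Expo V β' β := by
  induction L generalizing β with
  | leaf V =>
    constructor
    · intro h; exact ⟨V, β, h, rfl, rfl⟩
    · rintro ⟨V', β', h, rfl, rfl⟩; exact h
  | par s t ihs iht =>
    constructor
    · rintro (h | h)
      · obtain ⟨V, β', h1, h2⟩ := (ihs β).1 h; exact ⟨V, β', h1, Or.inl h2⟩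
      · obtain ⟨V, β', h1, h2⟩ := (iht β).1 h; exact ⟨V, β', h1, Or.inr h2⟩
    · rintro ⟨V, β', h1, h2 | h2⟩
      · exact Or.inl ((ihs β).2 ⟨V, β', h1, h2⟩)
      · exact Or.inr ((iht β).2 ⟨V, β', h1, h2⟩)
  | res s L ih =>
    constructor
    · rintro ⟨h, h'⟩
      obtain ⟨V, β', h1, h2⟩ := (ih β).1 h
      exact ⟨V, β', h1, h2, h'⟩
    · rintro ⟨V, β', h1, h2, h'⟩
      exact ⟨(ih β).2 ⟨V, β', h1, h2⟩, h'⟩
  | rel s f ih =>
    constructor
    · rintro ⟨β1, h, rfl⟩
      obtain ⟨V, β', h1, h2⟩ := (ih β1).1 h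
      exact ⟨V, β', h1, β1, h2, rfl⟩
    · rintro ⟨V, β', h1, β1, h2, rfl⟩
      exact ⟨β1, (ih β1).2 ⟨V, β', h1, h2⟩, rfl⟩

theorem join_conn (L : Tree N (Tree N J)) (i : J) (α : Label N) (i' : J) (α' : Label N) :
    (join L).Conn i α i' α' ↔ (∃ V ∈ L.labels, V.Conn i α i' α') ∨
      (∃ V1 β1 V2 β2, V1.Expo i α β1 ∧ V2.Expo i' α' β2 ∧ L.Conn V1 β1 V2 β2) := by
  induction L with
  | leaf V =>
    constructor
    · intro h; exact Or.inl ⟨V, Multiset.mem_singleton_self V, h⟩
    · rintro (⟨V', hV', h⟩ | ⟨V1, β1, V2, β2, _, _, h⟩)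
      · rwa [Multiset.mem_singleton.1 hV'] at h
      · exact h.elim
  | par s t ihs iht =>
    constructor
    · rintro (h | h | ⟨β, h, h'⟩ | ⟨β, h, h'⟩)
      · rcases ihs.1 h with ⟨V, hV, h⟩ | ⟨V1, β1, V2, β2, h1, h2, h3⟩
        · exact Or.inl ⟨V, Multiset.mem_add.2 (Or.inl hV), h⟩
        · exact Or.inr ⟨V1, β1, V2, β2, h1, h2, Or.inl h3⟩
      · rcases iht.1 h with ⟨V, hV, h⟩ | ⟨V1, β1, V2, β2, h1, h2, h3⟩
        · exact Or.inl ⟨V, Multiset.mem_add.2 (Or.inr hV), h⟩
        · exact Or.inr ⟨V1, β1, V2, β2, h1, h2, Or.inr (Or.inl h3)⟩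
      · obtain ⟨V1, β1, h1, h2⟩ := (join_expo _ _ _ _).1 h
        obtain ⟨V2, β2, h3, h4⟩ := (join_expo _ _ _ _).1 h'
        exact Or.inr ⟨V1, β1, V2, β2, h1, h3, Or.inr (Or.inr (Or.inl ⟨β, h2, h4⟩))⟩
      · obtain ⟨V1, β1, h1, h2⟩ := (join_expo _ _ _ _).1 h
        obtain ⟨V2, β2, h3, h4⟩ := (join_expo _ _ _ _).1 h'
        exact Or.inr ⟨V1, β1, V2, β2, h1, h3, Or.inr (Or.inr (Or.inr ⟨β, h2, h4⟩))⟩
    · rintro (⟨V, hV, h⟩ | ⟨V1, β1, V2, β2, h1, h2, h3⟩)
      · rcases Multiset.mem_add.1 hV with hV | hV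
        · exact Or.inl (ihs.2 (Or.inl ⟨V, hV, h⟩))
        · exact Or.inr (Or.inl (iht.2 (Or.inl ⟨V, hV, h⟩)))
      · rcases h3 with h3 | h3 | ⟨β, h3, h4⟩ | ⟨β, h3, h4⟩
        · exact Or.inl (ihs.2 (Or.inr ⟨V1, β1, V2, β2, h1, h2, h3⟩))
        · exact Or.inr (Or.inl (iht.2 (Or.inr ⟨V1, β1, V2, β2, h1, h2, h3⟩)))
        · exact Or.inr (Or.inr (Or.inl ⟨β, (join_expo _ _ _ _).2 ⟨V1, β1, h1, h3⟩,
            (join_expo _ _ _ _).2 ⟨V2, β2, h2, h4⟩⟩))
        · exact Or.inr (Or.inr (Or.inr ⟨β, (join_expo _ _ _ _).2 ⟨V1, β1, h1, h3⟩,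
            (join_expo _ _ _ _).2 ⟨V2, β2, h2, h4⟩⟩))
  | res s L ih => exact ih
  | rel s f ih => exact ih

theorem TC.expo_congr (C : TC N J) {S S' : Tree N J} (h : ∀ i α β, S.Expo i α β ↔ S'.Expo i α β) :
    ∀ i α β, (C.fill S).Expo i α β ↔ (C.fill S').Expo i α β := by
  induction C with
  | hole => exact h
  | parL C t ih => intro i α β; exact or_congr (ih i α β) Iff.rfl
  | parR t C ih => intro i α β; exact or_congr Iff.rfl (ih i α β)
  | res C L ih => intro i α β; exact and_congr (ih i α β) Iff.rfl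
  | rel C f ih => intro i α β; exact exists_congr (fun β' => and_congr (ih i α β') Iff.rfl)

theorem TC.conn_congr (C : TC N J) {S S' : Tree N J} (h : ∀ i α β, S.Expo i α β ↔ S'.Expo i α β)
    (h' : ∀ i α i' α', S.Conn i α i' α' ↔ S'.Conn i α i' α') :
    ∀ i α i' α', (C.fill S).Conn i α i' α' ↔ (C.fill S').Conn i α i' α' := by
  induction C with
  | hole => exact h'
  | parL C t ih =>
    intro i α i' α'
    have he := C.expo_congr h
    refine or_congr (ih i α i' α') (or_congr Iff.rfl (or_congr ?_ ?_))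
    · exact exists_congr (fun β => and_congr (he i α β) Iff.rfl)
    · exact exists_congr (fun β => and_congr Iff.rfl (he i' α' _))
  | parR t C ih =>
    intro i α i' α'
    have he := C.expo_congr h
    refine or_congr Iff.rfl (or_congr (ih i α i' α') (or_congr ?_ ?_))
    · exact exists_congr (fun β => and_congr Iff.rfl (he i' α' _))
    · exact exists_congr (fun β => and_congr (he i α β) Iff.rfl)
  | res C L ih => exact ih
  | rel C f ih => exact ih

/-- Label multisets of the parallel nodes of the glue. -/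
def gl : Tree N (Tree N J) → List (Multiset J)
  | .leaf _ => []
  | .par s t => ((join s).labels + (join t).labels) :: (gl s ++ gl t)
  | .res s _ => gl s
  | .rel s _ => gl s

theorem gl_length (L : Tree N (Tree N J)) : (gl L).length + 1 = Multiset.card L.labels := by
  induction L with
  | leaf V => simp [gl, Tree.labels]
  | par s t ihs iht => simp [gl, Tree.labels, ← ihs, ← iht]; omega
  | res s L ih => simpa [gl, Tree.labels] using ih
  | rel s f ih => simpa [gl, Tree.labels] using ih

theorem nodes_join {L : Tree N (Tree N J)} {m : Multiset J} (h : m ∈ (join L).nodes) :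
    (∃ V ∈ L.labels, m ∈ V.nodes) ∨ m ∈ gl L := by
  induction L with
  | leaf V => exact Or.inl ⟨V, Multiset.mem_singleton_self V, h⟩
  | par s t ihs iht =>
    rcases h with h | h | h
    · right
      exact List.mem_cons.2 (Or.inl h)
    · rcases ihs h with ⟨V, hV, h⟩ | h
      · exact Or.inl ⟨V, Multiset.mem_add.2 (Or.inl hV), h⟩
      · exact Or.inr (List.mem_cons_of_mem _ (List.mem_append_left _ h))
    · rcases iht h with ⟨V, hV, h⟩ | h
      · exact Or.inl ⟨V, Multiset.mem_add.2 (Or.inr hV), h⟩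
      · exact Or.inr (List.mem_cons_of_mem _ (List.mem_append_right _ h))
  | res s L ih => exact ih h
  | rel s f ih => exact ih h

theorem mem_nodes_join {L : Tree N (Tree N J)} {m : Multiset J} {V : Tree N J} (hV : V ∈ L.labels)
    (h : m ∈ V.nodes) : m ∈ (join L).nodes := by
  induction L with
  | leaf V' => rwa [← Multiset.mem_singleton.1 hV]
  | par s t ihs iht =>
    rcases Multiset.mem_add.1 hV with hV | hV
    · exact Or.inr (Or.inl (ihs hV))
    · exact Or.inr (Or.inr (iht hV))
  | res s L ih => exact ih hV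
  | rel s f ih => exact ih hV

/-- The invariant property of static trees. -/
def Strip.PP (G : Strip N) (T : Tree N ℕ) : Prop := G.Is T ∧ G.TypeA T

theorem Strip.glue (G : Strip N) {L R : Tree N (Tree N ℕ)} (hl : R.labels = L.labels)
    (he : ∀ i α β, L.Expo i α β ↔ R.Expo i α β)
    (hc : ∀ i α i' α', L.Conn i α i' α' ↔ R.Conn i α i' α')
    (hm : Multiset.card L.labels + 3 ≤ G.n) {C : TC N ℕ} (h : G.PP (C.fill (join L))) :
    G.PP (C.fill (join R)) := by
  classical
  obtain ⟨hT, hA⟩ := h
  have hlab : (join R).labels = (join L).labels := by rw [join_labels, join_labels, hl]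
  have hexp : ∀ i α β, (join L).Expo i α β ↔ (join R).Expo i α β := by
    intro i α β
    rw [join_expo, join_expo]
    simp only [he]
  have hcon : ∀ i α i' α', (join L).Conn i α i' α' ↔ (join R).Conn i α i' α' := by
    intro i α i' α'
    rw [join_conn, join_conn, hl]
    simp only [hc]
  have hT' : G.Is (C.fill (join R)) := by
    refine ⟨?_, ?_, ?_⟩
    · rw [TC.labels_fill, hlab, ← TC.labels_fill]; exact hT.labels
    · intro i α β
      rw [← C.expo_congr hexp]; exact hT.expo i α β
    · intro i α i' α'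
      rw [← C.conn_congr hexp hcon]; exact hT.conn i α i' α'
  refine ⟨hT', ?_⟩
  obtain ⟨i0, h1, h2, h3⟩ : ∃ i0, 2 ≤ i0 ∧ i0 + 2 ≤ G.n ∧ Multiset.range (i0 + 1) ∉ gl L := by
    by_contra hcon
    push Not at hcon
    have hn5 := G.hn
    have hsub : (Finset.Icc 2 (G.n - 2)).image (fun i => Multiset.range (i + 1)) ⊆ (gl L).toFinset := by
      intro m hm
      obtain ⟨i, hi, rfl⟩ := Finset.mem_image.1 hm
      rw [Finset.mem_Icc] at hi
      exact List.mem_toFinset.2 (hcon i hi.1 (by omega))
    have hinj : Function.Injective (fun i : ℕ => Multiset.range (i + 1)) := by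
      intro a b hab
      have := congrArg Multiset.card hab
      simpa using this
    have h1 := Finset.card_le_card hsub
    rw [Finset.card_image_of_injective _ hinj, Nat.card_Icc] at h1
    have h2 := List.toFinset_card_le (gl L)
    have h3 := gl_length L
    omega
  have h4 := hA i0 h1 h2
  refine hT'.typeA h1 h2 ?_
  rcases C.nodes_fill_cases h4 with h5 | h5
  · rcases nodes_join h5 with ⟨V, hV, h6⟩ | h6
    · exact C.nodes_fill (mem_nodes_join (by rw [hl]; exact hV) h6)
    · exact absurd h6 h3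
  · exact h5 _ hlab

end Pool.Agent.K3h39.CCS
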