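import Mathlib

/-!
Recursion-free CCS over a set `N` of names, with restriction, relabelling, parallel composition with
synchronisation, left merge and communication merge: terms, operational semantics of closed terms, strong
bisimilarity, sound equations, equational derivability.
-/

namespace Pool.Agent.K3h39.CCS

/-- Visible labels: `(a, true)` is the name `a`, `(a, false)` is the co-name of `a`. -/
abbrev Label (N : Type) := N × Bool

/-- Complementation of names and co-names. -/
def co {N : Type} (l : Label N) : Label N := (l.1, !l.2)

/-- Actions: the silent action and the visible labels. -/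
inductive Act (N : Type) : Type
  | tau : Act N
  | vis : Label N → Act N

/-- A relabelling function is given by the (arbitrary) label to which each name is sent. -/
abbrev Relab (N : Type) := N → Label N

/-- The unique extension of a relabelling function to all labels which commutes with complementation. -/
def Relab.label {N : Type} (f : Relab N) (l : Label N) : Label N :=
  if l.2 = true then f l.1 else co (f l.1)

/-- The extension of a relabelling function to all actions; it fixes the silent action. -/
def Relab.act {N : Type} (f : Relab N) : Act N → Act N
  | .tau => .tau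
  | .vis l => .vis (f.label l)

/-- CCS terms with variables in `V`. -/
inductive Term (N : Type) (V : Type) : Type
  | var : V → Term N V
  | nil : Term N V
  | pre : Act N → Term N V → Term N V
  | choice : Term N V → Term N V → Term N V
  | par : Term N V → Term N V → Term N V
  | lmerge : Term N V → Term N V → Term N V
  | cmerge : Term N V → Term N V → Term N V
  | restrict : Term N V → Set N → Term N V
  | relabel : Term N V → Relab N → Term N V

/-- Substitution of terms for variables. -/
def Term.subst {N V W : Type} (σ : V → Term N W) : Term N V → Term N W
  | .var x => σ x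
  | .nil => .nil
  | .pre μ t => .pre μ (t.subst σ)
  | .choice t u => .choice (t.subst σ) (u.subst σ)
  | .par t u => .par (t.subst σ) (u.subst σ)
  | .lmerge t u => .lmerge (t.subst σ) (u.subst σ)
  | .cmerge t u => .cmerge (t.subst σ) (u.subst σ)
  | .restrict t L => .restrict (t.subst σ) L
  | .relabel t f => .relabel (t.subst σ) f

/-- Closed terms. -/
abbrev Closed (N : Type) := Term N Empty

/-- Milner's structural operational semantics of closed terms. -/
inductive Step {N : Type} : Closed N → Act N → Closed N → Prop
  | pre (μ : Act N) (t : Closed N) : Step (.pre μ t) μ t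
  | choiceL {t u t' : Closed N} {μ : Act N} : Step t μ t' → Step (.choice t u) μ t'
  | choiceR {t u u' : Closed N} {μ : Act N} : Step u μ u' → Step (.choice t u) μ u'
  | parL {t u t' : Closed N} {μ : Act N} : Step t μ t' → Step (.par t u) μ (.par t' u)
  | parR {t u u' : Closed N} {μ : Act N} : Step u μ u' → Step (.par t u) μ (.par t u')
  | sync {t u t' u' : Closed N} {l : Label N} :
      Step t (.vis l) t' → Step u (.vis (co l)) u' → Step (.par t u) .tau (.par t' u')
  | lmerge {t u t' : Closed N} {μ : Act N} : Step t μ t' → Step (.lmerge t u) μ (.par t' u)
  | cmerge {t u t' u' : Closed N} {l : Label N} :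
      Step t (.vis l) t' → Step u (.vis (co l)) u' → Step (.cmerge t u) .tau (.par t' u')
  | restrict {t t' : Closed N} {μ : Act N} {L : Set N} :
      Step t μ t' → (∀ l, μ = .vis l → l.1 ∉ L) → Step (.restrict t L) μ (.restrict t' L)
  | relabel {t t' : Closed N} {μ : Act N} {f : Relab N} :
      Step t μ t' → Step (.relabel t f) (f.act μ) (.relabel t' f)

/-- Strong bisimulations on closed terms. -/
def IsBisimulation {N : Type} (R : Closed N → Closed N → Prop) : Prop :=
  ∀ p q, R p q →
    (∀ μ p', Step p μ p' → ∃ q', Step q μ q' ∧ R p' q') ∧
    (∀ μ q', Step q μ q' → ∃ p', Step p μ p' ∧ R p' q')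

/-- Strong bisimilarity of closed terms. -/
def Bisim {N : Type} (p q : Closed N) : Prop := ∃ R, IsBisimulation R ∧ R p q

/-- The equation `t ≈ u` between open terms (the variables are the natural numbers) is sound. -/
def Sound {N : Type} (t u : Term N ℕ) : Prop :=
  ∀ σ : ℕ → Closed N, Bisim (t.subst σ) (u.subst σ)

/-- Derivability of equations from a set `E` of equations by the rules of equational logic. -/
inductive Der {N : Type} (E : Set (Term N ℕ × Term N ℕ)) : Term N ℕ → Term N ℕ → Prop
  | ax {t u : Term N ℕ} (h : (t, u) ∈ E) (σ : ℕ → Term N ℕ) : Der E (t.subst σ) (u.subst σ)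
  | refl (t : Term N ℕ) : Der E t t
  | symm {t u : Term N ℕ} : Der E t u → Der E u t
  | trans {t u v : Term N ℕ} : Der E t u → Der E u v → Der E t v
  | pre {t u : Term N ℕ} (μ : Act N) : Der E t u → Der E (.pre μ t) (.pre μ u)
  | choice {t t' u u' : Term N ℕ} : Der E t t' → Der E u u' → Der E (.choice t u) (.choice t' u')
  | par {t t' u u' : Term N ℕ} : Der E t t' → Der E u u' → Der E (.par t u) (.par t' u')
  | lmerge {t t' u u' : Term N ℕ} : Der E t t' → Der E u u' → Der E (.lmerge t u) (.lmerge t' u')
  | cmerge {t t' u u' : Term N ℕ} : Der E t t' → Der E u u' → Der E (.cmerge t u) (.cmerge t' u')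
  | restrict {t u : Term N ℕ} (L : Set N) : Der E t u → Der E (.restrict t L) (.restrict u L)
  | relabel {t u : Term N ℕ} (f : Relab N) : Der E t u → Der E (.relabel t f) (.relabel u f)

/-- A set of equations is sound if all its members are. -/
def SoundSet {N : Type} (E : Set (Term N ℕ × Term N ℕ)) : Prop := ∀ e ∈ E, Sound e.1 e.2

/-- A set of equations is complete if every sound equation is derivable from it. -/
def CompleteSet {N : Type} (E : Set (Term N ℕ × Term N ℕ)) : Prop :=
  ∀ t u : Term N ℕ, Sound t u → Der E t u

/-- Number of occurrences of variables in a term. -/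
def Term.occ {N V : Type} : Term N V → ℕ
  | .var _ => 1
  | .nil => 0
  | .pre _ t => t.occ
  | .choice t u => t.occ + u.occ
  | .par t u => t.occ + u.occ
  | .lmerge t u => t.occ + u.occ
  | .cmerge t u => t.occ + u.occ
  | .restrict t _ => t.occ
  | .relabel t _ => t.occ

end Pool.Agent.K3h39.CCS
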