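import Pool.Agent.K3h39.CCS.Comb

/-!
Derivations from sound equations with few occurrences of variables preserve the invariant.
-/

namespace Pool.Agent.K3h39.CCS

variable {N V W J : Type}

/-- Substitution of trees in optional trees of trees. -/
def joinO : Option (Tree N (Tree N J)) → Option (Tree N J)
  | none => none
  | some L => some (join L)

theorem joinO_mk (o o' : Option (Tree N (Tree N J))) : joinO (mk o o') = mk (joinO o) (joinO o') := by
  cases o <;> cases o' <;> rfl

theorem run_none {γ : V → J → Prop} (t : Term N V) : RunO (gV γ) t none := by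
  induction t with
  | var x => exact ⟨none, trivial, rfl⟩
  | nil => rfl
  | pre μ t _ => rfl
  | choice t u _ _ => exact Or.inl rfl
  | par t u iht ihu => exact ⟨none, none, iht, ihu, rfl⟩
  | lmerge t u _ _ => exact Or.inl rfl
  | cmerge t u _ _ => rfl
  | restrict t L ih => exact ⟨none, ih, rfl⟩
  | relabel t f ih => exact ⟨none, ih, rfl⟩

theorem run_subst {γ : V → J → Prop} (σ : W → Term N V) {t : Term N W} : ∀ {o : Option (Tree N J)},
    RunO (gV γ) (t.subst σ) o →
    ∃ oL, RunO (gV (fun x V => RunO (gV γ) (σ x) (some V))) t oL ∧ o = joinO oL := by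
  induction t with
  | var x =>
    intro o h
    cases o with
    | none => exact ⟨none, ⟨none, trivial, rfl⟩, rfl⟩
    | some S => exact ⟨some (.leaf S), ⟨some S, h, rfl⟩, rfl⟩
  | nil => rintro o rfl; exact ⟨none, rfl, rfl⟩
  | pre μ t _ => rintro o rfl; exact ⟨none, rfl, rfl⟩
  | choice t u iht ihu =>
    rintro o (rfl | ⟨h0, h | h⟩)
    · exact ⟨none, Or.inl rfl, rfl⟩
    · obtain ⟨oL, h1, rfl⟩ := iht h
      refine ⟨oL, Or.inr ⟨?_, Or.inl h1⟩, rfl⟩
      rintro rfl; exact h0 rfl
    · obtain ⟨oL, h1, rfl⟩ := ihu h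
      refine ⟨oL, Or.inr ⟨?_, Or.inr h1⟩, rfl⟩
      rintro rfl; exact h0 rfl
  | par t u iht ihu =>
    rintro o ⟨o1, o2, h1, h2, rfl⟩
    obtain ⟨oL1, h3, rfl⟩ := iht h1
    obtain ⟨oL2, h4, rfl⟩ := ihu h2
    exact ⟨mk oL1 oL2, ⟨oL1, oL2, h3, h4, rfl⟩, (joinO_mk _ _).symm⟩
  | lmerge t u iht ihu =>
    rintro o (rfl | ⟨S, o2, h1, h2, rfl⟩)
    · exact ⟨none, Or.inl rfl, rfl⟩
    · obtain ⟨oL1, h3, h3'⟩ := iht h1
      obtain ⟨oL2, h4, rfl⟩ := ihu h2
      cases oL1 with
      | none => cases h3'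
      | some L1 => exact ⟨mk (some L1) oL2, Or.inr ⟨L1, oL2, h3, h4, rfl⟩, by rw [joinO_mk, h3']⟩
  | cmerge t u _ _ => rintro o rfl; exact ⟨none, rfl, rfl⟩
  | restrict t L ih =>
    rintro o ⟨o1, h1, rfl⟩
    obtain ⟨oL, h3, rfl⟩ := ih h1
    exact ⟨_, ⟨oL, h3, rfl⟩, by cases oL <;> rfl⟩
  | relabel t f ih =>
    rintro o ⟨o1, h1, rfl⟩
    obtain ⟨oL, h3, rfl⟩ := ih h1
    exact ⟨_, ⟨oL, h3, rfl⟩, by cases oL <;> rfl⟩

theorem run_join {γ : V → J → Prop} (σ : W → Term N V) {t : Term N W} :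
    ∀ {oL : Option (Tree N (Tree N J))},
    RunO (gV (fun x V => RunO (gV γ) (σ x) (some V))) t oL → RunO (gV γ) (t.subst σ) (joinO oL) := by
  induction t with
  | var x =>
    rintro oL ⟨oj, h1, rfl⟩
    cases oj with
    | none => exact run_none _
    | some V => exact h1
  | nil => rintro o rfl; rfl
  | pre μ t _ => rintro o rfl; rfl
  | choice t u iht ihu =>
    rintro o (rfl | ⟨h0, h | h⟩)
    · exact Or.inl rfl
    · refine Or.inr ⟨?_, Or.inl (iht h)⟩
      cases o with
      | none => exact absurd rfl h0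
      | some S => simp [joinO]
    · refine Or.inr ⟨?_, Or.inr (ihu h)⟩
      cases o with
      | none => exact absurd rfl h0
      | some S => simp [joinO]
  | par t u iht ihu =>
    rintro o ⟨o1, o2, h1, h2, rfl⟩
    exact ⟨_, _, iht h1, ihu h2, joinO_mk _ _⟩
  | lmerge t u iht ihu =>
    rintro o (rfl | ⟨S, o2, h1, h2, rfl⟩)
    · exact Or.inl rfl
    · exact Or.inr ⟨join S, _, iht h1, ihu h2, joinO_mk _ _⟩
  | cmerge t u _ _ => rintro o rfl; rfl
  | restrict t L ih =>
    rintro o ⟨o1, h1, rfl⟩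
    exact ⟨_, ih h1, by cases o1 <;> rfl⟩
  | relabel t f ih =>
    rintro o ⟨o1, h1, rfl⟩
    exact ⟨_, ih h1, by cases o1 <;> rfl⟩

theorem run_card {g : W → Option J → Prop} {t : Term N W} : ∀ {o : Option (Tree N J)}, RunO g t o →
    Multiset.card (labelsO o) ≤ t.occ := by
  induction t with
  | var x =>
    rintro o ⟨oj, h1, rfl⟩
    cases oj <;> simp [labelsO, Tree.labels, Term.occ]
  | nil => rintro o rfl; simp [labelsO]
  | pre μ t _ => rintro o rfl; simp [labelsO]
  | choice t u iht ihu =>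
    rintro o (rfl | ⟨h0, h | h⟩)
    · simp [labelsO]
    · have := iht h; simp only [Term.occ]; omega
    · have := ihu h; simp only [Term.occ]; omega
  | par t u iht ihu =>
    rintro o ⟨o1, o2, h1, h2, rfl⟩
    have := iht h1
    have := ihu h2
    rw [labelsO_mk, Multiset.card_add]
    simp only [Term.occ]
    omega
  | lmerge t u iht ihu =>
    rintro o (rfl | ⟨S, o2, h1, h2, rfl⟩)
    · simp [labelsO]
    · have := iht h1
      have := ihu h2
      rw [labelsO_mk, Multiset.card_add]
      simp only [Term.occ]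
      omega
  | cmerge t u _ _ => rintro o rfl; simp [labelsO]
  | restrict t L ih =>
    rintro o ⟨o1, h1, rfl⟩
    rw [labelsO_map_res]
    exact ih h1
  | relabel t f ih =>
    rintro o ⟨o1, h1, rfl⟩
    rw [labelsO_map_rel]
    exact ih h1

theorem join_mem {L : Tree N (Tree N J)} {V : Tree N J} (hV : V ∈ L.labels) {j : J} (hj : j ∈ V.labels) :
    j ∈ (join L).labels := by
  induction L with
  | leaf V' => rwa [← Multiset.mem_singleton.1 hV]
  | par s t ihs iht =>
    rcases Multiset.mem_add.1 hV with hV | hV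
    · exact Multiset.mem_add.2 (Or.inl (ihs hV))
    · exact Multiset.mem_add.2 (Or.inr (iht hV))
  | res s L ih => exact ih hV
  | rel s f ih => exact ih hV

theorem nodup_of_join {L : Tree N (Tree N J)} (h : (join L).labels.Nodup) : L.labels.Nodup := by
  induction L with
  | leaf V => exact Multiset.nodup_singleton V
  | par s t ihs iht =>
    simp only [join, Tree.labels, Multiset.nodup_add] at h ⊢
    refine ⟨ihs h.1, iht h.2.1, ?_⟩
    rw [Multiset.disjoint_left]
    intro V hV hV'
    obtain ⟨j, hj⟩ := Multiset.exists_mem_of_ne_zero V.labels_ne_zero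
    exact Multiset.disjoint_left.1 h.2.2 (join_mem hV hj) (join_mem hV' hj)
  | res s L ih => exact ih h
  | rel s f ih => exact ih h

/-- The runs in which every touched variable keeps its name. -/
def Run (t : Term N ℕ) (S : Tree N ℕ) : Prop := RunO (gV (fun x j => j = x)) t (some S)

/-- Replacing `S` by `S'` preserves the invariant in every context. -/
def Strip.Inv (G : Strip N) (S S' : Tree N ℕ) : Prop := ∀ C : TC N ℕ, G.PP (C.fill S) → G.PP (C.fill S')

/-- Every run of `t` is matched by a run of `u`. -/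
def Strip.Rel (G : Strip N) (t u : Term N ℕ) : Prop :=
  ∀ S, Run t S → S.labels.Nodup → ∃ S', Run u S' ∧ S'.labels = S.labels ∧ G.Inv S S'

theorem Strip.inv_par {G : Strip N} {S1 S2 S1' S2' : Tree N ℕ} (h1 : G.Inv S1 S1') (h2 : G.Inv S2 S2') :
    G.Inv (.par S1 S2) (.par S1' S2') := by
  intro C hC
  have h3 := h1 (C.comp (.parL .hole S2)) (by rw [TC.comp_fill]; exact hC)
  rw [TC.comp_fill] at h3
  have h4 := h2 (C.comp (.parR S1' .hole)) (by rw [TC.comp_fill]; exact h3)
  rw [TC.comp_fill] at h4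
  exact h4

theorem Strip.rel_ax [Finite N] {G : Strip N} {l r : Term N ℕ} (h : Sound l r) (hm : l.occ + 3 ≤ G.n)
    (σ : ℕ → Term N ℕ) : G.Rel (l.subst σ) (r.subst σ) := by
  intro S hS hnd
  obtain ⟨oL, h1, h2⟩ := run_subst σ hS
  cases oL with
  | none => cases h2
  | some L =>
    obtain rfl : S = join L := Option.some.inj h2
    obtain ⟨R, h3, h4, h5, h6⟩ := match_run h _ h1 (nodup_of_join hnd)
    refine ⟨join R, run_join σ h3, by rw [join_labels, join_labels, h4], ?_⟩
    intro C hC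
    refine G.glue h4 h5 h6 ?_ hC
    have : Multiset.card L.labels ≤ l.occ := run_card h1
    omega

theorem Strip.rel_refl (G : Strip N) (t : Term N ℕ) : G.Rel t t :=
  fun S hS _ => ⟨S, hS, rfl, fun _ h => h⟩

theorem Strip.Rel.trans {G : Strip N} {t u v : Term N ℕ} (h : G.Rel t u) (h' : G.Rel u v) : G.Rel t v := by
  intro S hS hn
  obtain ⟨S', h1, h2, h3⟩ := h S hS hn
  obtain ⟨S'', h4, h5, h6⟩ := h' S' h1 (by rw [h2]; exact hn)
  exact ⟨S'', h4, h5.trans h2, fun C hC => h6 C (h3 C hC)⟩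

theorem Strip.Rel.choice {G : Strip N} {t t' u u' : Term N ℕ} (h : G.Rel t t') (h' : G.Rel u u') :
    G.Rel (.choice t u) (.choice t' u') := by
  rintro S (hS | ⟨_, hS | hS⟩) hn
  · cases hS
  · obtain ⟨S', h1, h2⟩ := h S hS hn
    exact ⟨S', Or.inr ⟨by simp, Or.inl h1⟩, h2⟩
  · obtain ⟨S', h1, h2⟩ := h' S hS hn
    exact ⟨S', Or.inr ⟨by simp, Or.inr h1⟩, h2⟩

theorem Strip.Rel.par {G : Strip N} {t t' u u' : Term N ℕ} (h : G.Rel t t') (h' : G.Rel u u') :
    G.Rel (.par t u) (.par t' u') := by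
  rintro S ⟨o1, o2, h1, h2, h3⟩ hn
  cases o1 with
  | none =>
    cases o2 with
    | none => cases h3
    | some S2 =>
      obtain rfl : S = S2 := Option.some.inj h3
      obtain ⟨S', h4, h5, h6⟩ := h' S h2 hn
      exact ⟨S', ⟨none, some S', run_none _, h4, rfl⟩, h5, h6⟩
  | some S1 =>
    cases o2 with
    | none =>
      obtain rfl : S = S1 := Option.some.inj h3
      obtain ⟨S', h4, h5, h6⟩ := h S h1 hn
      exact ⟨S', ⟨some S', none, h4, run_none _, rfl⟩, h5, h6⟩
    | some S2 =>
      obtain rfl : S = .par S1 S2 := Option.some.inj h3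
      simp only [Tree.labels, Multiset.nodup_add] at hn
      obtain ⟨S1', h4, h5, h6⟩ := h S1 h1 hn.1
      obtain ⟨S2', h7, h8, h9⟩ := h' S2 h2 hn.2.1
      exact ⟨.par S1' S2', ⟨some S1', some S2', h4, h7, rfl⟩, by simp only [Tree.labels]; rw [h5, h8],
        Strip.inv_par h6 h9⟩

theorem Strip.Rel.lmerge {G : Strip N} {t t' u u' : Term N ℕ} (h : G.Rel t t') (h' : G.Rel u u') :
    G.Rel (.lmerge t u) (.lmerge t' u') := by
  rintro S (hS | ⟨S1, o2, h1, h2, h3⟩) hn
  · cases hS
  · cases o2 with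
    | none =>
      obtain rfl : S = S1 := Option.some.inj h3
      obtain ⟨S', h4, h5, h6⟩ := h S h1 hn
      exact ⟨S', Or.inr ⟨S', none, h4, run_none _, rfl⟩, h5, h6⟩
    | some S2 =>
      obtain rfl : S = .par S1 S2 := Option.some.inj h3
      simp only [Tree.labels, Multiset.nodup_add] at hn
      obtain ⟨S1', h4, h5, h6⟩ := h S1 h1 hn.1
      obtain ⟨S2', h7, h8, h9⟩ := h' S2 h2 hn.2.1
      exact ⟨.par S1' S2', Or.inr ⟨S1', some S2', h4, h7, rfl⟩, by simp only [Tree.labels]; rw [h5, h8],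
        Strip.inv_par h6 h9⟩

theorem Strip.Rel.restrict {G : Strip N} {t u : Term N ℕ} (L : Set N) (h : G.Rel t u) :
    G.Rel (.restrict t L) (.restrict u L) := by
  rintro S ⟨o1, h1, h2⟩ hn
  cases o1 with
  | none => cases h2
  | some S1 =>
    obtain rfl : S = .res S1 L := Option.some.inj h2
    obtain ⟨S', h4, h5, h6⟩ := h S1 h1 hn
    refine ⟨.res S' L, ⟨some S', h4, rfl⟩, h5, ?_⟩
    intro C hC
    have h3 := h6 (C.comp (.res .hole L)) (by rw [TC.comp_fill]; exact hC)
    rw [TC.comp_fill] at h3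
    exact h3

theorem Strip.Rel.relabel {G : Strip N} {t u : Term N ℕ} (f : Relab N) (h : G.Rel t u) :
    G.Rel (.relabel t f) (.relabel u f) := by
  rintro S ⟨o1, h1, h2⟩ hn
  cases o1 with
  | none => cases h2
  | some S1 =>
    obtain rfl : S = .rel S1 f := Option.some.inj h2
    obtain ⟨S', h4, h5, h6⟩ := h S1 h1 hn
    refine ⟨.rel S' f, ⟨some S', h4, rfl⟩, h5, ?_⟩
    intro C hC
    have h3 := h6 (C.comp (.rel .hole f)) (by rw [TC.comp_fill]; exact hC)
    rw [TC.comp_fill] at h3
    exact h3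

theorem Bisim.symm' {p q : Closed N} (h : Bisim p q) : Bisim q p := h.symm

theorem Sound.symm {t u : Term N ℕ} (h : Sound t u) : Sound u t := fun σ => (h σ).symm

theorem Strip.der_rel [Finite N] {G : Strip N} {E : Set (Term N ℕ × Term N ℕ)}
    (hE : ∀ e ∈ E, Sound e.1 e.2 ∧ e.1.occ + 3 ≤ G.n ∧ e.2.occ + 3 ≤ G.n) {t u : Term N ℕ}
    (h : Der E t u) : G.Rel t u ∧ G.Rel u t := by
  induction h with
  | ax h σ =>
    obtain ⟨h1, h2, h3⟩ := hE _ h
    exact ⟨Strip.rel_ax h1 h2 σ, Strip.rel_ax h1.symm h3 σ⟩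
  | refl t => exact ⟨G.rel_refl t, G.rel_refl t⟩
  | symm _ ih => exact ⟨ih.2, ih.1⟩
  | trans _ _ ih1 ih2 => exact ⟨ih1.1.trans ih2.1, ih2.2.trans ih1.2⟩
  | pre μ _ ih =>
    constructor <;> · intro S hS; cases hS
  | choice _ _ ih1 ih2 => exact ⟨ih1.1.choice ih2.1, ih1.2.choice ih2.2⟩
  | par _ _ ih1 ih2 => exact ⟨ih1.1.par ih2.1, ih1.2.par ih2.2⟩
  | lmerge _ _ ih1 ih2 => exact ⟨ih1.1.lmerge ih2.1, ih1.2.lmerge ih2.2⟩
  | cmerge _ _ ih1 ih2 =>
    constructor <;> · intro S hS; cases hS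
  | restrict L _ ih => exact ⟨ih.1.restrict L, ih.2.restrict L⟩
  | relabel f _ ih => exact ⟨ih.1.relabel f, ih.2.relabel f⟩

/-! ### Static terms -/

/-- The term of a static tree. -/
def Tree.toTerm : Tree N V → Term N V
  | .leaf x => .var x
  | .par s t => .par s.toTerm t.toTerm
  | .res s L => .restrict s.toTerm L
  | .rel s f => .relabel s.toTerm f

theorem run_toTerm (T : Tree N ℕ) : Run T.toTerm T := by
  induction T with
  | leaf x => exact ⟨some x, rfl, rfl⟩
  | par s t ihs iht => exact ⟨some s, some t, ihs, iht, rfl⟩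
  | res s L ih => exact ⟨some s, ih, rfl⟩
  | rel s f ih => exact ⟨some s, ih, rfl⟩

theorem runO_toTerm_le (T : Tree N ℕ) : ∀ {o : Option (Tree N ℕ)},
    RunO (gV (fun x j => j = x)) T.toTerm o → labelsO o ≤ T.labels := by
  induction T with
  | leaf x =>
    rintro o ⟨oj, h1, rfl⟩
    cases oj with
    | none => exact Multiset.zero_le _
    | some j => obtain rfl : j = x := h1; exact le_rfl
  | par s t ihs iht =>
    rintro o ⟨o1, o2, h1, h2, rfl⟩
    rw [labelsO_mk]
    exact add_le_add (ihs h1) (iht h2)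
  | res s L ih =>
    rintro o ⟨o1, h1, rfl⟩
    rw [labelsO_map_res]
    exact ih h1
  | rel s f ih =>
    rintro o ⟨o1, h1, rfl⟩
    rw [labelsO_map_rel]
    exact ih h1

theorem run_toTerm_eq (T : Tree N ℕ) : ∀ {S : Tree N ℕ}, Run T.toTerm S → S.labels = T.labels → S = T := by
  induction T with
  | leaf x =>
    rintro S ⟨oj, h1, h2⟩ _
    cases oj with
    | none => cases h2
    | some j =>
      obtain rfl : j = x := h1
      exact Option.some.inj h2
  | par s t ihs iht =>
    rintro S ⟨o1, o2, h1, h2, h3⟩ hl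
    have h4 := runO_toTerm_le s h1
    have h5 := runO_toTerm_le t h2
    have h6 : labelsO o1 + labelsO o2 = s.labels + t.labels := by
      rw [← labelsO_mk, ← h3]; exact hl
    have hc := congrArg Multiset.card h6
    rw [Multiset.card_add, Multiset.card_add] at hc
    have h7 := Multiset.card_le_card h4
    have h8 := Multiset.card_le_card h5
    have h9 : labelsO o1 = s.labels := Multiset.eq_of_le_of_card_le h4 (by omega)
    have h10 : labelsO o2 = t.labels := Multiset.eq_of_le_of_card_le h5 (by omega)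
    cases o1 with
    | none => exact absurd h9.symm s.labels_ne_zero
    | some S1 =>
      cases o2 with
      | none => exact absurd h10.symm t.labels_ne_zero
      | some S2 =>
        obtain rfl : S = .par S1 S2 := Option.some.inj h3
        rw [ihs h1 h9, iht h2 h10]
  | res s L ih =>
    rintro S ⟨o1, h1, h2⟩ hl
    cases o1 with
    | none => cases h2
    | some S1 =>
      obtain rfl : S = .res S1 L := Option.some.inj h2
      rw [ih h1 hl]
  | rel s f ih =>
    rintro S ⟨o1, h1, h2⟩ hl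
    cases o1 with
    | none => cases h2
    | some S1 =>
      obtain rfl : S = .rel S1 f := Option.some.inj h2
      rw [ih h1 hl]

theorem Strip.not_der [Finite N] {G : Strip N} {E : Set (Term N ℕ × Term N ℕ)}
    (hE : ∀ e ∈ E, Sound e.1 e.2 ∧ e.1.occ + 3 ≤ G.n ∧ e.2.occ + 3 ≤ G.n) {T0 T1 : Tree N ℕ}
    (h0 : G.PP T0) (h1 : G.Is T1) (h1' : ¬ G.TypeA T1) : ¬ Der E T0.toTerm T1.toTerm := by
  intro h
  obtain ⟨S', h2, h3, h4⟩ := (Strip.der_rel hE h).1 T0 (run_toTerm T0)
    (by rw [h0.1.labels]; exact Multiset.nodup_range _)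
  have h5 : S' = T1 := run_toTerm_eq T1 h2 (by rw [h3, h0.1.labels, h1.labels])
  subst h5
  exact h1' (h4 .hole h0).2

/-! ### Trees with the same data denote bisimilar terms -/

/-- Closed instance of a static tree. -/
def Tree.inst (T : Tree N J) (P : J → Closed N) : Closed N := T.toTerm.subst P

open Classical in
theorem inst_update_of_not_mem {T : Tree N J} {P : J → Closed N} {i : J} {q : Closed N}
    (h : i ∉ T.labels) : T.inst (Function.update P i q) = T.inst P := by
  induction T with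
  | leaf j =>
    have : j ≠ i := by rintro rfl; exact h (Multiset.mem_singleton_self _)
    simp [Tree.inst, Tree.toTerm, Term.subst, Function.update_of_ne this]
  | par s t ihs iht =>
    simp only [Tree.labels, Multiset.mem_add, not_or] at h
    have h1 := ihs h.1
    have h2 := iht h.2
    simp only [Tree.inst, Tree.toTerm, Term.subst] at h1 h2 ⊢
    rw [h1, h2]
  | res s L ih =>
    have h1 := ih h
    simp only [Tree.inst, Tree.toTerm, Term.subst] at h1 ⊢
    rw [h1]
  | rel s f ih =>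
    have h1 := ih h
    simp only [Tree.inst, Tree.toTerm, Term.subst] at h1 ⊢
    rw [h1]

open Classical in
/-- Transitions of a closed instance of a static tree, in terms of the data. -/
def Tr (lab : J → Prop) (E : J → Label N → Label N → Prop) (K : J → Label N → J → Label N → Prop)
    (P : J → Closed N) (μ : Act N) (P' : J → Closed N) : Prop :=
  (∃ i q, lab i ∧ μ = .tau ∧ Step (P i) .tau q ∧ P' = Function.update P i q) ∨
  (∃ i q α β, E i α β ∧ μ = .vis β ∧ Step (P i) (.vis α) q ∧ P' = Function.update P i q) ∨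
  (∃ i q α i' q' α', i ≠ i' ∧ K i α i' α' ∧ μ = .tau ∧ Step (P i) (.vis α) q ∧ Step (P i') (.vis α') q' ∧
    P' = Function.update (Function.update P i q) i' q')

theorem inst_par (s t : Tree N J) (P : J → Closed N) :
    (Tree.par s t).inst P = .par (s.inst P) (t.inst P) := rfl

theorem inst_res (s : Tree N J) (L : Set N) (P : J → Closed N) :
    (Tree.res s L).inst P = .restrict (s.inst P) L := rfl

theorem inst_rel (s : Tree N J) (f : Relab N) (P : J → Closed N) :
    (Tree.rel s f).inst P = .relabel (s.inst P) f := rfl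

open Classical in
theorem step_inst {T : Tree N J} (hn : T.labels.Nodup) {P : J → Closed N} {μ : Act N} {q : Closed N}
    (h : Step (T.inst P) μ q) : ∃ P', Tr (· ∈ T.labels) T.Expo T.Conn P μ P' ∧ q = T.inst P' := by
  induction T generalizing μ q with
  | leaf j =>
    cases μ with
    | tau =>
      refine ⟨Function.update P j q, Or.inl ⟨j, q, Multiset.mem_singleton_self j, rfl, h, rfl⟩, ?_⟩
      simp [Tree.inst, Tree.toTerm, Term.subst]
    | vis α =>
      refine ⟨Function.update P j q, Or.inr (Or.inl ⟨j, q, α, α, ⟨rfl, rfl⟩, rfl, h, rfl⟩), ?_⟩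
      simp [Tree.inst, Tree.toTerm, Term.subst]
  | par s t ihs iht =>
    simp only [Tree.labels, Multiset.nodup_add] at hn
    obtain ⟨hn1, hn2, hdis⟩ := hn
    have hst : ∀ i, i ∈ s.labels → i ∉ t.labels := fun i h h' => Multiset.disjoint_left.1 hdis h h'
    have hts : ∀ i, i ∈ t.labels → i ∉ s.labels := fun i h h' => Multiset.disjoint_left.1 hdis h' h
    rw [inst_par] at h
    cases h with
    | parL h =>
      obtain ⟨P', h1, rfl⟩ := ihs hn1 h
      refine ⟨P', ?_, ?_⟩
      · rcases h1 with ⟨i, q, h1, h2⟩ | ⟨i, q, α, β, h1, h2⟩ | ⟨i, q, α, i', q', α', h0, h1, h2⟩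
        · exact Or.inl ⟨i, q, Multiset.mem_add.2 (Or.inl h1), h2⟩
        · exact Or.inr (Or.inl ⟨i, q, α, β, Or.inl h1, h2⟩)
        · exact Or.inr (Or.inr ⟨i, q, α, i', q', α', h0, Or.inl h1, h2⟩)
      · rw [inst_par]
        congr 1
        rcases h1 with ⟨i, q, h1, _, _, rfl⟩ | ⟨i, q, α, β, h1, _, _, rfl⟩ |
          ⟨i, q, α, i', q', α', h0, h1, _, _, _, rfl⟩
        · rw [inst_update_of_not_mem (hst _ h1)]
        · rw [inst_update_of_not_mem (hst _ h1.mem)]
        · rw [inst_update_of_not_mem (hst _ h1.mem.2), inst_update_of_not_mem (hst _ h1.mem.1)]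
    | parR h =>
      obtain ⟨P', h1, rfl⟩ := iht hn2 h
      refine ⟨P', ?_, ?_⟩
      · rcases h1 with ⟨i, q, h1, h2⟩ | ⟨i, q, α, β, h1, h2⟩ | ⟨i, q, α, i', q', α', h0, h1, h2⟩
        · exact Or.inl ⟨i, q, Multiset.mem_add.2 (Or.inr h1), h2⟩
        · exact Or.inr (Or.inl ⟨i, q, α, β, Or.inr h1, h2⟩)
        · exact Or.inr (Or.inr ⟨i, q, α, i', q', α', h0, Or.inr (Or.inl h1), h2⟩)
      · rw [inst_par]
        congr 1
        rcases h1 with ⟨i, q, h1, _, _, rfl⟩ | ⟨i, q, α, β, h1, _, _, rfl⟩ |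
          ⟨i, q, α, i', q', α', h0, h1, _, _, _, rfl⟩
        · rw [inst_update_of_not_mem (hts _ h1)]
        · rw [inst_update_of_not_mem (hts _ h1.mem)]
        · rw [inst_update_of_not_mem (hts _ h1.mem.2), inst_update_of_not_mem (hts _ h1.mem.1)]
    | @sync _ _ _ _ l h h' =>
      obtain ⟨P1, h1, rfl⟩ := ihs hn1 h
      obtain ⟨P2, h2, rfl⟩ := iht hn2 h'
      rcases h1 with ⟨i, q, h1, h3, _⟩ | ⟨i, q, α, β, h1, h3, h4, rfl⟩ |
        ⟨i, q, α, i', q', α', h0, h1, h3, _⟩
      · cases h3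
      · rcases h2 with ⟨i', q', h2, h5, _⟩ | ⟨i', q', α', β', h2, h5, h6, rfl⟩ |
          ⟨i, q, α, i', q', α', h0, h1, h5, _⟩
        · cases h5
        · cases h3
          cases h5
          have hne : i ≠ i' := by
            rintro rfl
            exact hst _ h1.mem h2.mem
          refine ⟨_, Or.inr (Or.inr ⟨i, q, α, i', q', α', hne, Or.inr (Or.inr (Or.inl ⟨l, h1, h2⟩)), rfl, h4,
            h6, rfl⟩), ?_⟩
          rw [inst_par]
          congr 1
          · rw [inst_update_of_not_mem (hts _ h2.mem)]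
          · rw [Function.update_comm hne, inst_update_of_not_mem (hst _ h1.mem)]
        · cases h5
      · cases h3
  | res s L ih =>
    rw [inst_res] at h
    cases h with
    | restrict h hL =>
      obtain ⟨P', h1, rfl⟩ := ih hn h
      refine ⟨P', ?_, rfl⟩
      rcases h1 with ⟨i, q, h1, h2⟩ | ⟨i, q, α, β, h1, h2, h3⟩ | ⟨i, q, α, i', q', α', h0, h1, h2⟩
      · exact Or.inl ⟨i, q, h1, h2⟩
      · exact Or.inr (Or.inl ⟨i, q, α, β, ⟨h1, hL β h2⟩, h2, h3⟩)
      · exact Or.inr (Or.inr ⟨i, q, α, i', q', α', h0, h1, h2⟩)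
  | rel s f ih =>
    rw [inst_rel] at h
    cases h with
    | relabel h =>
      obtain ⟨P', h1, rfl⟩ := ih hn h
      refine ⟨P', ?_, rfl⟩
      rcases h1 with ⟨i, q, h1, h2, h3⟩ | ⟨i, q, α, β, h1, h2, h3⟩ | ⟨i, q, α, i', q', α', h0, h1, h2, h3⟩
      · exact Or.inl ⟨i, q, h1, by rw [h2]; rfl, h3⟩
      · exact Or.inr (Or.inl ⟨i, q, α, f.label β, ⟨β, h1, rfl⟩, by rw [h2]; rfl, h3⟩)
      · exact Or.inr (Or.inr ⟨i, q, α, i', q', α', h0, h1, by rw [h2]; rfl, h3⟩)

open Classical in
theorem inst_step_tau {T : Tree N J} (hn : T.labels.Nodup) {P : J → Closed N} {i : J} (hi : i ∈ T.labels)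
    {q : Closed N} (h : Step (P i) .tau q) : Step (T.inst P) .tau (T.inst (Function.update P i q)) := by
  induction T with
  | leaf j =>
    obtain rfl : i = j := Multiset.mem_singleton.1 hi
    simpa [Tree.inst, Tree.toTerm, Term.subst] using h
  | par s t ihs iht =>
    simp only [Tree.labels, Multiset.nodup_add] at hn
    rw [inst_par, inst_par]
    rcases Multiset.mem_add.1 hi with hi | hi
    · rw [inst_update_of_not_mem (T := t) (fun h' => Multiset.disjoint_left.1 hn.2.2 hi h')]
      exact .parL (ihs hn.1 hi)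
    · rw [inst_update_of_not_mem (T := s) (fun h' => Multiset.disjoint_left.1 hn.2.2 h' hi)]
      exact .parR (iht hn.2.1 hi)
  | res s L ih => exact .restrict (ih hn hi) (by intro l hl; cases hl)
  | rel s f ih => exact Step.relabel (μ := .tau) (ih hn hi)

open Classical in
theorem inst_step_vis {T : Tree N J} (hn : T.labels.Nodup) {P : J → Closed N} {i : J} {α β : Label N}
    (hi : T.Expo i α β) {q : Closed N} (h : Step (P i) (.vis α) q) :
    Step (T.inst P) (.vis β) (T.inst (Function.update P i q)) := by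
  induction T generalizing β with
  | leaf j =>
    obtain ⟨rfl, rfl⟩ := hi
    simpa [Tree.inst, Tree.toTerm, Term.subst] using h
  | par s t ihs iht =>
    simp only [Tree.labels, Multiset.nodup_add] at hn
    rw [inst_par, inst_par]
    rcases hi with hi | hi
    · rw [inst_update_of_not_mem (T := t) (fun h' => Multiset.disjoint_left.1 hn.2.2 hi.mem h')]
      exact .parL (ihs hn.1 hi)
    · rw [inst_update_of_not_mem (T := s) (fun h' => Multiset.disjoint_left.1 hn.2.2 h' hi.mem)]
      exact .parR (iht hn.2.1 hi)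
  | res s L ih => exact .restrict (ih hn hi.1) (by intro l hl; cases hl; exact hi.2)
  | rel s f ih =>
    obtain ⟨β', h1, rfl⟩ := hi
    exact Step.relabel (μ := .vis β') (ih hn h1)

open Classical in
theorem inst_step_conn {T : Tree N J} (hn : T.labels.Nodup) {P : J → Closed N} {i i' : J}
    {α α' : Label N} (hi : T.Conn i α i' α') (hne : i ≠ i') {q q' : Closed N} (h : Step (P i) (.vis α) q)
    (h' : Step (P i') (.vis α') q') :
    Step (T.inst P) .tau (T.inst (Function.update (Function.update P i q) i' q')) := by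
  induction T with
  | leaf j => exact hi.elim
  | par s t ihs iht =>
    simp only [Tree.labels, Multiset.nodup_add] at hn
    have hst : ∀ i, i ∈ s.labels → i ∉ t.labels := fun i h h' => Multiset.disjoint_left.1 hn.2.2 h h'
    have hts : ∀ i, i ∈ t.labels → i ∉ s.labels := fun i h h' => Multiset.disjoint_left.1 hn.2.2 h' h
    rw [inst_par, inst_par]
    rcases hi with hi | hi | ⟨β, h1, h2⟩ | ⟨β, h1, h2⟩
    · rw [inst_update_of_not_mem (T := t) (hst _ hi.mem.2),
        inst_update_of_not_mem (T := t) (hst _ hi.mem.1)]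
      exact .parL (ihs hn.1 hi)
    · rw [inst_update_of_not_mem (T := s) (hts _ hi.mem.2),
        inst_update_of_not_mem (T := s) (hts _ hi.mem.1)]
      exact .parR (iht hn.2.1 hi)
    · rw [inst_update_of_not_mem (T := s) (hts _ h2.mem), Function.update_comm hne,
        inst_update_of_not_mem (T := t) (hst _ h1.mem)]
      exact .sync (inst_step_vis hn.1 h1 h) (inst_step_vis hn.2.1 h2 h')
    · rw [inst_update_of_not_mem (T := t) (hst _ h2.mem), Function.update_comm hne,
        inst_update_of_not_mem (T := s) (hts _ h1.mem)]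
      refine .sync (l := co β) (inst_step_vis hn.1 h2 h') ?_
      rw [co_co]
      exact inst_step_vis hn.2.1 h1 h
  | res s L ih => exact .restrict (ih hn hi) (by intro l hl; cases hl)
  | rel s f ih => exact Step.relabel (μ := .tau) (ih hn hi)

theorem inst_step {T : Tree N J} (hn : T.labels.Nodup) {P P' : J → Closed N} {μ : Act N}
    (h : Tr (· ∈ T.labels) T.Expo T.Conn P μ P') : Step (T.inst P) μ (T.inst P') := by
  rcases h with ⟨i, q, h1, rfl, h2, rfl⟩ | ⟨i, q, α, β, h1, rfl, h2, rfl⟩ |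
    ⟨i, q, α, i', q', α', h0, h1, rfl, h2, h3, rfl⟩
  · exact inst_step_tau hn h1 h2
  · exact inst_step_vis hn h1 h2
  · exact inst_step_conn hn h1 h0 h2 h3

theorem sound_of_same {T T' : Tree N ℕ} (hn : T.labels.Nodup) (hl : T'.labels = T.labels)
    (he : ∀ i α β, T.Expo i α β ↔ T'.Expo i α β)
    (hc : ∀ i α i' α', T.Conn i α i' α' ↔ T'.Conn i α i' α') : Sound T.toTerm T'.toTerm := by
  intro σ
  refine ⟨fun p q => ∃ P : ℕ → Closed N, p = T.inst P ∧ q = T'.inst P, ?_, σ, rfl, rfl⟩
  have hTr : ∀ P μ P', Tr (· ∈ T.labels) T.Expo T.Conn P μ P' ↔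
      Tr (· ∈ T'.labels) T'.Expo T'.Conn P μ P' := by
    intro P μ P'
    have h1 : T.Expo = T'.Expo := by funext i α β; exact propext (he i α β)
    have h2 : T.Conn = T'.Conn := by funext i α i' α'; exact propext (hc i α i' α')
    rw [h1, h2, hl]
  rintro p q ⟨P, rfl, rfl⟩
  have hn' : T'.labels.Nodup := by rw [hl]; exact hn
  constructor
  · intro μ p' hp
    obtain ⟨P', h1, rfl⟩ := step_inst hn hp
    exact ⟨_, inst_step hn' ((hTr _ _ _).1 h1), P', rfl, rfl⟩
  · intro μ q' hq
    obtain ⟨P', h1, rfl⟩ := step_inst hn' hq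
    exact ⟨_, inst_step hn ((hTr _ _ _).2 h1), P', rfl, rfl⟩

end Pool.Agent.K3h39.CCS
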