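import Pool.Agent.K3h39.CCS.Defs

/-!
Terms whose variables are states of a transition system, and their relation to closed terms.
-/

namespace Pool.Agent.K3h39.CCS

variable {N V W J : Type}

@[simp] theorem co_co (l : Label N) : co (co l) = l := by
  cases l; simp [co]

theorem co_inj {l l' : Label N} : co l = co l' ↔ l = l' := by
  constructor
  · intro h
    rw [← co_co l, h, co_co]
  · rintro rfl; rfl

theorem co_ne (l : Label N) : co l ≠ l := by
  cases l with
  | mk a b => cases b <;> simp [co]

theorem Relab.label_co (f : Relab N) (l : Label N) : f.label (co l) = co (f.label l) := by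
  obtain ⟨a, b⟩ := l
  cases b <;> simp [Relab.label, co]

@[simp] theorem co_fst (l : Label N) : (co l).1 = l.1 := rfl

/-- Transitions of terms whose variables are states of a transition system `T`. -/
inductive StepG (T : W → Act N → W → Prop) : Term N W → Act N → Term N W → Prop
  | var {v v' : W} {μ : Act N} : T v μ v' → StepG T (.var v) μ (.var v')
  | pre (μ : Act N) (t : Term N W) : StepG T (.pre μ t) μ t
  | choiceL {t u t' : Term N W} {μ : Act N} : StepG T t μ t' → StepG T (.choice t u) μ t'
  | choiceR {t u u' : Term N W} {μ : Act N} : StepG T u μ u' → StepG T (.choice t u) μ u'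
  | parL {t u t' : Term N W} {μ : Act N} : StepG T t μ t' → StepG T (.par t u) μ (.par t' u)
  | parR {t u u' : Term N W} {μ : Act N} : StepG T u μ u' → StepG T (.par t u) μ (.par t u')
  | sync {t u t' u' : Term N W} {l : Label N} :
      StepG T t (.vis l) t' → StepG T u (.vis (co l)) u' → StepG T (.par t u) .tau (.par t' u')
  | lmerge {t u t' : Term N W} {μ : Act N} : StepG T t μ t' → StepG T (.lmerge t u) μ (.par t' u)
  | cmerge {t u t' u' : Term N W} {l : Label N} :
      StepG T t (.vis l) t' → StepG T u (.vis (co l)) u' → StepG T (.cmerge t u) .tau (.par t' u')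
  | restrict {t t' : Term N W} {μ : Act N} {L : Set N} :
      StepG T t μ t' → (∀ l, μ = .vis l → l.1 ∉ L) → StepG T (.restrict t L) μ (.restrict t' L)
  | relabel {t t' : Term N W} {μ : Act N} {f : Relab N} :
      StepG T t μ t' → StepG T (.relabel t f) (f.act μ) (.relabel t' f)

/-- `c` maps states exactly to closed terms with the same transitions. -/
def Exact (T : W → Act N → W → Prop) (c : W → Closed N) : Prop :=
  ∀ v μ q, Step (c v) μ q ↔ ∃ v', T v μ v' ∧ q = c v'

theorem step_of_stepG {T : W → Act N → W → Prop} {c : W → Closed N} (hc : Exact T c)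
    {t t' : Term N W} {μ : Act N} (h : StepG T t μ t') : Step (t.subst c) μ (t'.subst c) := by
  induction h with
  | var h => exact (hc _ _ _).2 ⟨_, h, rfl⟩
  | pre μ t => exact Step.pre _ _
  | choiceL _ ih => exact Step.choiceL ih
  | choiceR _ ih => exact Step.choiceR ih
  | parL _ ih => exact Step.parL ih
  | parR _ ih => exact Step.parR ih
  | sync _ _ ih1 ih2 => exact Step.sync ih1 ih2
  | lmerge _ ih => exact Step.lmerge ih
  | cmerge _ _ ih1 ih2 => exact Step.cmerge ih1 ih2
  | restrict _ h ih => exact Step.restrict ih h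
  | relabel _ ih => exact Step.relabel ih

theorem stepG_of_step {T : W → Act N → W → Prop} {c : W → Closed N} (hc : Exact T c)
    (t : Term N W) : ∀ {μ : Act N} {q : Closed N}, Step (t.subst c) μ q →
      ∃ t', StepG T t μ t' ∧ q = t'.subst c := by
  induction t with
  | var v =>
    intro μ q h
    obtain ⟨v', h1, h2⟩ := (hc _ _ _).1 h
    exact ⟨.var v', .var h1, h2⟩
  | nil => intro μ q h; cases h
  | pre ν t ih =>
    intro μ q h
    cases h
    exact ⟨t, .pre _ _, rfl⟩
  | choice t u iht ihu =>
    intro μ q h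
    cases h with
    | choiceL h => obtain ⟨t', h1, h2⟩ := iht h; exact ⟨t', .choiceL h1, h2⟩
    | choiceR h => obtain ⟨t', h1, h2⟩ := ihu h; exact ⟨t', .choiceR h1, h2⟩
  | par t u iht ihu =>
    intro μ q h
    cases h with
    | parL h => obtain ⟨t', h1, rfl⟩ := iht h; exact ⟨.par t' u, .parL h1, rfl⟩
    | parR h => obtain ⟨t', h1, rfl⟩ := ihu h; exact ⟨.par t t', .parR h1, rfl⟩
    | sync h h' =>
      obtain ⟨t', h1, rfl⟩ := iht h
      obtain ⟨u', h2, rfl⟩ := ihu h'
      exact ⟨.par t' u', .sync h1 h2, rfl⟩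
  | lmerge t u iht ihu =>
    intro μ q h
    cases h with
    | lmerge h => obtain ⟨t', h1, rfl⟩ := iht h; exact ⟨.par t' u, .lmerge h1, rfl⟩
  | cmerge t u iht ihu =>
    intro μ q h
    cases h with
    | cmerge h h' =>
      obtain ⟨t', h1, rfl⟩ := iht h
      obtain ⟨u', h2, rfl⟩ := ihu h'
      exact ⟨.par t' u', .cmerge h1 h2, rfl⟩
  | restrict t L ih =>
    intro μ q h
    cases h with
    | restrict h h' => obtain ⟨t', h1, rfl⟩ := ih h; exact ⟨.restrict t' L, .restrict h1 h', rfl⟩
  | relabel t f ih =>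
    intro μ q h
    cases h with
    | relabel h => obtain ⟨t', h1, rfl⟩ := ih h; exact ⟨.relabel t' f, .relabel h1, rfl⟩

/-- Bisimilarity of terms over states, through closed terms. -/
def BisG (c : W → Closed N) (t u : Term N W) : Prop := Bisim (t.subst c) (u.subst c)

theorem Bisim.symm {p q : Closed N} (h : Bisim p q) : Bisim q p := by
  obtain ⟨R, hR, h⟩ := h
  refine ⟨fun a b => R b a, ?_, h⟩
  intro a b hab
  exact ⟨fun μ p' hp => (hR _ _ hab).2 μ p' hp, fun μ q' hq => (hR _ _ hab).1 μ q' hq⟩

theorem Bisim.step {p q : Closed N} (h : Bisim p q) {μ : Act N} {p' : Closed N} (hp : Step p μ p') :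
    ∃ q', Step q μ q' ∧ Bisim p' q' := by
  obtain ⟨R, hR, h⟩ := h
  obtain ⟨q', h1, h2⟩ := (hR _ _ h).1 μ p' hp
  exact ⟨q', h1, R, hR, h2⟩

theorem BisG.symm {c : W → Closed N} {t u : Term N W} (h : BisG c t u) : BisG c u t := Bisim.symm h

theorem BisG.step {T : W → Act N → W → Prop} {c : W → Closed N} (hc : Exact T c) {t u : Term N W}
    (h : BisG c t u) {μ : Act N} {t' : Term N W} (ht : StepG T t μ t') :
    ∃ u', StepG T u μ u' ∧ BisG c t' u' := by
  obtain ⟨q', h1, h2⟩ := Bisim.step h (step_of_stepG hc ht)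
  obtain ⟨u', h3, rfl⟩ := stepG_of_step hc u h1
  exact ⟨u', h3, h2⟩

theorem Term.subst_subst {U : Type} (σ : V → Term N W) (ρ : W → Term N U) (t : Term N V) :
    (t.subst σ).subst ρ = t.subst (fun x => (σ x).subst ρ) := by
  induction t with
  | var x => rfl
  | nil => rfl
  | pre μ t ih => simp [Term.subst, ih]
  | choice t u h1 h2 => simp [Term.subst, h1, h2]
  | par t u h1 h2 => simp [Term.subst, h1, h2]
  | lmerge t u h1 h2 => simp [Term.subst, h1, h2]
  | cmerge t u h1 h2 => simp [Term.subst, h1, h2]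
  | restrict t L ih => simp [Term.subst, ih]
  | relabel t f ih => simp [Term.subst, ih]

/-- There is a path of `n` transitions. -/
def HP (T : W → Act N → W → Prop) : ℕ → Term N W → Prop
  | 0, _ => True
  | n + 1, t => ∃ μ t', StepG T t μ t' ∧ HP T n t'

theorem HP.pred {T : W → Act N → W → Prop} : ∀ {n : ℕ} {t : Term N W}, HP T (n + 1) t → HP T n t
  | 0, _, _ => trivial
  | _ + 1, _, ⟨μ, t', h, h'⟩ => ⟨μ, t', h, HP.pred h'⟩

theorem HP.mono {T : W → Act N → W → Prop} {n m : ℕ} {t : Term N W} (h : HP T n t) (hmn : m ≤ n) :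
    HP T m t := by
  induction n with
  | zero => obtain rfl : m = 0 := by omega
            exact h
  | succ n ih =>
    rcases Nat.lt_or_ge m (n + 1) with h1 | h1
    · exact ih h.pred (by omega)
    · obtain rfl : m = n + 1 := by omega
      exact h

/-- The longest path has length `n`. -/
def MaxLen (T : W → Act N → W → Prop) (t : Term N W) (n : ℕ) : Prop := HP T n t ∧ ¬ HP T (n + 1) t

theorem MaxLen.le {T : W → Act N → W → Prop} {t : Term N W} {n m : ℕ} (h : MaxLen T t n)
    (h' : HP T m t) : m ≤ n := by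
  by_contra hlt
  exact h.2 (h'.mono (by omega))

theorem MaxLen.unique {T : W → Act N → W → Prop} {t : Term N W} {n m : ℕ} (h : MaxLen T t n)
    (h' : MaxLen T t m) : n = m := le_antisymm (h'.le h.1) (h.le h'.1)

theorem HP.bis {T : W → Act N → W → Prop} {c : W → Closed N} (hc : Exact T c) :
    ∀ {n : ℕ} {t u : Term N W}, BisG c t u → HP T n t → HP T n u
  | 0, _, _, _, _ => trivial
  | _ + 1, _, _, h, ⟨μ, t', h1, h2⟩ => by
    obtain ⟨u', h3, h4⟩ := h.step hc h1
    exact ⟨μ, u', h3, HP.bis hc h4 h2⟩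

theorem MaxLen.bis {T : W → Act N → W → Prop} {c : W → Closed N} (hc : Exact T c)
    {n : ℕ} {t u : Term N W} (h : BisG c t u) (h' : MaxLen T t n) : MaxLen T u n :=
  ⟨HP.bis hc h h'.1, fun h2 => h'.2 (HP.bis hc h.symm h2)⟩

theorem exists_maxLen {T : W → Act N → W → Prop} {t : Term N W} {b : ℕ} (hb : ∀ n, HP T n t → n ≤ b) :
    ∃ n, MaxLen T t n := by
  classical
  have hex : ∃ k, ¬ HP T k t := ⟨b + 1, fun h => by have := hb _ h; omega⟩
  have h0 : Nat.find hex ≠ 0 := by
    intro h
    have := Nat.find_spec hex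
    rw [h] at this
    exact this trivial
  refine ⟨Nat.find hex - 1, ?_, ?_⟩
  · by_contra h
    exact Nat.find_min hex (by omega) h
  · have := Nat.find_spec hex
    rwa [show Nat.find hex - 1 + 1 = Nat.find hex by omega]

end Pool.Agent.K3h39.CCS
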