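import Pool.Agent.K3h39.CCS.Trees

/-!
Both sides of a sound equation have the same runs, up to the network data of the static trees.
-/

namespace Pool.Agent.K3h39.CCS

variable {N V J : Type}

/-- Length of the short branch of a state. -/
def fl (P : Prm N V J) : St N V J → ℕ
  | .Q j => P.fQ j
  | .F j α => P.fF j α
  | _ => 0

/-- States with a short branch. -/
def Special (js : List J) (p : St N V J) : Prop :=
  (∃ j ∈ js, p = .Q j) ∨ (∃ j ∈ js, ∃ α, p = .F j α)

/-- The short branches have well separated lengths. -/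
structure Sep (P : Prm N V J) (M : ℕ) : Prop where
  bdd : P.Bdd
  hU : M + 1 < P.U
  low : ∀ p, Special P.js p → M < fl P p
  high : ∀ p, Special P.js p → fl P p + M + 1 < P.U
  sep : ∀ p p', Special P.js p → Special P.js p' → p ≠ p' →
    fl P p + M < fl P p' ∨ fl P p' + M < fl P p

/-- A test for the presence of `p` which depends only on lengths of paths. -/
def Phi (P : Prm N V J) (M : ℕ) (p : St N V J) (w : Term N (St N V J)) : Prop :=
  ∃ w1 n, StepG (TT P) w .tau w1 ∧ MaxLen (TT P) w1 n ∧ fl P p ≤ n % P.U ∧ n % P.U ≤ fl P p + M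

/-- Only dead chains and long chains. -/
def Semi (P : Prm N V J) (w : Term N (St N V J)) : Prop := ∀ n, Exp w (.ch n) → n = 0 ∨ n = P.U

theorem semi_chsum {P : Prm N V J} {w : Term N (St N V J)} (h : Semi P w) : ∃ k, chsum w = k * P.U := by
  induction w with
  | var v =>
    cases v with
    | ch n =>
      rcases h n rfl with rfl | rfl
      · exact ⟨0, by simp [chsum]⟩
      · exact ⟨1, by simp [chsum]⟩
    | X _ => exact ⟨0, by simp [chsum]⟩
    | Q _ => exact ⟨0, by simp [chsum]⟩
    | F _ _ => exact ⟨0, by simp [chsum]⟩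
  | nil => exact ⟨0, by simp [chsum]⟩
  | pre μ t _ => exact ⟨0, by simp [chsum]⟩
  | choice t u _ _ => exact ⟨0, by simp [chsum]⟩
  | par t u iht ihu =>
    obtain ⟨k, hk⟩ := iht (fun n hn => h n (Or.inl hn))
    obtain ⟨k', hk'⟩ := ihu (fun n hn => h n (Or.inr hn))
    exact ⟨k + k', by simp only [chsum]; rw [hk, hk', Nat.add_mul]⟩
  | lmerge t u _ _ => exact ⟨0, by simp [chsum]⟩
  | cmerge t u _ _ => exact ⟨0, by simp [chsum]⟩
  | restrict t L ih => exact ih h
  | relabel t f ih => exact ih h

theorem clean_chsum {w : Term N (St N V J)} (h : ∀ n, ¬ Exp w (.ch n)) : chsum w = 0 := by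
  induction w with
  | var v =>
    cases v with
    | ch n => exact absurd rfl (h n)
    | X _ => rfl
    | Q _ => rfl
    | F _ _ => rfl
  | nil => rfl
  | pre μ t _ => rfl
  | choice t u _ _ => rfl
  | par t u iht ihu =>
    simp only [chsum]
    rw [iht (fun n hn => h n (Or.inl hn)), ihu (fun n hn => h n (Or.inr hn))]
  | lmerge t u _ _ => rfl
  | cmerge t u _ _ => rfl
  | restrict t L ih => exact ih h
  | relabel t f ih => exact ih h

theorem mod_res {U x b : ℕ} (h : x < U) : (b * U + x) % U = x := by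
  rw [Nat.mul_comm, Nat.mul_add_mod, Nat.mod_eq_of_lt h]

theorem id_iff {P : Prm N V J} {M : ℕ} (hS : Sep P M) {w : Term N (St N V J)} (hg : Good P.js w)
    (hm : mw w ≤ M) (hs : Semi P w) {p : St N V J} (hp : Special P.js p) : Phi P M p w ↔ Exp w p := by
  obtain ⟨k, hk⟩ := semi_chsum hs
  have hMU := hS.hU
  constructor
  · rintro ⟨w1, n, h1, h2, h3, h4⟩
    obtain ⟨a, r, h5, h6⟩ := len_good hS.bdd (Good.step h1 hg)
    have hn := h2.unique h5
    rcases cls h1 hg with ⟨h7, h8, _⟩ | ⟨_, C, p', c, h7, h8, h9⟩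
    · exfalso
      rw [h8, hk] at hn
      have : n % P.U = r := by
        rw [hn, show a * P.U + r + k * P.U = (a + k) * P.U + r by rw [Nat.add_mul]; omega]
        exact mod_res (by omega)
      have := hS.low p hp
      omega
    · have hmw : mw w1 ≤ M := by
        rw [h9, C.mw_fill]
        rw [h8, C.mw_fill] at hm
        have : mwS (St.ch c : St N V J) = 0 := rfl
        omega
      have hlow := hS.low p hp
      have hhigh := hS.high p hp
      have key : (∀ n, p' ≠ .ch n) → c = P.U → False := by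
        intro hnc hc
        rw [h8, C.chsum_fill hnc] at hk
        rw [h9, C.chsum_fill_ch, hk, hc] at hn
        have : n % P.U = r := by
          rw [hn, show a * P.U + r + (k * P.U + P.U) = (a + k + 1) * P.U + r by
            rw [Nat.add_mul, Nat.add_mul]; omega]
          exact mod_res (by omega)
        omega
      have key2 : (∀ n, p' ≠ .ch n) → Special P.js p' → c = fl P p' → p' = p := by
        intro hnc hp' hc
        by_contra hne
        rw [h8, C.chsum_fill hnc] at hk
        rw [h9, C.chsum_fill_ch, hk, hc] at hn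
        have hh := hS.high p' hp'
        have : n % P.U = r + fl P p' := by
          rw [hn, show a * P.U + r + (k * P.U + fl P p') = (a + k) * P.U + (r + fl P p') by
            rw [Nat.add_mul]; omega]
          exact mod_res (by omega)
        have := hS.sep p' p hp' hp hne
        omega
      have hok : OkS P.js p' := C.good_fill' (h8 ▸ hg)
      have hfin : p' = p → Exp w p := by
        rintro rfl
        rw [h8]
        exact C.exp_fill _
      cases h7 with
      | Ql j => exact (key (fun n h => by cases h) rfl).elim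
      | Qs j => exact hfin (key2 (fun n h => by cases h) (Or.inl ⟨j, hok, rfl⟩) rfl)
      | Fl j α => exact (key (fun n h => by cases h) rfl).elim
      | Fs j α => exact hfin (key2 (fun n h => by cases h) (Or.inr ⟨j, hok, α, rfl⟩) rfl)
      | ch =>
        exfalso
        have hU : c + 1 = P.U := by
          rcases hs (c + 1) (by rw [h8]; exact C.exp_fill _) with h | h
          · omega
          · exact h
        rw [h8, C.chsum_fill_ch] at hk
        rw [h9, C.chsum_fill_ch] at hn
        obtain ⟨k', rfl⟩ : ∃ k', k = k' + 1 := by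
          refine ⟨k - 1, ?_⟩
          rcases Nat.eq_zero_or_pos k with h | h
          · subst h; omega
          · omega
        rw [Nat.add_mul, Nat.one_mul] at hk
        have hchs : C.chs = k' * P.U := by omega
        rcases Nat.eq_zero_or_pos r with hr | hr
        · have : n % P.U = c := by
            rw [hn, hchs, hr, show a * P.U + 0 + (k' * P.U + c) = (a + k') * P.U + c by
              rw [Nat.add_mul]; omega]
            exact mod_res (by omega)
          omega
        · have : n % P.U = r - 1 := by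
            rw [hn, hchs, show a * P.U + r + (k' * P.U + c) = (a + k' + 1) * P.U + (r - 1) by
              rw [Nat.add_mul, Nat.add_mul]; omega]
            exact mod_res (by omega)
          omega
  · intro h
    obtain ⟨C, rfl⟩ := exists_fill h
    have hnc : ∀ n, p ≠ .ch n := by
      rcases hp with ⟨j, _, rfl⟩ | ⟨j, _, α, rfl⟩ <;> intro n h <;> cases h
    have hT : TT P p .tau (.ch (fl P p)) := by
      rcases hp with ⟨j, _, rfl⟩ | ⟨j, _, α, rfl⟩
      · exact .Qs j
      · exact .Fs j α
    have hg' : Good P.js (C.fill (.ch (fl P p))) := C.good_fill hg trivial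
    obtain ⟨a, r, h5, h6⟩ := len_good hS.bdd hg'
    have hr : r ≤ M := by
      rw [C.mw_fill] at h6 hm
      have : mwS (St.ch (fl P p) : St N V J) = 0 := rfl
      omega
    have hh := hS.high p hp
    have hn : (a * P.U + r + chsum (C.fill (.ch (fl P p)))) % P.U = r + fl P p := by
      rw [C.chsum_fill hnc] at hk
      rw [C.chsum_fill_ch, hk, show a * P.U + r + (k * P.U + fl P p) = (a + k) * P.U + (r + fl P p) by
        rw [Nat.add_mul]; omega]
      exact mod_res (by omega)
    exact ⟨_, _, C.step_fill hT, h5, by omega, by omega⟩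

theorem Phi.bis {P : Prm N V J} {M : ℕ} {c : St N V J → Closed N} (hc : Exact (TT P) c)
    {w w' : Term N (St N V J)} (h : BisG c w w') {p : St N V J} (hp : Phi P M p w) : Phi P M p w' := by
  obtain ⟨w1, n, h1, h2, h3⟩ := hp
  obtain ⟨w1', h4, h5⟩ := h.step hc h1
  exact ⟨w1', n, h4, h2.bis hc h5, h3⟩

/-- Good terms without chains. -/
structure Ok (P : Prm N V J) (M : ℕ) (w : Term N (St N V J)) : Prop where
  good : Good P.js w
  mw : mw w ≤ M
  clean : ∀ n, ¬ Exp w (.ch n)

theorem match_step {P : Prm N V J} {M : ℕ} (hS : Sep P M) {c : St N V J → Closed N}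
    (hc : Exact (TT P) c) {w w' : Term N (St N V J)} (hw : Ok P M w) (hw' : Ok P M w')
    (hb : BisG c w w') {μ : Act N} {w1 : Term N (St N V J)} (h : StepG (TT P) w μ w1)
    (h1 : ∀ n, ¬ Exp w1 (.ch n)) : ∃ w1', StepG (TT P) w' μ w1' ∧ BisG c w1 w1' ∧
      ∀ p, Special P.js p → (Exp w1 p ↔ Exp w1' p) := by
  have hMU := hS.hU
  obtain ⟨w1', h2, h3⟩ := hb.step hc h
  refine ⟨w1', h2, h3, ?_⟩
  have hg1 := Good.step h hw.good
  have hg1' := Good.step h2 hw'.good
  have hm1 : mw w1 ≤ M := by
    rcases cls h hw.good with ⟨h4, _, _⟩ | ⟨_, C, p, c, _, _, h4⟩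
    · have := hw.mw; omega
    · exact absurd (h4 ▸ C.exp_fill _) (h1 c)
  obtain ⟨a, r, h5, h6⟩ := len_good hS.bdd hg1
  rw [clean_chsum h1, Nat.add_zero] at h5
  have hres : ∀ n, MaxLen (TT P) w1' n → n % P.U = r := by
    intro n hn
    have := (h5.bis hc h3).unique hn
    rw [← this]
    exact mod_res (by omega)
  have hm1' : mw w1' ≤ M ∧ Semi P w1' := by
    have hw'mw := hw'.mw
    rcases cls h2 hw'.good with ⟨h4, _, h7⟩ | ⟨_, C, p, c, h7, h8, h9⟩
    · exact ⟨by omega, fun n hn => absurd (h7 n hn) (hw'.clean n)⟩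
    · have hok : OkS P.js p := C.good_fill' (h8 ▸ hw'.good)
      have hmw : mw w1' ≤ M := by
        rw [h9, C.mw_fill]
        rw [h8, C.mw_fill] at hw'mw
        have : mwS (St.ch c : St N V J) = 0 := rfl
        omega
      refine ⟨hmw, ?_⟩
      have hsemi : c = P.U → Semi P w1' := by
        intro hcU n hn
        rw [h9] at hn
        rcases C.exp_fill_iff (v' := p) hn with h | h
        · cases h; exact Or.inr hcU
        · exact absurd (h8 ▸ h) (hw'.clean n)
      have hno : (∀ n, p ≠ .ch n) → Special P.js p → c = fl P p → False := by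
        intro hnc hp hcf
        obtain ⟨a', r', h10, h11⟩ := len_good hS.bdd hg1'
        have h12 := hres _ h10
        have h13 : chsum w1' = fl P p := by
          rw [h9, C.chsum_fill_ch, hcf]
          have := clean_chsum hw'.clean
          rw [h8, C.chsum_fill hnc] at this
          omega
        have h14 := hS.high p hp
        have h15 := hS.low p hp
        rw [h13, Nat.add_assoc, mod_res (by omega)] at h12
        omega
      cases h7 with
      | Ql j => exact hsemi rfl
      | Qs j => exact (hno (fun n h => by cases h) (Or.inl ⟨j, hok, rfl⟩) rfl).elim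
      | Fl j α => exact hsemi rfl
      | Fs j α => exact (hno (fun n h => by cases h) (Or.inr ⟨j, hok, α, rfl⟩) rfl).elim
      | ch =>
        exfalso
        apply hw'.clean (c + 1)
        rw [h8]
        exact C.exp_fill _
  intro p hp
  rw [← id_iff hS hg1 hm1 (fun n hn => absurd hn (h1 n)) hp,
    ← id_iff hS hg1' hm1'.1 hm1'.2 hp]
  exact ⟨Phi.bis hc h3, Phi.bis hc h3.symm⟩

theorem Mv.mem {γ : V → J → Prop} {t t' : Term N (St N V J)} {j : J} (h : Mv γ t j t') :
    ∃ x, γ x j := by
  induction h with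
  | var h => exact ⟨_, h⟩
  | choiceL _ ih => exact ih
  | choiceR _ ih => exact ih
  | parL _ ih => exact ih
  | parR _ ih => exact ih
  | lmerge _ ih => exact ih
  | restrict L _ ih => exact ih
  | relabel f _ ih => exact ih

theorem Mv.mw {γ : V → J → Prop} {t t' : Term N (St N V J)} {j : J} (h : Mv γ t j t') :
    CCS.mw t' ≤ CCS.mw t := by
  induction h with
  | var h => simp [CCS.mw, mwS]
  | choiceL _ ih => simp only [CCS.mw]; omega
  | choiceR _ ih => simp only [CCS.mw]; omega
  | parL _ ih => simp only [CCS.mw]; omega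
  | parR _ ih => simp only [CCS.mw]; omega
  | lmerge _ ih => simp only [CCS.mw]; omega
  | restrict L _ ih => exact ih
  | relabel f _ ih => exact ih

theorem Mv.ok {P : Prm N V J} (hγ : ∀ x j, P.γ x j → j ∈ P.js) {M : ℕ} {t t' : Term N (St N V J)} {j : J}
    (h : Mv P.γ t j t') (ht : Ok P M t) (hn : NoF t) : Ok P M t' ∧ NoF t' := by
  obtain ⟨x, hx⟩ := h.mem
  refine ⟨⟨Good.step (h.step (hγ _ _ hx)) ht.good, h.mw.trans ht.mw, ?_⟩, ?_⟩
  · intro n hn
    rcases h.new_exp ht.good _ hn with h | h | ⟨x, h⟩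
    · cases h
    · exact ht.clean n h
    · cases h
  · intro i α hn'
    rcases h.new_exp ht.good _ hn' with h | h | ⟨x, h⟩
    · cases h
    · exact hn i α h
    · cases h

theorem MvStar.labels_le {P : Prm N V J} (hγ : ∀ x j, P.γ x j → j ∈ P.js) {M : ℕ}
    {t t' : Term N (St N V J)} (h : MvStar P.γ t t') (ht : Ok P M t) (hn : NoF t) :
    labelsO (skel t) ≤ labelsO (skel t') := by
  have : ∀ a, MvStar P.γ a t' → Ok P M a → NoF a → labelsO (skel a) ≤ labelsO (skel t') := by
    intro a ha
    induction ha using Relation.ReflTransGen.head_induction_on with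
    | refl => intro _ _; exact le_rfl
    | head h1 _ ih =>
      intro h2 h3
      obtain ⟨j, h1⟩ := h1
      obtain ⟨h4, h5⟩ := h1.ok hγ h2 h3
      refine le_trans ?_ (ih h4 h5)
      rw [h1.labels h2.good]
      exact Multiset.le_add_left _ _
  exact this t h ht hn

theorem phase1 {P : Prm N V J} (hγ : ∀ x j, P.γ x j → j ∈ P.js) {M : ℕ} (hS : Sep P M)
    {c : St N V J → Closed N} (hc : Exact (TT P) c) {fin : Term N (St N V J)}
    (hnd : (labelsO (skel fin)).Nodup) {w : Term N (St N V J)} (h : MvStar P.γ w fin) :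
    ∀ w' : Term N (St N V J), Ok P M w → NoF w → Ok P M w' → NoF w' → BisG c w w' →
      labelsO (skel w) = labelsO (skel w') →
      ∃ fin', MvStar P.γ w' fin' ∧ BisG c fin fin' ∧ labelsO (skel fin) = labelsO (skel fin') ∧
        Ok P M fin ∧ NoF fin ∧ Ok P M fin' ∧ NoF fin' := by
  induction h using Relation.ReflTransGen.head_induction_on with
  | refl => intro w' h1 h2 h3 h4 h5 h6; exact ⟨w', .refl, h5, h6, h1, h2, h3, h4⟩
  | @head w w1 hm hrest ih =>
    intro w' h1 h2 h3 h4 h5 h6
    obtain ⟨j, hm⟩ := hm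
    obtain ⟨x, hx⟩ := hm.mem
    have hj : j ∈ P.js := hγ _ _ hx
    obtain ⟨h7, h8⟩ := hm.ok hγ h1 h2
    obtain ⟨w1', h9, h10, h11⟩ := match_step hS hc h1 h3 h5 (hm.step hj) h7.clean
    have h12 : Exp w1' (.Q j) := (h11 _ (Or.inl ⟨j, hj, rfl⟩)).1 hm.exp
    have h13 : labelsO (skel w1) = {j} + labelsO (skel w) := hm.labels h1.good
    have h14 : (labelsO (skel w1)).Nodup :=
      Multiset.nodup_of_le (MvStar.labels_le hγ hrest h7 h8) hnd
    have h15 : j ∉ labelsO (skel w) := by
      rw [h13, Multiset.singleton_add] at h14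
      exact (Multiset.nodup_cons.1 h14).1
    have h16 : ¬ Exp w' (.Q j) := by
      rw [← mem_labelsO_skel, ← h6]
      exact h15
    obtain ⟨_, h17⟩ := step_new h9 h3.good h12 h16
    obtain ⟨h18, h19⟩ := h17.ok hγ h3 h4
    obtain ⟨fin', h20, h21⟩ := ih w1' h7 h8 h18 h19 h10 (by rw [h13, h17.labels h3.good, h6])
    exact ⟨fin', .head ⟨j, h17⟩ h20, h21⟩

theorem phase2_expo {P : Prm N V J} {M : ℕ} (hS : Sep P M)
    {c : St N V J → Closed N} (hc : Exact (TT P) c) {w w' : Term N (St N V J)}
    (h1 : Ok P M w) (h3 : Ok P M w') (h4 : NoF w') (h5 : BisG c w w')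
    {j : J} {α β : Label N} (h : ExpoO (skel w) j α β) : ExpoO (skel w') j α β := by
  obtain ⟨w1, h6, h7, h8⟩ := step_of_expo P h
  obtain ⟨S, hS1, hS2⟩ := h
  have hj : j ∈ P.js := by
    have : Exp w (.Q j) := by
      rw [← mem_labelsO_skel, hS1]
      exact hS2.mem
    obtain ⟨C, hC⟩ := exists_fill this
    exact C.good_fill' (hC ▸ h1.good)
  obtain ⟨w1', h9, h10, h11⟩ := match_step hS hc h1 h3 h5 h6 (fun n hn => h1.clean n (h8 n hn))
  exact vis_expo h9 rfl h3.good h4 ((h11 _ (Or.inr ⟨j, hj, α, rfl⟩)).1 h7)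

theorem phase2_conn {P : Prm N V J} {M : ℕ} (hS : Sep P M)
    {c : St N V J → Closed N} (hc : Exact (TT P) c) {w w' : Term N (St N V J)}
    (h1 : Ok P M w) (h3 : Ok P M w') (h4 : NoF w') (h5 : BisG c w w')
    (hnd : (labelsO (skel w)).Nodup)
    {j j' : J} {α α' : Label N} (h : ConnO (skel w) j α j' α') : ConnO (skel w') j α j' α' := by
  obtain ⟨w1, h6, h7, h7', h8⟩ := step_of_conn P h
  obtain ⟨S, hS1, hS2⟩ := h
  have hmem : ∀ i ∈ S.labels, i ∈ P.js := by
    intro i hi
    have : Exp w (.Q i) := by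
      rw [← mem_labelsO_skel, hS1]
      exact hi
    obtain ⟨C, hC⟩ := exists_fill this
    exact C.good_fill' (hC ▸ h1.good)
  have hne : j ≠ j' := hS2.ne (by rw [hS1] at hnd; exact hnd)
  obtain ⟨w1', h9, h10, h11⟩ := match_step hS hc h1 h3 h5 h6 (fun n hn => h1.clean n (h8 n hn))
  exact two_conn h9 hne h3.good h4 ((h11 _ (Or.inr ⟨j, hmem _ hS2.mem.1, α, rfl⟩)).1 h7)
    ((h11 _ (Or.inr ⟨j', hmem _ hS2.mem.2, α', rfl⟩)).1 h7')

theorem raw_ok {P : Prm N V J} {M : ℕ} {w : Term N (St N V J)} (h : Raw w) (hm : mw w ≤ M) : Ok P M w :=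
  ⟨Raw.good _ h, hm, fun n hn => by obtain ⟨x, hx⟩ := h.exp hn; cases hx⟩

theorem code_inj {K a b a' b' : ℕ} (hb : b < K) (hb' : b' < K) (h : a * K + b = a' * K + b') :
    a = a' ∧ b = b' := by
  have h1 : (a * K + b) % K = (a' * K + b') % K := by rw [h]
  rw [mod_res hb, mod_res hb'] at h1
  subst h1
  have h2 : a * K = a' * K := by omega
  exact ⟨Nat.eq_of_mul_eq_mul_right (by omega) h2, rfl⟩

/-- For every run of the left side of a sound equation the right side has a run with the same labels and the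
same network data. -/
theorem match_run [Finite N] {l r : Term N ℕ} (h : Sound l r) (γ : ℕ → J → Prop) {S : Tree N J}
    (hS : RunO (gV γ) l (some S)) (hn : S.labels.Nodup) :
    ∃ S' : Tree N J, RunO (gV γ) r (some S') ∧ S'.labels = S.labels ∧
      (∀ i α β, S.Expo i α β ↔ S'.Expo i α β) ∧ (∀ i α i' α', S.Conn i α i' α' ↔ S'.Conn i α i' α') := by
  classical
  have := Fintype.ofFinite N
  set js : List J := S.labels.toList with hjs
  have hjsm : ∀ j, j ∈ js ↔ j ∈ S.labels := by intro j; rw [hjs, Multiset.mem_toList]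
  set M : ℕ := mw (emb (J := J) l) + mw (emb (J := J) r) with hM
  set K : ℕ := Fintype.card (Label N) with hK
  let e : Label N → ℕ := fun α => (Fintype.equivFin (Label N) α : ℕ)
  have he : ∀ α, e α < K := fun α => (Fintype.equivFin (Label N) α).2
  have heinj : ∀ α β, e α = e β → α = β := by
    intro α β h
    exact (Fintype.equivFin (Label N)).injective (Fin.ext h)
  let cQ : J → ℕ := fun j => js.idxOf j * (K + 1) + 0
  let cF : J → Label N → ℕ := fun j α => js.idxOf j * (K + 1) + (1 + e α)
  set B : ℕ := js.length * (K + 1) + K + 1 with hB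
  have hidx : ∀ j, js.idxOf j ≤ js.length := fun j => List.idxOf_le_length
  have hcQ : ∀ j, cQ j + 1 ≤ B := by
    intro j
    have := Nat.mul_le_mul_right (K + 1) (hidx j)
    simp only [cQ]
    omega
  have hcF : ∀ j α, cF j α + 1 ≤ B := by
    intro j α
    have := Nat.mul_le_mul_right (K + 1) (hidx j)
    have := he α
    simp only [cF]
    omega
  let P : Prm N ℕ J :=
    { γ := fun x j => γ x j ∧ j ∈ js
      js := js
      U := (B + 2) * (M + 1) + 1
      fQ := fun j => (cQ j + 1) * (M + 1)
      fF := fun j α => (cF j α + 1) * (M + 1) }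
  have hPγ : ∀ x j, P.γ x j → j ∈ P.js := fun x j h => h.2
  have hPU : P.U = B * (M + 1) + (M + 1) + (M + 1) + 1 := by
    simp only [P]; ring
  let cd : St N ℕ J → ℕ := fun p => match p with
    | .Q j => cQ j
    | .F j α => cF j α
    | _ => 0
  have hfl : ∀ p, Special P.js p → fl P p = (cd p + 1) * (M + 1) ∧ cd p + 1 ≤ B := by
    rintro p (⟨j, _, rfl⟩ | ⟨j, _, α, rfl⟩)
    · exact ⟨rfl, hcQ j⟩
    · exact ⟨rfl, hcF j α⟩
  have hcdinj : ∀ p p', Special P.js p → Special P.js p' → cd p = cd p' → p = p' := by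
    have hidxinj : ∀ i ∈ js, ∀ j, js.idxOf i = js.idxOf j → i = j := by
      intro i hi j h
      exact (List.idxOf_inj hi).1 h
    rintro p p' (⟨j, hj, rfl⟩ | ⟨j, hj, α, rfl⟩) (⟨j', hj', rfl⟩ | ⟨j', hj', α', rfl⟩) h
    · obtain ⟨h1, _⟩ := code_inj (by omega) (by omega) h
      rw [hidxinj j hj j' h1]
    · obtain ⟨_, h1⟩ := code_inj (by omega) (by have := he α'; omega) h
      omega
    · obtain ⟨_, h1⟩ := code_inj (by have := he α; omega) (by omega) h
      omega
    · obtain ⟨h1, h2⟩ := code_inj (by have := he α; omega) (by have := he α'; omega) h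
      rw [hidxinj j hj j' h1, heinj α α' (by omega)]
  have hmul : ∀ a b : ℕ, a + 1 ≤ b → (a + 1) * (M + 1) ≤ b * (M + 1) :=
    fun a b h => Nat.mul_le_mul_right _ h
  have hSep : Sep P M := by
    refine ⟨⟨?_, ?_⟩, ?_, ?_, ?_, ?_⟩
    · intro j
      have := hmul _ _ (hcQ j)
      have h2 : P.fQ j = (cQ j + 1) * (M + 1) := rfl
      omega
    · intro j α
      have := hmul _ _ (hcF j α)
      have h2 : P.fF j α = (cF j α + 1) * (M + 1) := rfl
      omega
    · omega
    · intro p hp
      rw [(hfl p hp).1, Nat.add_mul]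
      omega
    · intro p hp
      have := hmul _ _ (hfl p hp).2
      rw [(hfl p hp).1]
      omega
    · intro p p' hp hp' hne
      rw [(hfl p hp).1, (hfl p' hp').1]
      rcases Nat.lt_trichotomy (cd p) (cd p') with h | h | h
      · left
        have := Nat.mul_le_mul_right (M + 1) (show cd p + 1 + 1 ≤ cd p' + 1 by omega)
        rw [Nat.add_mul (cd p + 1) 1] at this
        omega
      · exact absurd (hcdinj p p' hp hp' h) hne
      · right
        have := Nat.mul_le_mul_right (M + 1) (show cd p' + 1 + 1 ≤ cd p + 1 by omega)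
        rw [Nat.add_mul (cd p' + 1) 1] at this
        omega
  have hc := exact_enc P
  have hbis : BisG (enc P) (emb (J := J) l) (emb (J := J) r) := by
    unfold BisG emb
    rw [Term.subst_subst, Term.subst_subst]
    exact h _
  have hrun : RunO (gV P.γ) l (some S) :=
    run_restrict (P := fun j => j ∈ js) hS (fun j hj => (hjsm j).2 hj)
  obtain ⟨w, hw1, hw2⟩ := path_of_run hrun
  have hnd : (labelsO (skel w)).Nodup := by rw [hw2]; exact hn
  obtain ⟨w', h1, h2, h3, h4, h5, h6, h7⟩ := phase1 hPγ hSep hc hnd hw1 (emb r)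
    (raw_ok (raw_emb l) (by omega)) (raw_emb l).noF (raw_ok (raw_emb r) (by omega)) (raw_emb r).noF hbis
    (by rw [Raw.skel (raw_emb l), Raw.skel (raw_emb r)])
  rw [hw2] at h3
  have hrun' := run_of_path h1
  cases hsk : skel w' with
  | none =>
    rw [hsk] at h3
    exact absurd h3 (Tree.labels_ne_zero S)
  | some S' =>
    rw [hsk] at h3 hrun'
    refine ⟨S', run_mono (fun x j h => h.1) hrun', h3.symm, ?_, ?_⟩
    · intro i α β
      rw [← expoO_some, ← expoO_some, ← hw2, ← hsk]
      exact ⟨phase2_expo hSep hc h4 h6 h7 h2, phase2_expo hSep hc h6 h4 h5 h2.symm⟩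
    · intro i α i' α'
      rw [← connO_some, ← connO_some, ← hw2, ← hsk]
      refine ⟨phase2_conn hSep hc h4 h6 h7 h2 hnd, phase2_conn hSep hc h6 h4 h5 h2.symm ?_⟩
      rw [hsk]
      show S'.labels.Nodup
      rw [show S'.labels = S.labels from h3.symm]
      exact hn

end Pool.Agent.K3h39.CCS
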