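import Pool.Agent.K3h39.CCS.Gen

/-!
A family of finite processes used to test terms, and the length of the longest path of a term over them.
-/

namespace Pool.Agent.K3h39.CCS

variable {N V J : Type}

/-- States of the test processes. -/
inductive St (N V J : Type) : Type
  | X (x : V) : St N V J
  | Q (j : J) : St N V J
  | F (j : J) (α : Label N) : St N V J
  | ch (n : ℕ) : St N V J

/-- Parameters of the test processes. -/
structure Prm (N V J : Type) where
  γ : V → J → Prop
  js : List J
  U : ℕ
  fQ : J → ℕ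
  fF : J → Label N → ℕ

/-- Transitions of the test processes. -/
inductive TT (P : Prm N V J) : St N V J → Act N → St N V J → Prop
  | X {x : V} {j : J} : P.γ x j → j ∈ P.js → TT P (.X x) .tau (.Q j)
  | Ql (j : J) : TT P (.Q j) .tau (.ch P.U)
  | Qs (j : J) : TT P (.Q j) .tau (.ch (P.fQ j))
  | Qv (j : J) (α : Label N) : TT P (.Q j) (.vis α) (.F j α)
  | Fl (j : J) (α : Label N) : TT P (.F j α) .tau (.ch P.U)
  | Fs (j : J) (α : Label N) : TT P (.F j α) .tau (.ch (P.fF j α))
  | ch (n : ℕ) : TT P (.ch (n + 1)) .tau (.ch n)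

/-- Finite sums of prefixed terms. -/
def sumL : List (Act N × Closed N) → Closed N
  | [] => .nil
  | (μ, p) :: l => .choice (.pre μ p) (sumL l)

theorem step_sumL (l : List (Act N × Closed N)) (μ : Act N) (q : Closed N) :
    Step (sumL l) μ q ↔ (μ, q) ∈ l := by
  induction l with
  | nil =>
    constructor
    · intro h; cases h
    · intro h; cases h
  | cons a l ih =>
    obtain ⟨ν, p⟩ := a
    constructor
    · intro h
      cases h with
      | choiceL h => cases h; exact List.mem_cons_self ..
      | choiceR h => exact List.mem_cons_of_mem _ (ih.1 h)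
    · intro h
      rcases List.mem_cons.1 h with h | h
      · obtain ⟨rfl, rfl⟩ := Prod.mk.inj h
        exact Step.choiceL (Step.pre _ _)
      · exact Step.choiceR (ih.2 h)

/-- Chains of silent steps. -/
def encCh : ℕ → Closed N
  | 0 => .nil
  | n + 1 => .pre .tau (encCh n)

section enc

variable [Fintype N]

/-- Closed terms for the states `F`. -/
def encF (P : Prm N V J) (j : J) (α : Label N) : Closed N :=
  sumL [(.tau, encCh P.U), (.tau, encCh (P.fF j α))]

/-- Closed terms for the states `Q`. -/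
noncomputable def encQ (P : Prm N V J) (j : J) : Closed N :=
  sumL ((.tau, encCh P.U) :: (.tau, encCh (P.fQ j)) ::
    (Finset.univ : Finset (Label N)).toList.map (fun α => (.vis α, encF P j α)))

open Classical in
/-- Closed terms for all states. -/
noncomputable def enc (P : Prm N V J) : St N V J → Closed N
  | .X x => sumL ((P.js.filter (fun j => P.γ x j)).map (fun j => (.tau, encQ P j)))
  | .Q j => encQ P j
  | .F j α => encF P j α
  | .ch n => encCh n

theorem exact_enc (P : Prm N V J) : Exact (TT P) (enc P) := by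
  intro v μ q
  cases v with
  | X x =>
    simp only [enc, step_sumL, List.mem_map, List.mem_filter, decide_eq_true_eq, Prod.mk.injEq]
    constructor
    · rintro ⟨j, ⟨h1, h2⟩, rfl, rfl⟩
      exact ⟨.Q j, .X h2 h1, rfl⟩
    · rintro ⟨v', h, rfl⟩
      cases h with
      | X h1 h2 => exact ⟨_, ⟨h2, h1⟩, rfl, rfl⟩
  | Q j =>
    simp only [enc, encQ, step_sumL, List.mem_cons, List.mem_map, Prod.mk.injEq]
    constructor
    · rintro (⟨rfl, rfl⟩ | ⟨rfl, rfl⟩ | ⟨α, _, rfl, rfl⟩)
      · exact ⟨.ch P.U, .Ql j, rfl⟩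
      · exact ⟨.ch (P.fQ j), .Qs j, rfl⟩
      · exact ⟨.F j α, .Qv j α, rfl⟩
    · rintro ⟨v', h, rfl⟩
      cases h with
      | Ql => left; exact ⟨rfl, rfl⟩
      | Qs => right; left; exact ⟨rfl, rfl⟩
      | Qv _ α => right; right; exact ⟨α, by simp, rfl, rfl⟩
  | F j α =>
    simp only [enc, encF, step_sumL, List.mem_cons, Prod.mk.injEq, List.not_mem_nil, or_false]
    constructor
    · rintro (⟨rfl, rfl⟩ | ⟨rfl, rfl⟩)
      · exact ⟨.ch P.U, .Fl j α, rfl⟩
      · exact ⟨.ch (P.fF j α), .Fs j α, rfl⟩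
    · rintro ⟨v', h, rfl⟩
      cases h with
      | Fl => left; exact ⟨rfl, rfl⟩
      | Fs => right; exact ⟨rfl, rfl⟩
  | ch n =>
    constructor
    · intro h
      cases n with
      | zero => cases h
      | succ n =>
        cases h
        exact ⟨.ch n, .ch n, rfl⟩
    · rintro ⟨v', h, rfl⟩
      cases h with
      | ch n => exact Step.pre _ _

end enc

/-- All variables are untouched states. -/
def Raw : Term N (St N V J) → Prop
  | .var v => ∃ x, v = .X x
  | .nil => True
  | .pre _ t => Raw t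
  | .choice t u => Raw t ∧ Raw u
  | .par t u => Raw t ∧ Raw u
  | .lmerge t u => Raw t ∧ Raw u
  | .cmerge t u => Raw t ∧ Raw u
  | .restrict t _ => Raw t
  | .relabel t _ => Raw t

/-- The states with a label have their label in `js`. -/
def OkS (js : List J) : St N V J → Prop
  | .X _ => True
  | .Q j => j ∈ js
  | .F j _ => j ∈ js
  | .ch _ => True

/-- Touched states occur only in static positions. -/
def Good (js : List J) : Term N (St N V J) → Prop
  | .var v => OkS js v
  | .nil => True
  | .pre _ t => Raw t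
  | .choice t u => Raw t ∧ Raw u
  | .par t u => Good js t ∧ Good js u
  | .lmerge t u => Raw t ∧ Raw u
  | .cmerge t u => Raw t ∧ Raw u
  | .restrict t _ => Good js t
  | .relabel t _ => Good js t

theorem Raw.good (js : List J) {t : Term N (St N V J)} (h : Raw t) : Good js t := by
  induction t with
  | var v => obtain ⟨x, rfl⟩ := h; trivial
  | nil => trivial
  | pre μ t _ => exact h
  | choice t u _ _ => exact h
  | par t u iht ihu => exact ⟨iht h.1, ihu h.2⟩
  | lmerge t u _ _ => exact h
  | cmerge t u _ _ => exact h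
  | restrict t L ih => exact ih h
  | relabel t f ih => exact ih h

theorem Good.step {P : Prm N V J} {t t' : Term N (St N V J)} {μ : Act N}
    (h : StepG (TT P) t μ t') : Good P.js t → Good P.js t' := by
  induction h with
  | var h =>
    intro hg
    cases h with
    | X _ h => exact h
    | Ql => trivial
    | Qs => trivial
    | Qv => exact hg
    | Fl => trivial
    | Fs => trivial
    | ch => trivial
  | pre μ t => intro hg; exact Raw.good _ hg
  | choiceL _ ih => intro hg; exact ih (Raw.good _ hg.1)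
  | choiceR _ ih => intro hg; exact ih (Raw.good _ hg.2)
  | parL _ ih => intro hg; exact ⟨ih hg.1, hg.2⟩
  | parR _ ih => intro hg; exact ⟨hg.1, ih hg.2⟩
  | sync _ _ ih1 ih2 => intro hg; exact ⟨ih1 hg.1, ih2 hg.2⟩
  | lmerge _ ih => intro hg; exact ⟨ih (Raw.good _ hg.1), Raw.good _ hg.2⟩
  | cmerge _ _ ih1 ih2 => intro hg; exact ⟨ih1 (Raw.good _ hg.1), ih2 (Raw.good _ hg.2)⟩
  | restrict _ _ ih => intro hg; exact ih hg
  | relabel _ ih => intro hg; exact ih hg

/-- Weight of a state. -/
def mwS : St N V J → ℕ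
  | .X _ => 3
  | .Q _ => 2
  | .F _ _ => 1
  | .ch _ => 0

/-- Weight of a term. -/
def mw : Term N (St N V J) → ℕ
  | .var v => mwS v
  | .nil => 0
  | .pre _ t => mw t + 1
  | .choice t u => mw t + mw u
  | .par t u => mw t + mw u
  | .lmerge t u => mw t + mw u
  | .cmerge t u => mw t + mw u
  | .restrict t _ => mw t
  | .relabel t _ => mw t

/-- The length of the chains in static positions of a term. -/
def chsum : Term N (St N V J) → ℕ
  | .var (.ch n) => n
  | .par t u => chsum t + chsum u
  | .restrict t _ => chsum t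
  | .relabel t _ => chsum t
  | _ => 0

/-- Replace all chains in static positions by dead ones. -/
def kill : Term N (St N V J) → Term N (St N V J)
  | .var (.ch _) => .var (.ch 0)
  | .par t u => .par (kill t) (kill u)
  | .restrict t L => .restrict (kill t) L
  | .relabel t f => .relabel (kill t) f
  | t => t

/-- The state `p` occurs in a static position. -/
def Exp : Term N (St N V J) → St N V J → Prop
  | .var v, p => v = p
  | .par t u, p => Exp t p ∨ Exp u p
  | .restrict t _, p => Exp t p
  | .relabel t _, p => Exp t p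
  | _, _ => False

theorem Raw.chsum {t : Term N (St N V J)} (h : Raw t) : chsum t = 0 := by
  induction t with
  | var v => obtain ⟨x, rfl⟩ := h; rfl
  | nil => rfl
  | pre μ t _ => rfl
  | choice t u _ _ => rfl
  | par t u iht ihu => simp [CCS.chsum, iht h.1, ihu h.2]
  | lmerge t u _ _ => rfl
  | cmerge t u _ _ => rfl
  | restrict t L ih => exact ih h
  | relabel t f ih => exact ih h

theorem Raw.exp {t : Term N (St N V J)} (h : Raw t) {p : St N V J} (hp : Exp t p) : ∃ x, p = .X x := by
  induction t with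
  | var v => obtain ⟨x, rfl⟩ := h; exact ⟨x, hp.symm⟩
  | nil => exact hp.elim
  | pre μ t _ => exact hp.elim
  | choice t u _ _ => exact hp.elim
  | par t u iht ihu =>
    rcases hp with hp | hp
    · exact iht h.1 hp
    · exact ihu h.2 hp
  | lmerge t u _ _ => exact hp.elim
  | cmerge t u _ _ => exact hp.elim
  | restrict t L ih => exact ih h hp
  | relabel t f ih => exact ih h hp

/-- Static contexts. -/
inductive SC (N V J : Type) : Type
  | hole : SC N V J
  | parL : SC N V J → Term N (St N V J) → SC N V J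
  | parR : Term N (St N V J) → SC N V J → SC N V J
  | res : SC N V J → Set N → SC N V J
  | rel : SC N V J → Relab N → SC N V J

/-- Put a state in the hole. -/
def SC.fill : SC N V J → St N V J → Term N (St N V J)
  | .hole, v => .var v
  | .parL C t, v => .par (C.fill v) t
  | .parR t C, v => .par t (C.fill v)
  | .res C L, v => .restrict (C.fill v) L
  | .rel C f, v => .relabel (C.fill v) f

theorem SC.exp_fill (C : SC N V J) (v : St N V J) : Exp (C.fill v) v := by
  induction C with
  | hole => rfl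
  | parL C t ih => exact Or.inl ih
  | parR t C ih => exact Or.inr ih
  | res C L ih => exact ih
  | rel C f ih => exact ih

theorem SC.step_fill {P : Prm N V J} (C : SC N V J) {v v' : St N V J} (h : TT P v .tau v') :
    StepG (TT P) (C.fill v) .tau (C.fill v') := by
  induction C with
  | hole => exact .var h
  | parL C t ih => exact .parL ih
  | parR t C ih => exact .parR ih
  | res C L ih => exact .restrict ih (by intro l hl; cases hl)
  | rel C f ih => exact StepG.relabel (μ := .tau) ih

/-- Weight of a context. -/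
def SC.mw : SC N V J → ℕ
  | .hole => 0
  | .parL C t => C.mw + CCS.mw t
  | .parR t C => CCS.mw t + C.mw
  | .res C _ => C.mw
  | .rel C _ => C.mw

/-- Chains of a context. -/
def SC.chs : SC N V J → ℕ
  | .hole => 0
  | .parL C t => C.chs + chsum t
  | .parR t C => chsum t + C.chs
  | .res C _ => C.chs
  | .rel C _ => C.chs

theorem SC.mw_fill (C : SC N V J) (v : St N V J) : CCS.mw (C.fill v) = C.mw + mwS v := by
  induction C with
  | hole => simp [SC.fill, SC.mw, CCS.mw]
  | parL C t ih => simp [SC.fill, SC.mw, CCS.mw, ih]; omega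
  | parR t C ih => simp [SC.fill, SC.mw, CCS.mw, ih]; omega
  | res C L ih => simpa [SC.fill, SC.mw, CCS.mw] using ih
  | rel C f ih => simpa [SC.fill, SC.mw, CCS.mw] using ih

theorem SC.chsum_fill_ch (C : SC N V J) (n : ℕ) : chsum (C.fill (.ch n)) = C.chs + n := by
  induction C with
  | hole => simp [SC.fill, SC.chs, chsum]
  | parL C t ih => simp [SC.fill, SC.chs, chsum, ih]; omega
  | parR t C ih => simp [SC.fill, SC.chs, chsum, ih]; omega
  | res C L ih => simpa [SC.fill, SC.chs, chsum] using ih
  | rel C f ih => simpa [SC.fill, SC.chs, chsum] using ih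

theorem SC.chsum_fill (C : SC N V J) {v : St N V J} (hv : ∀ n, v ≠ .ch n) :
    chsum (C.fill v) = C.chs := by
  induction C with
  | hole =>
    cases v with
    | ch n => exact absurd rfl (hv n)
    | X _ => rfl
    | Q _ => rfl
    | F _ _ => rfl
  | parL C t ih => simp [SC.fill, SC.chs, chsum, ih]
  | parR t C ih => simp [SC.fill, SC.chs, chsum, ih]
  | res C L ih => simpa [SC.fill, SC.chs, chsum] using ih
  | rel C f ih => simpa [SC.fill, SC.chs, chsum] using ih

theorem SC.good_fill {js : List J} (C : SC N V J) {v v' : St N V J} (h : Good js (C.fill v))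
    (h' : OkS js v') : Good js (C.fill v') := by
  induction C with
  | hole => exact h'
  | parL C t ih => exact ⟨ih h.1, h.2⟩
  | parR t C ih => exact ⟨h.1, ih h.2⟩
  | res C L ih => exact ih h
  | rel C f ih => exact ih h

theorem SC.good_fill' {js : List J} (C : SC N V J) {v : St N V J} (h : Good js (C.fill v)) :
    OkS js v := by
  induction C with
  | hole => exact h
  | parL C t ih => exact ih h.1
  | parR t C ih => exact ih h.2
  | res C L ih => exact ih h
  | rel C f ih => exact ih h

theorem SC.exp_fill_iff (C : SC N V J) {v v' p : St N V J} (h : Exp (C.fill v) p) :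
    p = v ∨ Exp (C.fill v') p := by
  induction C with
  | hole => left; exact h.symm
  | parL C t ih =>
    rcases h with h | h
    · rcases ih h with h | h
      · exact Or.inl h
      · exact Or.inr (Or.inl h)
    · exact Or.inr (Or.inr h)
  | parR t C ih =>
    rcases h with h | h
    · exact Or.inr (Or.inl h)
    · rcases ih h with h | h
      · exact Or.inl h
      · exact Or.inr (Or.inr h)
  | res C L ih => exact ih h
  | rel C f ih => exact ih h

theorem exists_fill {t : Term N (St N V J)} {p : St N V J} (h : Exp t p) : ∃ C : SC N V J, t = C.fill p := by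
  induction t with
  | var v => exact ⟨.hole, by rw [SC.fill, ← (show v = p from h)]⟩
  | nil => exact h.elim
  | pre μ t _ => exact h.elim
  | choice t u _ _ => exact h.elim
  | par t u iht ihu =>
    rcases h with h | h
    · obtain ⟨C, rfl⟩ := iht h; exact ⟨.parL C u, rfl⟩
    · obtain ⟨C, rfl⟩ := ihu h; exact ⟨.parR t C, rfl⟩
  | lmerge t u _ _ => exact h.elim
  | cmerge t u _ _ => exact h.elim
  | restrict t L ih => obtain ⟨C, rfl⟩ := ih h; exact ⟨.res C L, rfl⟩
  | relabel t f ih => obtain ⟨C, rfl⟩ := ih h; exact ⟨.rel C f, rfl⟩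

/-- Classification of transitions. -/
theorem cls {P : Prm N V J} {t t' : Term N (St N V J)} {μ : Act N} (h : StepG (TT P) t μ t') :
    Good P.js t →
    (mw t' < mw t ∧ chsum t' = chsum t ∧ ∀ n, Exp t' (.ch n) → Exp t (.ch n)) ∨
    (μ = .tau ∧ ∃ (C : SC N V J) (p : St N V J) (c : ℕ), TT P p .tau (.ch c) ∧ t = C.fill p ∧
      t' = C.fill (.ch c)) := by
  induction h with
  | var h =>
    intro hg
    cases h with
    | X _ h => left; exact ⟨by simp [mw, mwS], rfl, fun n hn => by cases hn⟩
    | Ql => right; exact ⟨rfl, .hole, _, _, .Ql _, rfl, rfl⟩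
    | Qs => right; exact ⟨rfl, .hole, _, _, .Qs _, rfl, rfl⟩
    | Qv => left; exact ⟨by simp [mw, mwS], rfl, fun n hn => by cases hn⟩
    | Fl => right; exact ⟨rfl, .hole, _, _, .Fl _ _, rfl, rfl⟩
    | Fs => right; exact ⟨rfl, .hole, _, _, .Fs _ _, rfl, rfl⟩
    | ch => right; exact ⟨rfl, .hole, _, _, .ch _, rfl, rfl⟩
  | pre μ t =>
    intro hg
    left
    refine ⟨by simp [mw], Raw.chsum hg, ?_⟩
    intro n hn
    obtain ⟨x, hx⟩ := Raw.exp hg hn
    cases hx
  | @choiceL t u t' μ h ih =>
    intro hg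
    left
    rcases ih (Raw.good _ hg.1) with ⟨h1, h2, h3⟩ | ⟨_, C, p, c, h1, h2, h3⟩
    · refine ⟨by simp only [mw]; omega, by rw [h2, Raw.chsum hg.1]; rfl, ?_⟩
      intro n hn
      obtain ⟨x, hx⟩ := Raw.exp hg.1 (h3 n hn)
      cases hx
    · exfalso
      obtain ⟨x, hx⟩ := Raw.exp hg.1 (h2 ▸ C.exp_fill p)
      subst hx
      cases h1
  | @choiceR t u u' μ h ih =>
    intro hg
    left
    rcases ih (Raw.good _ hg.2) with ⟨h1, h2, h3⟩ | ⟨_, C, p, c, h1, h2, h3⟩
    · refine ⟨by simp only [mw]; omega, by rw [h2, Raw.chsum hg.2]; rfl, ?_⟩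
      intro n hn
      obtain ⟨x, hx⟩ := Raw.exp hg.2 (h3 n hn)
      cases hx
    · exfalso
      obtain ⟨x, hx⟩ := Raw.exp hg.2 (h2 ▸ C.exp_fill p)
      subst hx
      cases h1
  | @parL t u t' μ h ih =>
    intro hg
    rcases ih hg.1 with ⟨h1, h2, h3⟩ | ⟨h0, C, p, c, h1, h2, h3⟩
    · left
      refine ⟨by simp only [mw]; omega, by simp only [chsum]; omega, ?_⟩
      rintro n (hn | hn)
      · exact Or.inl (h3 n hn)
      · exact Or.inr hn
    · right
      exact ⟨h0, .parL C u, p, c, h1, by rw [h2]; rfl, by rw [h3]; rfl⟩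
  | @parR t u u' μ h ih =>
    intro hg
    rcases ih hg.2 with ⟨h1, h2, h3⟩ | ⟨h0, C, p, c, h1, h2, h3⟩
    · left
      refine ⟨by simp only [mw]; omega, by simp only [chsum]; omega, ?_⟩
      rintro n (hn | hn)
      · exact Or.inl hn
      · exact Or.inr (h3 n hn)
    · right
      exact ⟨h0, .parR t C, p, c, h1, by rw [h2]; rfl, by rw [h3]; rfl⟩
  | sync _ _ ih1 ih2 =>
    intro hg
    rcases ih1 hg.1 with ⟨h1, h2, h3⟩ | ⟨h0, _⟩
    · rcases ih2 hg.2 with ⟨h1', h2', h3'⟩ | ⟨h0, _⟩
      · left
        refine ⟨by simp only [mw]; omega, by simp only [chsum]; omega, ?_⟩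
        rintro n (hn | hn)
        · exact Or.inl (h3 n hn)
        · exact Or.inr (h3' n hn)
      · cases h0
    · cases h0
  | @lmerge t u t' μ h ih =>
    intro hg
    left
    rcases ih (Raw.good _ hg.1) with ⟨h1, h2, h3⟩ | ⟨_, C, p, c, h1, h2, h3⟩
    · refine ⟨by simp only [mw]; omega, by simp only [chsum]; rw [h2, Raw.chsum hg.1, Raw.chsum hg.2], ?_⟩
      rintro n (hn | hn)
      · obtain ⟨x, hx⟩ := Raw.exp hg.1 (h3 n hn)
        cases hx
      · obtain ⟨x, hx⟩ := Raw.exp hg.2 hn
        cases hx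
    · exfalso
      obtain ⟨x, hx⟩ := Raw.exp hg.1 (h2 ▸ C.exp_fill p)
      subst hx
      cases h1
  | cmerge _ _ ih1 ih2 =>
    intro hg
    rcases ih1 (Raw.good _ hg.1) with ⟨h1, h2, h3⟩ | ⟨h0, _⟩
    · rcases ih2 (Raw.good _ hg.2) with ⟨h1', h2', h3'⟩ | ⟨h0, _⟩
      · left
        refine ⟨by simp only [mw]; omega,
          by simp only [chsum]; rw [h2, h2', Raw.chsum hg.1, Raw.chsum hg.2], ?_⟩
        rintro n (hn | hn)
        · obtain ⟨x, hx⟩ := Raw.exp hg.1 (h3 n hn)
          cases hx
        · obtain ⟨x, hx⟩ := Raw.exp hg.2 (h3' n hn)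
          cases hx
      · cases h0
    · cases h0
  | @restrict t t' μ L h hL ih =>
    intro hg
    rcases ih hg with ⟨h1, h2, h3⟩ | ⟨h0, C, p, c, h1, h2, h3⟩
    · left; exact ⟨h1, h2, h3⟩
    · right; exact ⟨h0, .res C L, p, c, h1, by rw [h2]; rfl, by rw [h3]; rfl⟩
  | @relabel t t' μ f h ih =>
    intro hg
    rcases ih hg with ⟨h1, h2, h3⟩ | ⟨h0, C, p, c, h1, h2, h3⟩
    · left; exact ⟨h1, h2, h3⟩
    · right; exact ⟨by rw [h0]; rfl, .rel C f, p, c, h1, by rw [h2]; rfl, by rw [h3]; rfl⟩

/-- Rank of a state. -/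
def rkS (U : ℕ) : St N V J → ℕ
  | .X _ => U + 3
  | .Q _ => U + 2
  | .F _ _ => U + 1
  | .ch n => n

/-- Rank of a term: a bound for the length of its paths. -/
def rk (U : ℕ) : Term N (St N V J) → ℕ
  | .var v => rkS U v
  | .nil => 0
  | .pre _ t => rk U t + 1
  | .choice t u => rk U t + rk U u
  | .par t u => rk U t + rk U u
  | .lmerge t u => rk U t + rk U u
  | .cmerge t u => rk U t + rk U u
  | .restrict t _ => rk U t
  | .relabel t _ => rk U t

/-- The chain lengths are at most `U`. -/
def Prm.Bdd (P : Prm N V J) : Prop := (∀ j, P.fQ j ≤ P.U) ∧ ∀ j α, P.fF j α ≤ P.U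

theorem rk_step {P : Prm N V J} (hP : P.Bdd) {t t' : Term N (St N V J)} {μ : Act N}
    (h : StepG (TT P) t μ t') : rk P.U t' < rk P.U t := by
  induction h with
  | var h =>
    cases h with
    | X _ h => simp [rk, rkS]
    | Ql => simp [rk, rkS]
    | Qs j => have := hP.1 j; simp only [rk, rkS]; omega
    | Qv => simp [rk, rkS]
    | Fl => simp [rk, rkS]
    | Fs j α => have := hP.2 j α; simp only [rk, rkS]; omega
    | ch => simp [rk, rkS]
  | pre μ t => simp [rk]
  | choiceL _ ih => simp only [rk]; omega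
  | choiceR _ ih => simp only [rk]; omega
  | parL _ ih => simp only [rk]; omega
  | parR _ ih => simp only [rk]; omega
  | sync _ _ ih1 ih2 => simp only [rk]; omega
  | lmerge _ ih => simp only [rk]; omega
  | cmerge _ _ ih1 ih2 => simp only [rk]; omega
  | restrict _ _ ih => simpa only [rk] using ih
  | relabel _ ih => simpa only [rk] using ih

theorem HP_le_rk {P : Prm N V J} (hP : P.Bdd) : ∀ {n : ℕ} {t : Term N (St N V J)}, HP (TT P) n t →
    n ≤ rk P.U t
  | 0, _, _ => Nat.zero_le _
  | n + 1, t, ⟨μ, t', h, h'⟩ => by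
    have h1 := HP_le_rk hP h'
    have h2 := rk_step hP h
    omega

theorem exists_len {P : Prm N V J} (hP : P.Bdd) (t : Term N (St N V J)) : ∃ n, MaxLen (TT P) t n :=
  exists_maxLen (fun _ h => HP_le_rk hP h)

/-- `D w u k`: `u` is obtained from `w` by replacing chains in static positions, of total length `k`, by
dead ones. -/
inductive D : Term N (St N V J) → Term N (St N V J) → ℕ → Prop
  | refl (w : Term N (St N V J)) : D w w 0
  | ch (n : ℕ) : D (.var (.ch n)) (.var (.ch 0)) n
  | par {s s' t t' : Term N (St N V J)} {k k' : ℕ} : D s s' k → D t t' k' →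
      D (.par s t) (.par s' t') (k + k')
  | res {s s' : Term N (St N V J)} {k : ℕ} (L : Set N) : D s s' k → D (.restrict s L) (.restrict s' L) k
  | rel {s s' : Term N (St N V J)} {k : ℕ} (f : Relab N) : D s s' k → D (.relabel s f) (.relabel s' f) k

theorem D.fwd {P : Prm N V J} {w u : Term N (St N V J)} {k : ℕ} (hD : D w u k) :
    ∀ {μ : Act N} {w' : Term N (St N V J)}, StepG (TT P) w μ w' →
    (∃ u', StepG (TT P) u μ u' ∧ D w' u' k) ∨ (μ = .tau ∧ ∃ k', k = k' + 1 ∧ D w' u k') := by
  induction hD with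
  | refl w => intro μ w' h; left; exact ⟨w', h, .refl _⟩
  | ch n =>
    intro μ w' h
    cases h with
    | var h =>
      cases h with
      | ch m => right; exact ⟨rfl, m, rfl, .ch m⟩
  | @par s s' t t' k k' h1 h2 ih1 ih2 =>
    intro μ w' h
    cases h with
    | parL h =>
      rcases ih1 h with ⟨u', h3, h4⟩ | ⟨h0, k1, h3, h4⟩
      · left; exact ⟨_, .parL h3, .par h4 h2⟩
      · right; exact ⟨h0, k1 + k', by omega, .par h4 h2⟩
    | parR h =>
      rcases ih2 h with ⟨u', h3, h4⟩ | ⟨h0, k1, h3, h4⟩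
      · left; exact ⟨_, .parR h3, .par h1 h4⟩
      · right; exact ⟨h0, k + k1, by omega, .par h1 h4⟩
    | sync h h' =>
      rcases ih1 h with ⟨u', h3, h4⟩ | ⟨h0, _⟩
      · rcases ih2 h' with ⟨u'', h5, h6⟩ | ⟨h0, _⟩
        · left; exact ⟨_, .sync h3 h5, .par h4 h6⟩
        · cases h0
      · cases h0
  | res L h ih =>
    intro μ w' h
    cases h with
    | restrict h hL =>
      rcases ih h with ⟨u', h3, h4⟩ | ⟨h0, k1, h3, h4⟩
      · left; exact ⟨_, .restrict h3 hL, .res L h4⟩
      · right; exact ⟨h0, k1, h3, .res L h4⟩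
  | rel f h ih =>
    intro μ w' h
    cases h with
    | relabel h =>
      rcases ih h with ⟨u', h3, h4⟩ | ⟨h0, k1, h3, h4⟩
      · left; exact ⟨_, .relabel h3, .rel f h4⟩
      · right; exact ⟨by rw [h0]; rfl, k1, h3, .rel f h4⟩

theorem D.bwd {P : Prm N V J} {w u : Term N (St N V J)} {k : ℕ} (hD : D w u k) :
    ∀ {μ : Act N} {u' : Term N (St N V J)}, StepG (TT P) u μ u' →
    ∃ w', StepG (TT P) w μ w' ∧ D w' u' k := by
  induction hD with
  | refl w => intro μ u' h; exact ⟨u', h, .refl _⟩
  | ch n =>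
    intro μ u' h
    cases h with
    | var h => cases h
  | @par s s' t t' k k' h1 h2 ih1 ih2 =>
    intro μ w' h
    cases h with
    | parL h => obtain ⟨u', h3, h4⟩ := ih1 h; exact ⟨_, .parL h3, .par h4 h2⟩
    | parR h => obtain ⟨u', h3, h4⟩ := ih2 h; exact ⟨_, .parR h3, .par h1 h4⟩
    | sync h h' =>
      obtain ⟨u', h3, h4⟩ := ih1 h
      obtain ⟨u'', h5, h6⟩ := ih2 h'
      exact ⟨_, .sync h3 h5, .par h4 h6⟩
  | res L h ih =>
    intro μ w' h
    cases h with
    | restrict h hL => obtain ⟨u', h3, h4⟩ := ih h; exact ⟨_, .restrict h3 hL, .res L h4⟩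
  | rel f h ih =>
    intro μ w' h
    cases h with
    | relabel h => obtain ⟨u', h3, h4⟩ := ih h; exact ⟨_, .relabel h3, .rel f h4⟩

theorem D.pos {P : Prm N V J} {w u : Term N (St N V J)} {k : ℕ} (hD : D w u k) :
    ∀ {k' : ℕ}, k = k' + 1 → ∃ w', StepG (TT P) w .tau w' ∧ D w' u k' := by
  induction hD with
  | refl w => intro k' h; omega
  | ch n =>
    intro k' h
    subst h
    exact ⟨_, .var (.ch k'), .ch k'⟩
  | @par s s' t t' k k' h1 h2 ih1 ih2 =>
    intro m h
    rcases Nat.eq_zero_or_pos k with hk | hk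
    · obtain ⟨w', h3, h4⟩ := ih2 (k' := k' - 1) (by omega)
      refine ⟨_, .parR h3, ?_⟩
      have := D.par h1 h4
      rwa [show k + (k' - 1) = m by omega] at this
    · obtain ⟨w', h3, h4⟩ := ih1 (k' := k - 1) (by omega)
      refine ⟨_, .parL h3, ?_⟩
      have := D.par h4 h2
      rwa [show k - 1 + k' = m by omega] at this
  | res L h ih =>
    intro k' hk
    obtain ⟨w', h3, h4⟩ := ih hk
    exact ⟨_, .restrict h3 (by intro l hl; cases hl), .res L h4⟩
  | rel f h ih =>
    intro k' hk
    obtain ⟨w', h3, h4⟩ := ih hk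
    exact ⟨_, StepG.relabel (μ := .tau) h3, .rel f h4⟩

theorem D.hp_down {P : Prm N V J} : ∀ {n k : ℕ} {w u : Term N (St N V J)}, D w u k → HP (TT P) n w →
    HP (TT P) (n - k) u
  | 0, k, w, u, _, _ => by rw [Nat.zero_sub]; trivial
  | n + 1, k, w, u, hD, ⟨μ, w', h, h'⟩ => by
    rcases hD.fwd h with ⟨u', h3, h4⟩ | ⟨_, k', rfl, h4⟩
    · have h5 := D.hp_down h4 h'
      have h6 : HP (TT P) (n - k + 1) u := ⟨μ, u', h3, h5⟩
      exact h6.mono (by omega)
    · have h5 := D.hp_down h4 h'
      rwa [show n + 1 - (k' + 1) = n - k' by omega]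

theorem D.hp_up {P : Prm N V J} : ∀ {k n : ℕ} {w u : Term N (St N V J)}, D w u k → HP (TT P) n u →
    HP (TT P) (n + k) w
  | 0, 0, _, _, _, _ => trivial
  | 0, n + 1, w, u, hD, ⟨μ, u', h, h'⟩ => by
    obtain ⟨w', h3, h4⟩ := hD.bwd h
    exact ⟨μ, w', h3, D.hp_up (k := 0) (n := n) h4 h'⟩
  | k + 1, n, w, u, hD, h => by
    obtain ⟨w', h3, h4⟩ := hD.pos (P := P) (k' := k) rfl
    exact ⟨.tau, w', h3, D.hp_up (k := k) (n := n) h4 h⟩

theorem D.maxLen {P : Prm N V J} {k n : ℕ} {w u : Term N (St N V J)} (hD : D w u k)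
    (h : MaxLen (TT P) u n) : MaxLen (TT P) w (n + k) := by
  refine ⟨hD.hp_up h.1, fun h' => h.2 ?_⟩
  have := hD.hp_down h'
  rwa [show n + k + 1 - k = n + 1 by omega] at this

theorem D_kill (w : Term N (St N V J)) : D w (kill w) (chsum w) := by
  induction w with
  | var v =>
    cases v with
    | ch n => exact .ch n
    | X _ => exact .refl _
    | Q _ => exact .refl _
    | F _ _ => exact .refl _
  | nil => exact .refl _
  | pre μ t _ => exact .refl _
  | choice t u _ _ => exact .refl _
  | par t u iht ihu => exact .par iht ihu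
  | lmerge t u _ _ => exact .refl _
  | cmerge t u _ _ => exact .refl _
  | restrict t L ih => exact .res L ih
  | relabel t f ih => exact .rel f ih

theorem D_fill (C : SC N V J) (k : ℕ) : D (C.fill (.ch k)) (C.fill (.ch 0)) k := by
  induction C with
  | hole => exact .ch k
  | parL C t ih => exact D.par ih (.refl t)
  | parR t C ih =>
    have := D.par (.refl t) ih
    rwa [Nat.zero_add] at this
  | res C L ih => exact .res L ih
  | rel C f ih => exact .rel f ih

theorem kill_mw (w : Term N (St N V J)) : mw (kill w) = mw w := by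
  induction w with
  | var v => cases v <;> rfl
  | nil => rfl
  | pre μ t _ => rfl
  | choice t u _ _ => rfl
  | par t u iht ihu => simp [kill, mw, iht, ihu]
  | lmerge t u _ _ => rfl
  | cmerge t u _ _ => rfl
  | restrict t L ih => simpa [kill, mw] using ih
  | relabel t f ih => simpa [kill, mw] using ih

theorem kill_chsum (w : Term N (St N V J)) : chsum (kill w) = 0 := by
  induction w with
  | var v => cases v <;> rfl
  | nil => rfl
  | pre μ t _ => rfl
  | choice t u _ _ => rfl
  | par t u iht ihu => simp [kill, chsum, iht, ihu]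
  | lmerge t u _ _ => rfl
  | cmerge t u _ _ => rfl
  | restrict t L ih => simpa [kill, chsum] using ih
  | relabel t f ih => simpa [kill, chsum] using ih

theorem kill_good {js : List J} {w : Term N (St N V J)} (h : Good js w) : Good js (kill w) := by
  induction w with
  | var v => cases v <;> exact h
  | nil => exact h
  | pre μ t _ => exact h
  | choice t u _ _ => exact h
  | par t u iht ihu => exact ⟨iht h.1, ihu h.2⟩
  | lmerge t u _ _ => exact h
  | cmerge t u _ _ => exact h
  | restrict t L ih => exact ih h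
  | relabel t f ih => exact ih h

/-- The longest path of a term without chains. -/
theorem len_zero {P : Prm N V J} (hP : P.Bdd) : ∀ (m : ℕ) (w : Term N (St N V J)), mw w = m →
    Good P.js w → chsum w = 0 → ∃ a r, MaxLen (TT P) w (a * P.U + r) ∧ r ≤ mw w := by
  intro m
  induction m using Nat.strong_induction_on with
  | _ m ih =>
    intro w hm hg hc
    obtain ⟨n, hn⟩ := exists_len hP w
    rcases Nat.eq_zero_or_pos n with h0 | h0
    · exact ⟨0, 0, by simpa [h0] using hn, Nat.zero_le _⟩
    obtain ⟨k, rfl⟩ : ∃ k, n = k + 1 := ⟨n - 1, by omega⟩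
    obtain ⟨μ, w1, hs, hk⟩ := hn.1
    have hw1 : MaxLen (TT P) w1 k := ⟨hk, fun h => hn.2 ⟨μ, w1, hs, h⟩⟩
    rcases cls hs hg with ⟨h1, h2, _⟩ | ⟨_, C, p, c, h1, h2, h3⟩
    · obtain ⟨a, r, h4, h5⟩ := ih (mw w1) (by omega) w1 rfl (Good.step hs hg) (by omega)
      have := hw1.unique h4
      refine ⟨a, r + 1, ?_, by omega⟩
      rw [← Nat.add_assoc, ← this]
      exact hn
    · have hp : (∃ j, p = .Q j ∧ (c = P.U ∨ c = P.fQ j)) ∨
          (∃ j α, p = .F j α ∧ (c = P.U ∨ c = P.fF j α)) := by
        cases h1 with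
        | Ql j => left; exact ⟨j, rfl, Or.inl rfl⟩
        | Qs j => left; exact ⟨j, rfl, Or.inr rfl⟩
        | Fl j α => right; exact ⟨j, α, rfl, Or.inl rfl⟩
        | Fs j α => right; exact ⟨j, α, rfl, Or.inr rfl⟩
        | ch n =>
          exfalso
          rw [h2, SC.chsum_fill_ch] at hc
          omega
      have hcU : c ≤ P.U := by
        rcases hp with ⟨j, _, hc | hc⟩ | ⟨j, α, _, hc | hc⟩
        · exact hc.le
        · rw [hc]; exact hP.1 j
        · exact hc.le
        · rw [hc]; exact hP.2 j α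
      have hlong : TT P p .tau (.ch P.U) := by
        rcases hp with ⟨j, rfl, _⟩ | ⟨j, α, rfl, _⟩
        · exact .Ql j
        · exact .Fl j α
      have hmp : 1 ≤ mwS p := by
        rcases hp with ⟨j, rfl, _⟩ | ⟨j, α, rfl, _⟩ <;> simp [mwS]
      have hnc : ∀ n, p ≠ .ch n := by
        rcases hp with ⟨j, rfl, _⟩ | ⟨j, α, rfl, _⟩ <;> intro n h <;> cases h
      have hmu : mw (C.fill (.ch 0)) < mw w := by
        rw [h2, C.mw_fill, C.mw_fill]
        have h0 : mwS (St.ch 0 : St N V J) = 0 := rfl
        omega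
      have hcu : chsum (C.fill (.ch 0)) = 0 := by
        rw [C.chsum_fill_ch]
        rw [h2, C.chsum_fill hnc] at hc
        omega
      obtain ⟨a, r, h4, h5⟩ := ih (mw (C.fill (.ch 0))) (by omega) (C.fill (.ch 0)) rfl
        (C.good_fill (h2 ▸ hg) (by trivial)) hcu
      have h6 := (D_fill C P.U).maxLen h4
      have h7 := (D_fill C c).maxLen h4
      rw [h3] at hw1
      have h8 := hw1.unique h7
      have h9 : HP (TT P) (a * P.U + r + P.U + 1) w := ⟨.tau, _, h2 ▸ C.step_fill hlong, h6.1⟩
      have h10 := hn.le h9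
      have h11 : c = P.U := by omega
      refine ⟨a + 1, r + 1, ?_, by omega⟩
      rw [Nat.add_mul, Nat.one_mul]
      rw [show a * P.U + P.U + (r + 1) = k + 1 by omega]
      exact hn

theorem len_good {P : Prm N V J} (hP : P.Bdd) {w : Term N (St N V J)} (hg : Good P.js w) :
    ∃ a r, MaxLen (TT P) w (a * P.U + r + chsum w) ∧ r ≤ mw w := by
  obtain ⟨a, r, h1, h2⟩ := len_zero hP _ (kill w) rfl (kill_good hg) (kill_chsum w)
  exact ⟨a, r, (D_kill w).maxLen h1, by rwa [kill_mw] at h2⟩

end Pool.Agent.K3h39.CCS
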