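import Pool.Agent.K3h39.CCS.States

/-!
Static trees (terms built from leaves by parallel composition, restriction, relabelling), their network data,
and the runs of terms in which occurrences of variables are touched.
-/

namespace Pool.Agent.K3h39.CCS

variable {N V W J : Type}

/-- Static trees. -/
inductive Tree (N J : Type) : Type
  | leaf (j : J) : Tree N J
  | par (s t : Tree N J) : Tree N J
  | res (s : Tree N J) (L : Set N) : Tree N J
  | rel (s : Tree N J) (f : Relab N) : Tree N J

/-- Labels of the leaves. -/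
def Tree.labels : Tree N J → Multiset J
  | .leaf j => {j}
  | .par s t => s.labels + t.labels
  | .res s _ => s.labels
  | .rel s _ => s.labels

/-- The port `α` of leaf `i` is visible from outside as `β`. -/
def Tree.Expo : Tree N J → J → Label N → Label N → Prop
  | .leaf j, i, α, β => i = j ∧ β = α
  | .par s t, i, α, β => s.Expo i α β ∨ t.Expo i α β
  | .res s L, i, α, β => s.Expo i α β ∧ β.1 ∉ L
  | .rel s f, i, α, β => ∃ β', s.Expo i α β' ∧ β = f.label β'

/-- The ports `α` of leaf `i` and `α'` of leaf `i'` can synchronise. -/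
def Tree.Conn : Tree N J → J → Label N → J → Label N → Prop
  | .leaf _, _, _, _, _ => False
  | .par s t, i, α, i', α' => s.Conn i α i' α' ∨ t.Conn i α i' α' ∨
      (∃ β, s.Expo i α β ∧ t.Expo i' α' (co β)) ∨ (∃ β, t.Expo i α β ∧ s.Expo i' α' (co β))
  | .res s _, i, α, i', α' => s.Conn i α i' α'
  | .rel s _, i, α, i', α' => s.Conn i α i' α'

theorem Tree.Expo.mem {S : Tree N J} {i : J} {α β : Label N} (h : S.Expo i α β) : i ∈ S.labels := by
  induction S generalizing β with
  | leaf j => simp [Tree.labels, h.1]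
  | par s t ihs iht =>
    rcases h with h | h
    · exact Multiset.mem_add.2 (Or.inl (ihs h))
    · exact Multiset.mem_add.2 (Or.inr (iht h))
  | res s L ih => exact ih h.1
  | rel s f ih => obtain ⟨β', h1, _⟩ := h; exact ih h1

theorem Tree.Conn.mem {S : Tree N J} {i i' : J} {α α' : Label N} (h : S.Conn i α i' α') :
    i ∈ S.labels ∧ i' ∈ S.labels := by
  induction S with
  | leaf j => exact h.elim
  | par s t ihs iht =>
    simp only [Tree.labels, Multiset.mem_add]
    rcases h with h | h | ⟨β, h1, h2⟩ | ⟨β, h1, h2⟩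
    · have := ihs h; exact ⟨Or.inl this.1, Or.inl this.2⟩
    · have := iht h; exact ⟨Or.inr this.1, Or.inr this.2⟩
    · exact ⟨Or.inl h1.mem, Or.inr h2.mem⟩
    · exact ⟨Or.inr h1.mem, Or.inl h2.mem⟩
  | res s L ih => exact ih h
  | rel s f ih => exact ih h

theorem Tree.Conn.ne {S : Tree N J} {i i' : J} {α α' : Label N} (h : S.Conn i α i' α')
    (hn : S.labels.Nodup) : i ≠ i' := by
  induction S with
  | leaf j => exact h.elim
  | par s t ihs iht =>
    simp only [Tree.labels, Multiset.nodup_add] at hn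
    obtain ⟨h1, h2, h3⟩ := hn
    rcases h with h | h | ⟨β, h4, h5⟩ | ⟨β, h4, h5⟩
    · exact ihs h h1
    · exact iht h h2
    · rintro rfl; exact (Multiset.disjoint_left.1 h3) h4.mem h5.mem
    · rintro rfl; exact (Multiset.disjoint_left.1 h3) h5.mem h4.mem
  | res s L ih => exact ih h hn
  | rel s f ih => exact ih h hn

theorem Tree.labels_ne_zero (S : Tree N J) : S.labels ≠ 0 := by
  induction S with
  | leaf j => simp [Tree.labels]
  | par s t ihs iht => simp [Tree.labels, ihs]
  | res s L ih => exact ih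
  | rel s f ih => exact ih

/-- Combination of optional trees. -/
def mk : Option (Tree N J) → Option (Tree N J) → Option (Tree N J)
  | none, o => o
  | some S, none => some S
  | some S, some S' => some (.par S S')

theorem mk_none_right (o : Option (Tree N J)) : mk o none = o := by cases o <;> rfl

/-- Labels of an optional tree. -/
def labelsO : Option (Tree N J) → Multiset J
  | none => 0
  | some S => S.labels

theorem labelsO_mk (o o' : Option (Tree N J)) : labelsO (mk o o') = labelsO o + labelsO o' := by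
  cases o <;> cases o' <;> simp [mk, labelsO, Tree.labels]

theorem labelsO_map_res (o : Option (Tree N J)) (L : Set N) :
    labelsO (o.map (fun S => Tree.res S L)) = labelsO o := by cases o <;> rfl

theorem labelsO_map_rel (o : Option (Tree N J)) (f : Relab N) :
    labelsO (o.map (fun S => Tree.rel S f)) = labelsO o := by cases o <;> rfl

/-- Visibility for optional trees. -/
def ExpoO (o : Option (Tree N J)) (i : J) (α β : Label N) : Prop := ∃ S, o = some S ∧ S.Expo i α β

/-- Connection for optional trees. -/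
def ConnO (o : Option (Tree N J)) (i : J) (α : Label N) (i' : J) (α' : Label N) : Prop :=
  ∃ S, o = some S ∧ S.Conn i α i' α'

theorem expoO_none {i : J} {α β : Label N} : ¬ ExpoO (none : Option (Tree N J)) i α β := by
  rintro ⟨S, h, _⟩; cases h

theorem expoO_some {S : Tree N J} {i : J} {α β : Label N} : ExpoO (some S) i α β ↔ S.Expo i α β := by
  constructor
  · rintro ⟨S', h, h'⟩; cases h; exact h'
  · intro h; exact ⟨S, rfl, h⟩

theorem connO_none {i i' : J} {α α' : Label N} : ¬ ConnO (none : Option (Tree N J)) i α i' α' := by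
  rintro ⟨S, h, _⟩; cases h

theorem connO_some {S : Tree N J} {i i' : J} {α α' : Label N} :
    ConnO (some S) i α i' α' ↔ S.Conn i α i' α' := by
  constructor
  · rintro ⟨S', h, h'⟩; cases h; exact h'
  · intro h; exact ⟨S, rfl, h⟩

theorem expoO_mk {o o' : Option (Tree N J)} {i : J} {α β : Label N} :
    ExpoO (mk o o') i α β ↔ ExpoO o i α β ∨ ExpoO o' i α β := by
  cases o with
  | none => simp [mk, expoO_none]
  | some S =>
    cases o' with
    | none => simp [mk, expoO_none]
    | some S' => simp [mk, expoO_some, Tree.Expo]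

theorem connO_mk {o o' : Option (Tree N J)} {i i' : J} {α α' : Label N} :
    ConnO (mk o o') i α i' α' ↔ ConnO o i α i' α' ∨ ConnO o' i α i' α' ∨
      (∃ β, ExpoO o i α β ∧ ExpoO o' i' α' (co β)) ∨ (∃ β, ExpoO o' i α β ∧ ExpoO o i' α' (co β)) := by
  cases o with
  | none => simp [mk, expoO_none, connO_none]
  | some S =>
    cases o' with
    | none => simp [mk, expoO_none, connO_none]
    | some S' => simp [mk, expoO_some, connO_some, Tree.Conn]

/-- Runs: `RunO g t o` says that touching some (accessible) occurrences of variables of `t`, where `g` says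
which label a touched variable may receive and whether it may stay untouched, leads to the static tree `o` of the
touched occurrences. -/
def RunO (g : W → Option J → Prop) : Term N W → Option (Tree N J) → Prop
  | .var w, o => ∃ oj, g w oj ∧ o = oj.map Tree.leaf
  | .nil, o => o = none
  | .pre _ _, o => o = none
  | .choice t u, o => o = none ∨ (o ≠ none ∧ (RunO g t o ∨ RunO g u o))
  | .par t u, o => ∃ o1 o2, RunO g t o1 ∧ RunO g u o2 ∧ o = mk o1 o2
  | .lmerge t u, o => o = none ∨ ∃ S o2, RunO g t (some S) ∧ RunO g u o2 ∧ o = mk (some S) o2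
  | .cmerge _ _, o => o = none
  | .restrict t L, o => ∃ o1, RunO g t o1 ∧ o = o1.map (fun S => .res S L)
  | .relabel t f, o => ∃ o1, RunO g t o1 ∧ o = o1.map (fun S => .rel S f)

/-- The choice function for variables: a variable may stay untouched or receive a label allowed by `γ`. -/
def gV (γ : V → J → Prop) (x : V) : Option J → Prop
  | none => True
  | some j => γ x j

/-- The choice function for states. -/
def gS (γ : V → J → Prop) : St N V J → Option J → Prop
  | .X x, o => gV γ x o
  | .Q j, o => o = some j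
  | .F _ _, o => o = none
  | .ch _, o => o = none

/-- The static tree of the touched states of a term. -/
def skel : Term N (St N V J) → Option (Tree N J)
  | .var (.Q j) => some (.leaf j)
  | .par t u => mk (skel t) (skel u)
  | .restrict t L => (skel t).map (fun S => .res S L)
  | .relabel t f => (skel t).map (fun S => .rel S f)
  | _ => none

theorem Raw.skel {t : Term N (St N V J)} (h : Raw t) : skel t = none := by
  induction t with
  | var v => obtain ⟨x, rfl⟩ := h; rfl
  | nil => rfl
  | pre μ t _ => rfl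
  | choice t u _ _ => rfl
  | par t u iht ihu => simp [CCS.skel, iht h.1, ihu h.2, mk]
  | lmerge t u _ _ => rfl
  | cmerge t u _ _ => rfl
  | restrict t L ih => simp [CCS.skel, ih h]
  | relabel t f ih => simp [CCS.skel, ih h]

theorem mem_labelsO_skel {t : Term N (St N V J)} {j : J} : j ∈ labelsO (skel t) ↔ Exp t (.Q j) := by
  induction t with
  | var v =>
    cases v with
    | Q i => simp [skel, labelsO, Tree.labels, Exp, eq_comm]
    | X _ => simp [skel, labelsO, Exp]
    | F _ _ => simp [skel, labelsO, Exp]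
    | ch _ => simp [skel, labelsO, Exp]
  | nil => simp [skel, labelsO, Exp]
  | pre μ t _ => simp [skel, labelsO, Exp]
  | choice t u _ _ => simp [skel, labelsO, Exp]
  | par t u iht ihu => simp [skel, labelsO_mk, Exp, iht, ihu]
  | lmerge t u _ _ => simp [skel, labelsO, Exp]
  | cmerge t u _ _ => simp [skel, labelsO, Exp]
  | restrict t L ih =>
    simp only [skel, labelsO_map_res]
    exact ih
  | relabel t f ih =>
    simp only [skel, labelsO_map_rel]
    exact ih

/-- Touching one accessible untouched state. -/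
inductive Mv (γ : V → J → Prop) : Term N (St N V J) → J → Term N (St N V J) → Prop
  | var {x : V} {j : J} : γ x j → Mv γ (.var (.X x)) j (.var (.Q j))
  | choiceL {t u t' : Term N (St N V J)} {j : J} : Mv γ t j t' → Mv γ (.choice t u) j t'
  | choiceR {t u u' : Term N (St N V J)} {j : J} : Mv γ u j u' → Mv γ (.choice t u) j u'
  | parL {t u t' : Term N (St N V J)} {j : J} : Mv γ t j t' → Mv γ (.par t u) j (.par t' u)
  | parR {t u u' : Term N (St N V J)} {j : J} : Mv γ u j u' → Mv γ (.par t u) j (.par t u')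
  | lmerge {t u t' : Term N (St N V J)} {j : J} : Mv γ t j t' → Mv γ (.lmerge t u) j (.par t' u)
  | restrict {t t' : Term N (St N V J)} {j : J} (L : Set N) : Mv γ t j t' →
      Mv γ (.restrict t L) j (.restrict t' L)
  | relabel {t t' : Term N (St N V J)} {j : J} (f : Relab N) : Mv γ t j t' →
      Mv γ (.relabel t f) j (.relabel t' f)

theorem Mv.step {P : Prm N V J} {t t' : Term N (St N V J)} {j : J} (h : Mv P.γ t j t')
    (hj : j ∈ P.js) : StepG (TT P) t .tau t' := by
  induction h with
  | var h => exact .var (.X h hj)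
  | choiceL _ ih => exact .choiceL (ih hj)
  | choiceR _ ih => exact .choiceR (ih hj)
  | parL _ ih => exact .parL (ih hj)
  | parR _ ih => exact .parR (ih hj)
  | lmerge _ ih => exact .lmerge (ih hj)
  | restrict L _ ih => exact .restrict (ih hj) (by intro l hl; cases hl)
  | relabel f _ ih => exact StepG.relabel (μ := .tau) (ih hj)

theorem Mv.exp {γ : V → J → Prop} {t t' : Term N (St N V J)} {j : J} (h : Mv γ t j t') :
    Exp t' (.Q j) := by
  induction h with
  | var h => rfl
  | choiceL _ ih => exact ih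
  | choiceR _ ih => exact ih
  | parL _ ih => exact Or.inl ih
  | parR _ ih => exact Or.inr ih
  | lmerge _ ih => exact Or.inl ih
  | restrict L _ ih => exact ih
  | relabel f _ ih => exact ih

theorem Mv.labels {γ : V → J → Prop} {js : List J} {t t' : Term N (St N V J)} {j : J}
    (h : Mv γ t j t') : Good js t → labelsO (skel t') = {j} + labelsO (skel t) := by
  induction h with
  | var h => intro _; simp [skel, labelsO, Tree.labels]
  | choiceL _ ih =>
    intro hg
    have := ih (Raw.good _ hg.1)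
    rw [Raw.skel hg.1] at this
    exact this
  | choiceR _ ih =>
    intro hg
    have := ih (Raw.good _ hg.2)
    rw [Raw.skel hg.2] at this
    exact this
  | parL _ ih => intro hg; simp only [skel, labelsO_mk]; rw [ih hg.1, add_assoc]
  | parR _ ih => intro hg; simp only [skel, labelsO_mk]; rw [ih hg.2]; abel
  | lmerge _ ih =>
    intro hg
    have := ih (Raw.good _ hg.1)
    rw [Raw.skel hg.1] at this
    simp only [skel, labelsO_mk]
    rw [this, Raw.skel hg.2]
    simp [labelsO]
  | restrict L _ ih => intro hg; simp only [skel, labelsO_map_res]; exact ih hg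
  | relabel f _ ih => intro hg; simp only [skel, labelsO_map_rel]; exact ih hg

theorem Mv.new_exp {γ : V → J → Prop} {js : List J} {t t' : Term N (St N V J)} {j : J}
    (h : Mv γ t j t') : Good js t → ∀ p, Exp t' p → p = .Q j ∨ Exp t p ∨ ∃ x, p = .X x := by
  induction h with
  | var h => intro _ p hp; left; exact hp.symm
  | choiceL _ ih =>
    intro hg p hp
    rcases ih (Raw.good _ hg.1) p hp with h | h | h
    · exact Or.inl h
    · exact Or.inr (Or.inr (Raw.exp hg.1 h))
    · exact Or.inr (Or.inr h)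
  | choiceR _ ih =>
    intro hg p hp
    rcases ih (Raw.good _ hg.2) p hp with h | h | h
    · exact Or.inl h
    · exact Or.inr (Or.inr (Raw.exp hg.2 h))
    · exact Or.inr (Or.inr h)
  | parL _ ih =>
    intro hg p hp
    rcases hp with hp | hp
    · rcases ih hg.1 p hp with h | h | h
      · exact Or.inl h
      · exact Or.inr (Or.inl (Or.inl h))
      · exact Or.inr (Or.inr h)
    · exact Or.inr (Or.inl (Or.inr hp))
  | parR _ ih =>
    intro hg p hp
    rcases hp with hp | hp
    · exact Or.inr (Or.inl (Or.inl hp))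
    · rcases ih hg.2 p hp with h | h | h
      · exact Or.inl h
      · exact Or.inr (Or.inl (Or.inr h))
      · exact Or.inr (Or.inr h)
  | lmerge _ ih =>
    intro hg p hp
    rcases hp with hp | hp
    · rcases ih (Raw.good _ hg.1) p hp with h | h | h
      · exact Or.inl h
      · exact Or.inr (Or.inr (Raw.exp hg.1 h))
      · exact Or.inr (Or.inr h)
    · exact Or.inr (Or.inr (Raw.exp hg.2 hp))
  | restrict L _ ih => intro hg p hp; exact ih hg p hp
  | relabel f _ ih => intro hg p hp; exact ih hg p hp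

/-- A transition which produces a new touched state touches an accessible untouched state. -/
theorem step_new {P : Prm N V J} {t t' : Term N (St N V J)} {μ : Act N} {j : J}
    (h : StepG (TT P) t μ t') : Good P.js t → Exp t' (.Q j) → ¬ Exp t (.Q j) →
      μ = .tau ∧ Mv P.γ t j t' := by
  induction h with
  | var h =>
    intro hg h1 h2
    cases h with
    | X h3 h4 => cases h1; exact ⟨rfl, .var h3⟩
    | Ql => cases h1
    | Qs => cases h1
    | Qv => cases h1
    | Fl => cases h1
    | Fs => cases h1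
    | ch => cases h1
  | pre μ t =>
    intro hg h1 h2
    obtain ⟨x, hx⟩ := Raw.exp hg h1
    cases hx
  | choiceL _ ih =>
    intro hg h1 h2
    obtain ⟨h3, h4⟩ := ih (Raw.good _ hg.1) h1 (fun h => by obtain ⟨x, hx⟩ := Raw.exp hg.1 h; cases hx)
    exact ⟨h3, .choiceL h4⟩
  | choiceR _ ih =>
    intro hg h1 h2
    obtain ⟨h3, h4⟩ := ih (Raw.good _ hg.2) h1 (fun h => by obtain ⟨x, hx⟩ := Raw.exp hg.2 h; cases hx)
    exact ⟨h3, .choiceR h4⟩
  | parL _ ih =>
    intro hg h1 h2
    rcases h1 with h1 | h1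
    · obtain ⟨h3, h4⟩ := ih hg.1 h1 (fun h => h2 (Or.inl h))
      exact ⟨h3, .parL h4⟩
    · exact absurd (Or.inr h1) h2
  | parR _ ih =>
    intro hg h1 h2
    rcases h1 with h1 | h1
    · exact absurd (Or.inl h1) h2
    · obtain ⟨h3, h4⟩ := ih hg.2 h1 (fun h => h2 (Or.inr h))
      exact ⟨h3, .parR h4⟩
  | sync _ _ ih1 ih2 =>
    intro hg h1 h2
    exfalso
    rcases h1 with h1 | h1
    · obtain ⟨h3, _⟩ := ih1 hg.1 h1 (fun h => h2 (Or.inl h)); cases h3
    · obtain ⟨h3, _⟩ := ih2 hg.2 h1 (fun h => h2 (Or.inr h)); cases h3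
  | lmerge _ ih =>
    intro hg h1 h2
    rcases h1 with h1 | h1
    · obtain ⟨h3, h4⟩ := ih (Raw.good _ hg.1) h1
        (fun h => by obtain ⟨x, hx⟩ := Raw.exp hg.1 h; cases hx)
      exact ⟨h3, .lmerge h4⟩
    · obtain ⟨x, hx⟩ := Raw.exp hg.2 h1; cases hx
  | cmerge _ _ ih1 ih2 =>
    intro hg h1 h2
    exfalso
    rcases h1 with h1 | h1
    · obtain ⟨h3, _⟩ := ih1 (Raw.good _ hg.1) h1
        (fun h => by obtain ⟨x, hx⟩ := Raw.exp hg.1 h; cases hx)
      cases h3
    · obtain ⟨h3, _⟩ := ih2 (Raw.good _ hg.2) h1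
        (fun h => by obtain ⟨x, hx⟩ := Raw.exp hg.2 h; cases hx)
      cases h3
  | restrict _ _ ih =>
    intro hg h1 h2
    obtain ⟨h3, h4⟩ := ih hg h1 h2
    exact ⟨h3, .restrict _ h4⟩
  | relabel _ ih =>
    intro hg h1 h2
    obtain ⟨h3, h4⟩ := ih hg h1 h2
    exact ⟨by rw [h3]; rfl, .relabel _ h4⟩

/-- No touched state in a static position which is not a `Q`. -/
def NoF (t : Term N (St N V J)) : Prop := ∀ j α, ¬ Exp t (.F j α)

theorem Raw.noF {t : Term N (St N V J)} (h : Raw t) : NoF t := by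
  intro j α hp
  obtain ⟨x, hx⟩ := h.exp hp
  cases hx

theorem vis_expo {P : Prm N V J} {t t' : Term N (St N V J)} {μ : Act N}
    (h : StepG (TT P) t μ t') : ∀ {β : Label N} {j : J} {α : Label N}, μ = .vis β → Good P.js t → NoF t →
      Exp t' (.F j α) → ExpoO (skel t) j α β := by
  induction h with
  | var h =>
    intro β j α hμ hg hn h1
    cases h with
    | X h3 h4 => cases hμ
    | Ql => cases hμ
    | Qs => cases hμ
    | Qv i α' => cases hμ; cases h1; exact expoO_some.2 ⟨rfl, rfl⟩
    | Fl => cases hμ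
    | Fs => cases hμ
    | ch => cases hμ
  | pre μ t =>
    intro β j α hμ hg hn h1
    exact absurd h1 (Raw.noF hg _ _)
  | choiceL _ ih =>
    intro β j α hμ hg hn h1
    have := ih hμ (Raw.good _ hg.1) (Raw.noF hg.1) h1
    rw [Raw.skel hg.1] at this
    exact absurd this expoO_none
  | choiceR _ ih =>
    intro β j α hμ hg hn h1
    have := ih hμ (Raw.good _ hg.2) (Raw.noF hg.2) h1
    rw [Raw.skel hg.2] at this
    exact absurd this expoO_none
  | parL _ ih =>
    intro β j α hμ hg hn h1
    rcases h1 with h1 | h1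
    · exact expoO_mk.2 (Or.inl (ih hμ hg.1 (fun i a h => hn i a (Or.inl h)) h1))
    · exact absurd (Or.inr h1) (hn j α)
  | parR _ ih =>
    intro β j α hμ hg hn h1
    rcases h1 with h1 | h1
    · exact absurd (Or.inl h1) (hn j α)
    · exact expoO_mk.2 (Or.inr (ih hμ hg.2 (fun i a h => hn i a (Or.inr h)) h1))
  | sync _ _ ih1 ih2 => intro β j α hμ hg hn h1; cases hμ
  | lmerge _ ih =>
    intro β j α hμ hg hn h1
    exfalso
    rcases h1 with h1 | h1
    · have := ih hμ (Raw.good _ hg.1) (Raw.noF hg.1) h1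
      rw [Raw.skel hg.1] at this
      exact absurd this expoO_none
    · exact absurd h1 (Raw.noF hg.2 _ _)
  | cmerge _ _ ih1 ih2 => intro β j α hμ hg hn h1; cases hμ
  | restrict _ hL ih =>
    intro β j α hμ hg hn h1
    obtain ⟨S, h3, h4⟩ := ih hμ hg hn h1
    exact ⟨.res S _, by rw [skel, h3]; rfl, h4, hL β hμ⟩
  | @relabel t t' μ f _ ih =>
    intro β j α hμ hg hn h1
    cases μ with
    | tau => cases hμ
    | vis β' =>
      obtain ⟨S, h3, h4⟩ := ih rfl hg hn h1
      refine ⟨.rel S f, by rw [skel, h3]; rfl, β', h4, ?_⟩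
      cases hμ
      rfl

theorem vis_unique {P : Prm N V J} {t t' : Term N (St N V J)} {μ : Act N}
    (h : StepG (TT P) t μ t') : ∀ {β : Label N} {j j' : J} {α α' : Label N}, μ = .vis β → Good P.js t →
      NoF t → Exp t' (.F j α) → Exp t' (.F j' α') → j = j' ∧ α = α' := by
  induction h with
  | var h =>
    intro β j j' α α' hμ hg hn h1 h2
    cases h with
    | X h3 h4 => cases hμ
    | Ql => cases hμ
    | Qs => cases hμ
    | Qv i α' => cases h1; cases h2; exact ⟨rfl, rfl⟩
    | Fl => cases hμ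
    | Fs => cases hμ
    | ch => cases hμ
  | pre μ t =>
    intro β j j' α α' hμ hg hn h1 h2
    exact absurd h1 (Raw.noF hg _ _)
  | choiceL _ ih =>
    intro β j j' α α' hμ hg hn h1 h2
    exact ih hμ (Raw.good _ hg.1) (Raw.noF hg.1) h1 h2
  | choiceR _ ih =>
    intro β j j' α α' hμ hg hn h1 h2
    exact ih hμ (Raw.good _ hg.2) (Raw.noF hg.2) h1 h2
  | parL _ ih =>
    intro β j j' α α' hμ hg hn h1 h2
    rcases h1 with h1 | h1
    · rcases h2 with h2 | h2
      · exact ih hμ hg.1 (fun i a h => hn i a (Or.inl h)) h1 h2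
      · exact absurd (Or.inr h2) (hn j' α')
    · exact absurd (Or.inr h1) (hn j α)
  | parR _ ih =>
    intro β j j' α α' hμ hg hn h1 h2
    rcases h1 with h1 | h1
    · exact absurd (Or.inl h1) (hn j α)
    · rcases h2 with h2 | h2
      · exact absurd (Or.inl h2) (hn j' α')
      · exact ih hμ hg.2 (fun i a h => hn i a (Or.inr h)) h1 h2
  | sync _ _ ih1 ih2 => intro β j j' α α' hμ; cases hμ
  | lmerge _ ih =>
    intro β j j' α α' hμ hg hn h1 h2
    rcases h1 with h1 | h1
    · rcases h2 with h2 | h2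
      · exact ih hμ (Raw.good _ hg.1) (Raw.noF hg.1) h1 h2
      · exact absurd h2 (Raw.noF hg.2 _ _)
    · exact absurd h1 (Raw.noF hg.2 _ _)
  | cmerge _ _ ih1 ih2 => intro β j j' α α' hμ; cases hμ
  | restrict _ hL ih => intro β j j' α α' hμ hg hn h1 h2; exact ih hμ hg hn h1 h2
  | @relabel t t' μ f _ ih =>
    intro β j j' α α' hμ hg hn h1 h2
    cases μ with
    | tau => cases hμ
    | vis β' => exact ih rfl hg hn h1 h2

theorem two_conn {P : Prm N V J} {t t' : Term N (St N V J)} {μ : Act N}
    (h : StepG (TT P) t μ t') : ∀ {j j' : J} {α α' : Label N}, j ≠ j' → Good P.js t →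
      NoF t → Exp t' (.F j α) → Exp t' (.F j' α') → ConnO (skel t) j α j' α' := by
  induction h with
  | var h =>
    intro j j' α α' hj hg hn h1 h2
    cases h1
    cases h2
    exact absurd rfl hj
  | pre μ t =>
    intro j j' α α' hj hg hn h1 h2
    exact absurd h1 (Raw.noF hg _ _)
  | choiceL _ ih =>
    intro j j' α α' hj hg hn h1 h2
    have := ih hj (Raw.good _ hg.1) (Raw.noF hg.1) h1 h2
    rw [Raw.skel hg.1] at this
    exact absurd this connO_none
  | choiceR _ ih =>
    intro j j' α α' hj hg hn h1 h2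
    have := ih hj (Raw.good _ hg.2) (Raw.noF hg.2) h1 h2
    rw [Raw.skel hg.2] at this
    exact absurd this connO_none
  | parL _ ih =>
    intro j j' α α' hj hg hn h1 h2
    rcases h1 with h1 | h1
    · rcases h2 with h2 | h2
      · exact connO_mk.2 (Or.inl (ih hj hg.1 (fun i a h => hn i a (Or.inl h)) h1 h2))
      · exact absurd (Or.inr h2) (hn j' α')
    · exact absurd (Or.inr h1) (hn j α)
  | parR _ ih =>
    intro j j' α α' hj hg hn h1 h2
    rcases h1 with h1 | h1
    · exact absurd (Or.inl h1) (hn j α)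
    · rcases h2 with h2 | h2
      · exact absurd (Or.inl h2) (hn j' α')
      · exact connO_mk.2 (Or.inr (Or.inl (ih hj hg.2 (fun i a h => hn i a (Or.inr h)) h1 h2)))
  | @sync t u t' u' l hs1 hs2 ih1 ih2 =>
    intro j j' α α' hj hg hn h1 h2
    have hn1 : NoF t := fun i a h => hn i a (Or.inl h)
    have hn2 : NoF u := fun i a h => hn i a (Or.inr h)
    rcases h1 with h1 | h1
    · rcases h2 with h2 | h2
      · exact absurd (vis_unique hs1 rfl hg.1 hn1 h1 h2).1 hj
      · exact connO_mk.2 (Or.inr (Or.inr (Or.inl ⟨l, vis_expo hs1 rfl hg.1 hn1 h1,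
          vis_expo hs2 rfl hg.2 hn2 h2⟩)))
    · rcases h2 with h2 | h2
      · refine connO_mk.2 (Or.inr (Or.inr (Or.inr ⟨co l, vis_expo hs2 rfl hg.2 hn2 h1, ?_⟩)))
        rw [co_co]
        exact vis_expo hs1 rfl hg.1 hn1 h2
      · exact absurd (vis_unique hs2 rfl hg.2 hn2 h1 h2).1 hj
  | lmerge _ ih =>
    intro j j' α α' hj hg hn h1 h2
    exfalso
    rcases h1 with h1 | h1
    · rcases h2 with h2 | h2
      · have := ih hj (Raw.good _ hg.1) (Raw.noF hg.1) h1 h2
        rw [Raw.skel hg.1] at this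
        exact absurd this connO_none
      · exact absurd h2 (Raw.noF hg.2 _ _)
    · exact absurd h1 (Raw.noF hg.2 _ _)
  | @cmerge t u t' u' l hs1 hs2 ih1 ih2 =>
    intro j j' α α' hj hg hn h1 h2
    exfalso
    rcases h1 with h1 | h1
    · have := vis_expo hs1 rfl (Raw.good _ hg.1) (Raw.noF hg.1) h1
      rw [Raw.skel hg.1] at this
      exact absurd this expoO_none
    · have := vis_expo hs2 rfl (Raw.good _ hg.2) (Raw.noF hg.2) h1
      rw [Raw.skel hg.2] at this
      exact absurd this expoO_none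
  | restrict _ hL ih =>
    intro j j' α α' hj hg hn h1 h2
    obtain ⟨S, h3, h4⟩ := ih hj hg hn h1 h2
    exact ⟨.res S _, by rw [skel, h3]; rfl, h4⟩
  | @relabel t t' μ f _ ih =>
    intro j j' α α' hj hg hn h1 h2
    obtain ⟨S, h3, h4⟩ := ih hj hg hn h1 h2
    exact ⟨.rel S f, by rw [skel, h3]; rfl, h4⟩

theorem step_of_expo (P : Prm N V J) {t : Term N (St N V J)} :
    ∀ {β : Label N} {j : J} {α : Label N}, ExpoO (skel t) j α β →
      ∃ t', StepG (TT P) t (.vis β) t' ∧ Exp t' (.F j α) ∧ ∀ n, Exp t' (.ch n) → Exp t (.ch n) := by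
  induction t with
  | var v =>
    intro β j α h
    cases v with
    | Q i =>
      obtain ⟨h1, h2⟩ := expoO_some.1 h
      subst h1 h2
      exact ⟨_, .var (.Qv _ _), rfl, fun n hn => by cases hn⟩
    | X _ => exact absurd h expoO_none
    | F _ _ => exact absurd h expoO_none
    | ch _ => exact absurd h expoO_none
  | nil => intro β j α h; exact absurd h expoO_none
  | pre μ t _ => intro β j α h; exact absurd h expoO_none
  | choice t u _ _ => intro β j α h; exact absurd h expoO_none
  | par t u iht ihu =>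
    intro β j α h
    rcases expoO_mk.1 h with h | h
    · obtain ⟨t', h1, h2, h3⟩ := iht h
      exact ⟨_, .parL h1, Or.inl h2, fun n hn => hn.imp (h3 n) id⟩
    · obtain ⟨t', h1, h2, h3⟩ := ihu h
      exact ⟨_, .parR h1, Or.inr h2, fun n hn => hn.imp id (h3 n)⟩
  | lmerge t u _ _ => intro β j α h; exact absurd h expoO_none
  | cmerge t u _ _ => intro β j α h; exact absurd h expoO_none
  | restrict t L ih =>
    intro β j α h
    obtain ⟨S, h1, h2⟩ := h
    obtain ⟨S', h3, h4⟩ := Option.map_eq_some_iff.1 h1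
    subst h4
    obtain ⟨t', h5, h6, h7⟩ := ih ⟨S', h3, h2.1⟩
    exact ⟨_, .restrict h5 (by intro l hl; cases hl; exact h2.2), h6, h7⟩
  | relabel t f ih =>
    intro β j α h
    obtain ⟨S, h1, h2⟩ := h
    obtain ⟨S', h3, h4⟩ := Option.map_eq_some_iff.1 h1
    subst h4
    obtain ⟨β', h8, rfl⟩ := h2
    obtain ⟨t', h5, h6, h7⟩ := ih ⟨S', h3, h8⟩
    exact ⟨_, StepG.relabel (μ := .vis β') h5, h6, h7⟩

theorem step_of_conn (P : Prm N V J) {t : Term N (St N V J)} :
    ∀ {j : J} {α : Label N} {j' : J} {α' : Label N}, ConnO (skel t) j α j' α' →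
      ∃ t', StepG (TT P) t .tau t' ∧ Exp t' (.F j α) ∧ Exp t' (.F j' α') ∧
        ∀ n, Exp t' (.ch n) → Exp t (.ch n) := by
  induction t with
  | var v =>
    intro j α j' α' h
    cases v with
    | Q i => exact (connO_some.1 h).elim
    | X _ => exact absurd h connO_none
    | F _ _ => exact absurd h connO_none
    | ch _ => exact absurd h connO_none
  | nil => intro j α j' α' h; exact absurd h connO_none
  | pre μ t _ => intro j α j' α' h; exact absurd h connO_none
  | choice t u _ _ => intro j α j' α' h; exact absurd h connO_none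
  | par t u iht ihu =>
    intro j α j' α' h
    rcases connO_mk.1 h with h | h | ⟨β, h, h'⟩ | ⟨β, h, h'⟩
    · obtain ⟨t', h1, h2, h3, h4⟩ := iht h
      exact ⟨_, .parL h1, Or.inl h2, Or.inl h3, fun n hn => hn.imp (h4 n) id⟩
    · obtain ⟨t', h1, h2, h3, h4⟩ := ihu h
      exact ⟨_, .parR h1, Or.inr h2, Or.inr h3, fun n hn => hn.imp id (h4 n)⟩
    · obtain ⟨t', h1, h2, h3⟩ := step_of_expo P h
      obtain ⟨u', h4, h5, h6⟩ := step_of_expo P h'
      exact ⟨_, .sync h1 h4, Or.inl h2, Or.inr h5, fun n hn => hn.imp (h3 n) (h6 n)⟩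
    · obtain ⟨u', h1, h2, h3⟩ := step_of_expo P h
      obtain ⟨t', h4, h5, h6⟩ := step_of_expo P h'
      refine ⟨_, .sync (l := co β) h4 (by rwa [co_co]), Or.inr h2, Or.inl h5,
        fun n hn => hn.imp (h6 n) (h3 n)⟩
  | lmerge t u _ _ => intro j α j' α' h; exact absurd h connO_none
  | cmerge t u _ _ => intro j α j' α' h; exact absurd h connO_none
  | restrict t L ih =>
    intro j α j' α' h
    obtain ⟨S, h1, h2⟩ := h
    obtain ⟨S', h3, h4⟩ := Option.map_eq_some_iff.1 h1
    subst h4
    obtain ⟨t', h5, h6, h7, h8⟩ := ih ⟨S', h3, h2⟩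
    exact ⟨_, .restrict h5 (by intro l hl; cases hl), h6, h7, h8⟩
  | relabel t f ih =>
    intro j α j' α' h
    obtain ⟨S, h1, h2⟩ := h
    obtain ⟨S', h3, h4⟩ := Option.map_eq_some_iff.1 h1
    subst h4
    obtain ⟨t', h5, h6, h7, h8⟩ := ih ⟨S', h3, h2⟩
    exact ⟨_, StepG.relabel (μ := .tau) h5, h6, h7, h8⟩

/-! ### Runs and paths of moves -/

/-- Paths of moves. -/
def MvStar (γ : V → J → Prop) : Term N (St N V J) → Term N (St N V J) → Prop :=
  Relation.ReflTransGen (fun a b => ∃ j, Mv γ a j b)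

theorem MvStar.lift {γ : V → J → Prop} (f : Term N (St N V J) → Term N (St N V J))
    (hf : ∀ a b j, Mv γ a j b → Mv γ (f a) j (f b)) {a b : Term N (St N V J)} (h : MvStar γ a b) :
    MvStar γ (f a) (f b) := by
  induction h with
  | refl => exact .refl
  | tail _ h ih => obtain ⟨j, h⟩ := h; exact .tail ih ⟨j, hf _ _ _ h⟩

/-- Embedding of open terms into terms over states. -/
def emb (t : Term N V) : Term N (St N V J) := t.subst (fun x => .var (.X x))

theorem raw_emb (t : Term N V) : Raw (emb (J := J) t) := by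
  induction t with
  | var x => exact ⟨x, rfl⟩
  | nil => trivial
  | pre μ t ih => exact ih
  | choice t u iht ihu => exact ⟨iht, ihu⟩
  | par t u iht ihu => exact ⟨iht, ihu⟩
  | lmerge t u iht ihu => exact ⟨iht, ihu⟩
  | cmerge t u iht ihu => exact ⟨iht, ihu⟩
  | restrict t L ih => exact ih
  | relabel t f ih => exact ih

theorem path_of_run {γ : V → J → Prop} {t : Term N V} : ∀ {o : Option (Tree N J)}, RunO (gV γ) t o →
    ∃ w, MvStar γ (emb t) w ∧ skel w = o := by
  induction t with
  | var x =>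
    rintro o ⟨oj, h1, rfl⟩
    cases oj with
    | none => exact ⟨_, .refl, rfl⟩
    | some j => exact ⟨_, .single ⟨j, .var h1⟩, rfl⟩
  | nil => rintro o rfl; exact ⟨_, .refl, rfl⟩
  | pre μ t _ => rintro o rfl; exact ⟨_, .refl, rfl⟩
  | choice t u iht ihu =>
    rintro o (rfl | ⟨h0, h | h⟩)
    · exact ⟨_, .refl, rfl⟩
    · obtain ⟨w, h1, rfl⟩ := iht h
      rcases Relation.ReflTransGen.cases_head h1 with h2 | ⟨c, ⟨j, h2⟩, h3⟩
      · exfalso; apply h0; rw [← h2, Raw.skel (raw_emb t)]
      · exact ⟨w, .head ⟨j, .choiceL h2⟩ h3, rfl⟩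
    · obtain ⟨w, h1, rfl⟩ := ihu h
      rcases Relation.ReflTransGen.cases_head h1 with h2 | ⟨c, ⟨j, h2⟩, h3⟩
      · exfalso; apply h0; rw [← h2, Raw.skel (raw_emb u)]
      · exact ⟨w, .head ⟨j, .choiceR h2⟩ h3, rfl⟩
  | par t u iht ihu =>
    rintro o ⟨o1, o2, h1, h2, rfl⟩
    obtain ⟨w1, h3, rfl⟩ := iht h1
    obtain ⟨w2, h4, rfl⟩ := ihu h2
    refine ⟨.par w1 w2, ?_, rfl⟩
    have h5 : MvStar γ (.par (emb t) (emb u)) (.par w1 (emb u)) :=
      MvStar.lift (fun a => Term.par a (emb u)) (fun a b j hj => .parL hj) h3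
    have h6 : MvStar γ (.par w1 (emb u)) (.par w1 w2) :=
      MvStar.lift (fun a => Term.par w1 a) (fun a b j hj => .parR hj) h4
    exact h5.trans h6
  | lmerge t u iht ihu =>
    rintro o (rfl | ⟨S, o2, h1, h2, rfl⟩)
    · exact ⟨_, .refl, rfl⟩
    · obtain ⟨w1, h3, h3'⟩ := iht h1
      obtain ⟨w2, h4, rfl⟩ := ihu h2
      refine ⟨.par w1 w2, ?_, by rw [skel, h3']⟩
      rcases Relation.ReflTransGen.cases_head h3 with h5 | ⟨c, ⟨j, h5⟩, h6⟩
      · exfalso
        rw [← h5, Raw.skel (raw_emb t)] at h3'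
        cases h3'
      · have h7 : MvStar γ (.par c (emb u)) (.par w1 (emb u)) :=
          MvStar.lift (fun a => Term.par a (emb u)) (fun a b j hj => .parL hj) h6
        have h8 : MvStar γ (.par w1 (emb u)) (.par w1 w2) :=
          MvStar.lift (fun a => Term.par w1 a) (fun a b j hj => .parR hj) h4
        exact .head ⟨j, .lmerge h5⟩ (h7.trans h8)
  | cmerge t u _ _ => rintro o rfl; exact ⟨_, .refl, rfl⟩
  | restrict t L ih =>
    rintro o ⟨o1, h1, rfl⟩
    obtain ⟨w, h3, rfl⟩ := ih h1
    exact ⟨.restrict w L, MvStar.lift (fun a => Term.restrict a L)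
      (fun a b j hj => .restrict L hj) h3, rfl⟩
  | relabel t f ih =>
    rintro o ⟨o1, h1, rfl⟩
    obtain ⟨w, h3, rfl⟩ := ih h1
    exact ⟨.relabel w f, MvStar.lift (fun a => Term.relabel a f)
      (fun a b j hj => .relabel f hj) h3, rfl⟩

theorem run_skel {γ : V → J → Prop} (w : Term N (St N V J)) : RunO (gS γ) w (skel w) := by
  induction w with
  | var v =>
    cases v with
    | X x => exact ⟨none, trivial, rfl⟩
    | Q j => exact ⟨some j, rfl, rfl⟩
    | F j α => exact ⟨none, rfl, rfl⟩
    | ch n => exact ⟨none, rfl, rfl⟩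
  | nil => rfl
  | pre μ t _ => rfl
  | choice t u _ _ => exact Or.inl rfl
  | par t u iht ihu => exact ⟨_, _, iht, ihu, rfl⟩
  | lmerge t u _ _ => exact Or.inl rfl
  | cmerge t u _ _ => rfl
  | restrict t L ih => exact ⟨_, ih, rfl⟩
  | relabel t f ih => exact ⟨_, ih, rfl⟩

theorem mk_ne_none_left {o o' : Option (Tree N J)} (h : o ≠ none) : mk o o' ≠ none := by
  cases o with
  | none => exact absurd rfl h
  | some S => cases o' <;> simp [mk]

theorem mk_ne_none_right {o o' : Option (Tree N J)} (h : o' ≠ none) : mk o o' ≠ none := by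
  cases o' with
  | none => exact absurd rfl h
  | some S => cases o <;> simp [mk]

theorem run_ne_none {γ : V → J → Prop} {w : Term N (St N V J)} {j : J} : ∀ {o : Option (Tree N J)},
    Exp w (.Q j) → RunO (gS γ) w o → o ≠ none := by
  induction w with
  | var v =>
    rintro o h ⟨oj, h1, rfl⟩
    cases h
    cases h1
    simp
  | nil => intro o h; exact h.elim
  | pre μ t _ => intro o h; exact h.elim
  | choice t u _ _ => intro o h; exact h.elim
  | par t u iht ihu =>
    rintro o h ⟨o1, o2, h1, h2, rfl⟩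
    rcases h with h | h
    · exact mk_ne_none_left (iht h h1)
    · exact mk_ne_none_right (ihu h h2)
  | lmerge t u _ _ => intro o h; exact h.elim
  | cmerge t u _ _ => intro o h; exact h.elim
  | restrict t L ih =>
    rintro o h ⟨o1, h1, rfl⟩
    have := ih h h1
    cases o1 with
    | none => exact absurd rfl this
    | some S => simp
  | relabel t f ih =>
    rintro o h ⟨o1, h1, rfl⟩
    have := ih h h1
    cases o1 with
    | none => exact absurd rfl this
    | some S => simp

theorem Mv.run_back {γ : V → J → Prop} {w w' : Term N (St N V J)} {j : J} (h : Mv γ w j w') :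
    ∀ {o : Option (Tree N J)}, RunO (gS γ) w' o → RunO (gS γ) w o := by
  induction h with
  | var h =>
    rintro o ⟨oj, h1, rfl⟩
    cases h1
    exact ⟨some _, h, rfl⟩
  | choiceL h ih => intro o ho; exact Or.inr ⟨run_ne_none h.exp ho, Or.inl (ih ho)⟩
  | choiceR h ih => intro o ho; exact Or.inr ⟨run_ne_none h.exp ho, Or.inr (ih ho)⟩
  | parL h ih => rintro o ⟨o1, o2, h1, h2, rfl⟩; exact ⟨o1, o2, ih h1, h2, rfl⟩
  | parR h ih => rintro o ⟨o1, o2, h1, h2, rfl⟩; exact ⟨o1, o2, h1, ih h2, rfl⟩
  | lmerge h ih =>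
    rintro o ⟨o1, o2, h1, h2, rfl⟩
    cases o1 with
    | none => exact absurd rfl (run_ne_none h.exp h1)
    | some S => exact Or.inr ⟨S, o2, ih h1, h2, rfl⟩
  | restrict L h ih => rintro o ⟨o1, h1, rfl⟩; exact ⟨o1, ih h1, rfl⟩
  | relabel f h ih => rintro o ⟨o1, h1, rfl⟩; exact ⟨o1, ih h1, rfl⟩

theorem run_emb {γ : V → J → Prop} {t : Term N V} : ∀ {o : Option (Tree N J)},
    RunO (gS γ) (emb t) o → RunO (gV γ) t o := by
  induction t with
  | var x => intro o h; exact h
  | nil => intro o h; exact h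
  | pre μ t _ => intro o h; exact h
  | choice t u iht ihu =>
    rintro o (h | ⟨h0, h | h⟩)
    · exact Or.inl h
    · exact Or.inr ⟨h0, Or.inl (iht h)⟩
    · exact Or.inr ⟨h0, Or.inr (ihu h)⟩
  | par t u iht ihu => rintro o ⟨o1, o2, h1, h2, rfl⟩; exact ⟨o1, o2, iht h1, ihu h2, rfl⟩
  | lmerge t u iht ihu =>
    rintro o (h | ⟨S, o2, h1, h2, rfl⟩)
    · exact Or.inl h
    · exact Or.inr ⟨S, o2, iht h1, ihu h2, rfl⟩
  | cmerge t u _ _ => intro o h; exact h
  | restrict t L ih => rintro o ⟨o1, h1, rfl⟩; exact ⟨o1, ih h1, rfl⟩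
  | relabel t f ih => rintro o ⟨o1, h1, rfl⟩; exact ⟨o1, ih h1, rfl⟩

theorem run_of_path {γ : V → J → Prop} {t : Term N V} {w : Term N (St N V J)}
    (h : MvStar γ (emb t) w) : RunO (gV γ) t (skel w) := by
  apply run_emb
  have : ∀ a, MvStar γ a w → RunO (gS γ) a (skel w) := by
    intro a ha
    induction ha using Relation.ReflTransGen.head_induction_on with
    | refl => exact run_skel w
    | head h1 _ ih => obtain ⟨j, h1⟩ := h1; exact h1.run_back ih
  exact this _ h

theorem run_restrict {γ : V → J → Prop} {P : J → Prop} {t : Term N V} : ∀ {o : Option (Tree N J)},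
    RunO (gV γ) t o → (∀ j ∈ labelsO o, P j) → RunO (gV (fun x j => γ x j ∧ P j)) t o := by
  induction t with
  | var x =>
    rintro o ⟨oj, h1, rfl⟩ hP
    refine ⟨oj, ?_, rfl⟩
    cases oj with
    | none => trivial
    | some j => exact ⟨h1, hP j (by simp [labelsO, Tree.labels])⟩
  | nil => intro o h _; exact h
  | pre μ t _ => intro o h _; exact h
  | choice t u iht ihu =>
    rintro o (h | ⟨h0, h | h⟩) hP
    · exact Or.inl h
    · exact Or.inr ⟨h0, Or.inl (iht h hP)⟩
    · exact Or.inr ⟨h0, Or.inr (ihu h hP)⟩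
  | par t u iht ihu =>
    rintro o ⟨o1, o2, h1, h2, rfl⟩ hP
    rw [labelsO_mk] at hP
    exact ⟨o1, o2, iht h1 (fun j hj => hP j (Multiset.mem_add.2 (Or.inl hj))),
      ihu h2 (fun j hj => hP j (Multiset.mem_add.2 (Or.inr hj))), rfl⟩
  | lmerge t u iht ihu =>
    rintro o (h | ⟨S, o2, h1, h2, rfl⟩) hP
    · exact Or.inl h
    · rw [labelsO_mk] at hP
      exact Or.inr ⟨S, o2, iht h1 (fun j hj => hP j (Multiset.mem_add.2 (Or.inl hj))),
        ihu h2 (fun j hj => hP j (Multiset.mem_add.2 (Or.inr hj))), rfl⟩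
  | cmerge t u _ _ => intro o h _; exact h
  | restrict t L ih =>
    rintro o ⟨o1, h1, rfl⟩ hP
    rw [labelsO_map_res] at hP
    exact ⟨o1, ih h1 hP, rfl⟩
  | relabel t f ih =>
    rintro o ⟨o1, h1, rfl⟩ hP
    rw [labelsO_map_rel] at hP
    exact ⟨o1, ih h1 hP, rfl⟩

theorem run_mono {γ γ' : V → J → Prop} (hγ : ∀ x j, γ x j → γ' x j) {t : Term N V} :
    ∀ {o : Option (Tree N J)}, RunO (gV γ) t o → RunO (gV γ') t o := by
  induction t with
  | var x =>
    rintro o ⟨oj, h1, rfl⟩
    refine ⟨oj, ?_, rfl⟩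
    cases oj with
    | none => trivial
    | some j => exact hγ _ _ h1
  | nil => intro o h; exact h
  | pre μ t _ => intro o h; exact h
  | choice t u iht ihu =>
    rintro o (h | ⟨h0, h | h⟩)
    · exact Or.inl h
    · exact Or.inr ⟨h0, Or.inl (iht h)⟩
    · exact Or.inr ⟨h0, Or.inr (ihu h)⟩
  | par t u iht ihu => rintro o ⟨o1, o2, h1, h2, rfl⟩; exact ⟨o1, o2, iht h1, ihu h2, rfl⟩
  | lmerge t u iht ihu =>
    rintro o (h | ⟨S, o2, h1, h2, rfl⟩)
    · exact Or.inl h
    · exact Or.inr ⟨S, o2, iht h1, ihu h2, rfl⟩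
  | cmerge t u _ _ => intro o h; exact h
  | restrict t L ih => rintro o ⟨o1, h1, rfl⟩; exact ⟨o1, ih h1, rfl⟩
  | relabel t f ih => rintro o ⟨o1, h1, rfl⟩; exact ⟨o1, ih h1, rfl⟩

end Pool.Agent.K3h39.CCS
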